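import Pool.Agent.K6.H10.SY.Final

/-!
# The definitions used in the results on the symplectic forms on `CP²`

Differential forms on `CP²` are treated as forms on `ℂ³ \ {0}` which are invariant under the
multiplications by nonzero complex numbers and vanish on the directions of the orbits
(`IsForm`, `IsOne`, `Forms` in `Pool.Agent.K6.H10.SY.Defs`, with the topology of uniform
convergence of all derivatives on compact sets).
-/

set_option autoImplicit false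

noncomputable section

namespace Pool.Agent.K6.H10.SY

open MvPolynomial (eval)

/-- the space `S` of symplectic forms in the class of the Fubini-Study form -/
def S : Set Forms := {Ω | Nondeg Ω.val ∧ InClass Ω.val}

/-- the Kähler forms in the class of the Fubini-Study form -/
def IsKaehler (τ : Forms) : Prop :=
  InClass τ.val ∧ (∀ z v w, τ.val z (Complex.I • v) (Complex.I • w) = τ.val z v w) ∧
    ∀ z : V, z ≠ 0 → ∀ v, (¬ ∃ c : ℂ, v = c • z) → 0 < τ.val z v (Complex.I • v)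

/-- the line segment from `Ω` to `τ` is in `S` -/
def SegmentIn (Ω τ : Forms) : Prop :=
  ∀ t : ℝ, 0 ≤ t → t ≤ 1 → ∃ Ω' ∈ S, Ω'.val = (1 - t) • Ω.val + t • τ.val

/-- the forms in `C` which are joined to a Kähler form in `C` by a line segment in `S` -/
def Visible (C : Set (V → Bil)) : Set Forms :=
  {Ω | Ω.val ∈ C ∧ ∃ τ : Forms, IsKaehler τ ∧ τ.val ∈ C ∧ SegmentIn Ω τ}

/-- `ω_z (v, i v) > 0` for all nonzero directions `(z, v)` in `D` -/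
def PositiveOn (D : Set (V × V)) (Ω : Forms) : Prop :=
  ∀ q ∈ D, q.1 ≠ 0 → (¬ ∃ c : ℂ, q.2 = c • q.1) → 0 < Ω.val q.1 q.2 (Complex.I • q.2)

/-- the function defined by a polynomial -/
def fn (P : Fin 2 → MvPolynomial (Fin 3) ℂ) (j : Fin 2) (z : V) : ℂ := eval z (P j)

/-- the complex directions which are tangent to the fibres of the pencil `P 0 : P 1` -/
def pencilDirections (P : Fin 2 → MvPolynomial (Fin 3) ℂ) : Set (V × V) :=
  {q | fn P 0 q.1 * fderiv ℂ (fn P 1) q.1 q.2 = fn P 1 q.1 * fderiv ℂ (fn P 0) q.1 q.2}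

theorem isKaehler_iff (τ : Forms) : IsKaehler τ ↔ Kah τ.val :=
  ⟨fun h => ⟨τ.property, h.1, h.2.1, h.2.2⟩, fun h => ⟨h.cls, h.type11, h.pos⟩⟩

theorem segmentIn_of {Ω τ : Forms} (hΩ : InClass Ω.val) (hτ : InClass τ.val)
    (h : Sees Ω τ) : SegmentIn Ω τ := fun t ht ht' =>
  ⟨comb (1 - t) t Ω τ, ⟨h t ht ht', hΩ.comb hτ (by ring)⟩, rfl⟩

theorem SegmentIn.sees {Ω τ : Forms} (h : SegmentIn Ω τ) : Sees Ω τ := by
  intro t ht ht'
  obtain ⟨Ω', h1, h2⟩ := h t ht ht'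
  rw [← h2]
  exact h1.1

theorem SegmentIn.mem {Ω τ : Forms} (h : SegmentIn Ω τ) : Ω ∈ S := by
  obtain ⟨Ω', h1, h2⟩ := h 0 le_rfl zero_le_one
  have h3 : Ω'.val = Ω.val := by
    rw [h2]
    funext z
    exact comb0 _ _
  have h4 : Ω' = Ω := by
    cases Ω'
    cases Ω
    subst h3
    rfl
  rwa [h4] at h1

theorem comb_mem {Ω τ : Forms} (hΩ : InClass Ω.val) (hτ : InClass τ.val) (h : Sees Ω τ) {t : ℝ}
    (ht : 0 ≤ t) (ht' : t ≤ 1) : comb (1 - t) t Ω τ ∈ S :=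
  ⟨h t ht ht', hΩ.comb hτ (by ring)⟩

theorem exists_pencil {d : ℕ} {P : Fin 2 → MvPolynomial (Fin 3) ℂ}
    (hP : ∀ j, (P j).IsHomogeneous d) : ∃ a : Coef d, form d a = fn P := by
  obtain ⟨a, ha⟩ := exists_coef P hP
  refine ⟨a, ?_⟩
  funext j z
  exact ha j z

/-- the visible forms are contractible -/
theorem visible_contractible {C : Set (V → Bil)} (hC : Convex ℝ C)
    (h : ∃ τ : Forms, IsKaehler τ ∧ τ.val ∈ C) : ContractibleSpace (Visible C) := by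
  obtain ⟨τ, hτ, hτC⟩ := h
  rw [isKaehler_iff] at hτ
  refine gen hC (Visible C) ⟨τ, hτC, τ, (isKaehler_iff τ).2 hτ, hτC,
    segmentIn_of hτ.cls hτ.cls (kah_sees hτ hτ)⟩ ?_ ?_
  · rintro Ω ⟨_, τ, h1, h2, h3⟩
    exact ⟨τ, (isKaehler_iff τ).1 h1, h2, h3.sees⟩
  · rintro Ω ⟨hΩC, τ', h1, h2, h3⟩ τ hk hc hs t ht ht'
    have hΩ : Ω ∈ S := h3.mem
    have hmem := comb_mem hΩ.2 hk.cls hs ht ht'
    exact ⟨hC hΩC hc (by linarith) ht (by ring), τ, (isKaehler_iff τ).2 hk, hc,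
      segmentIn_of hmem.2 hk.cls (hs.comb ht ht')⟩

/-- the visible forms are open in `S ∩ C` -/
theorem visible_open (C : Set (V → Bil)) :
    ∃ O : Set Forms, IsOpen O ∧ Visible C = {Ω | Ω ∈ S ∧ Ω.val ∈ C} ∩ O := by
  refine ⟨{Ω | ∃ τ : Forms, (Kah τ.val ∧ τ.val ∈ C) ∧ res Ω ∈ OS τ}, ?_, ?_⟩
  · have h1 : {Ω : Forms | ∃ τ : Forms, (Kah τ.val ∧ τ.val ∈ C) ∧ res Ω ∈ OS τ} =
        ⋃ τ : Idx C, res ⁻¹' OS τ.1 := by
      ext Ω
      simp only [Set.mem_iUnion, Set.mem_preimage]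
      constructor
      · rintro ⟨τ, h1, h2⟩
        exact ⟨⟨τ, h1⟩, h2⟩
      · rintro ⟨⟨τ, h1⟩, h2⟩
        exact ⟨τ, h1, h2⟩
    rw [h1]
    exact isOpen_iUnion fun τ => (isOpen_OS τ.1).preimage continuous_res
  · ext Ω
    constructor
    · rintro ⟨h0, τ, h1, h2, h3⟩
      have hk := (isKaehler_iff τ).1 h1
      exact ⟨⟨h3.mem, h0⟩, τ, ⟨hk, h2⟩, mem_OS.2 fun l z hz _ => h3.sees.seg hk hz⟩
    · rintro ⟨⟨hΩ, h0⟩, τ, ⟨hk, hc⟩, h2⟩
      exact ⟨h0, τ, (isKaehler_iff τ).2 hk, hc,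
        segmentIn_of hΩ.2 hk.cls (sees_of_seg (mem_OS.1 h2))⟩

/-- the segments from forms which are positive on a pencil -/
theorem pencil_segment {d : ℕ} {P : Fin 2 → MvPolynomial (Fin 3) ℂ} (hd : 0 < d)
    (hP : ∀ j, (P j).IsHomogeneous d) {Ω : Forms} (hΩ : Ω ∈ S)
    (hp : PositiveOn (pencilDirections P) Ω) : ∃ ε₀ : ℝ, 0 < ε₀ ∧ ∀ ε, 0 < ε → ε < ε₀ →
      ∃ τ : Forms, τ.val = tau d (fn P) ε ∧ IsKaehler τ ∧ SegmentIn Ω τ := by
  obtain ⟨a, ha⟩ := exists_pencil hP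
  have hpos : PosOn (form d a) Ω.val := by
    intro z hz v hv hw
    rw [ha] at hw
    exact hp (z, v) (sub_eq_zero.1 hw) hz hv
  obtain ⟨ε₀, h0, h1⟩ := pencil hd a Ω hΩ.1 hpos
  refine ⟨ε₀, h0, fun ε h2 h3 => ?_⟩
  have hk := kah_tau hd a h2
  refine ⟨⟨tau d (form d a) ε, hk.isForm⟩, by rw [← ha], (isKaehler_iff _).2 hk, ?_⟩
  exact segmentIn_of hΩ.2 hk.cls (h1 ε h2 h3)

/-- the forms which are positive on a set of directions from a family -/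
theorem family_contractible {C : Set (V → Bil)} (hC : Convex ℝ C) (𝒟 : Set (Set (V × V)))
    (hne : 𝒟.Nonempty)
    (h : ∀ D ∈ 𝒟, ∃ (d : ℕ) (P : Fin 2 → MvPolynomial (Fin 3) ℂ), 0 < d ∧
      (∀ j, (P j).IsHomogeneous d) ∧ (∃ ε₁ : ℝ, 0 < ε₁ ∧ ∀ ε, 0 < ε → ε < ε₁ →
        tau d (fn P) ε ∈ C) ∧ pencilDirections P ⊆ D) :
    ContractibleSpace {Ω : Forms | Ω ∈ S ∧ Ω.val ∈ C ∧ ∃ D ∈ 𝒟, PositiveOn D Ω} := by
  refine gen (C := C) hC _ ?_ ?_ ?_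
  · obtain ⟨D, hD⟩ := hne
    obtain ⟨d, P, hd, hP, ⟨ε₁, h1, h2⟩, _⟩ := h D hD
    obtain ⟨a, ha⟩ := exists_pencil hP
    have h3 : 0 < ε₁ / 2 := by linarith
    have hk := kah_tau hd a h3
    let τ : Forms := ⟨tau d (form d a) (ε₁ / 2), hk.isForm⟩
    have hs : Sees τ τ := kah_sees (τ₁ := τ) (τ₂ := τ) hk hk
    have h0 : τ ∈ S := (segmentIn_of hk.cls hk.cls hs).mem
    have h4 : tau d (form d a) (ε₁ / 2) ∈ C := by
      rw [ha]
      exact h2 _ h3 (by linarith)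
    exact ⟨τ, h0, h4, D, hD, Kah.posDir hk D⟩
  · rintro Ω ⟨hΩ, _, D, hD, hp⟩
    obtain ⟨d, P, hd, hP, ⟨ε₁, h1, h2⟩, hsub⟩ := h D hD
    obtain ⟨ε₀, h3, h4⟩ := pencil_segment hd hP hΩ fun q hq => hp q (hsub hq)
    have h5 : 0 < min ε₀ ε₁ / 2 := by
      have := lt_min h3 h1
      linarith
    have h6 := min_le_left ε₀ ε₁
    have h7 := min_le_right ε₀ ε₁
    obtain ⟨τ, e1, e2, e3⟩ := h4 (min ε₀ ε₁ / 2) h5 (by linarith)
    exact ⟨τ, (isKaehler_iff τ).1 e2, by rw [e1]; exact h2 _ h5 (by linarith), e3.sees⟩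
  · rintro Ω ⟨hΩ, hc, D, hD, hp⟩ τ hτ hτC hs t ht ht'
    exact ⟨comb_mem hΩ.2 hτ.cls hs ht ht', hC hc hτC (by linarith) ht (by ring), D, hD,
      PosDir.comb hp (hτ.posDir D) ht ht'⟩

end Pool.Agent.K6.H10.SY
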