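import Pool.Agent.K6.H10.SY.Poly

/-!
# Two forms in three variables have a common zero
-/

set_option autoImplicit false

open MvPolynomial

noncomputable section

namespace Pool.Agent.K6.H10.SY

/-- the polynomial ring -/
abbrev R3 : Type := MvPolynomial (Fin 3) ℂ

def φ1 : R3 →ₐ[ℂ] R3 := aeval ![0, X 1, X 2]
def φ2 : R3 →ₐ[ℂ] R3 := aeval ![0, 0, X 2]
def φ3 : R3 →ₐ[ℂ] R3 := aeval ![0, 0, 0]

def K1 : Ideal R3 := RingHom.ker φ1
def K2 : Ideal R3 := RingHom.ker φ2
def K3 : Ideal R3 := RingHom.ker φ3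

instance : K1.IsPrime := RingHom.ker_isPrime _
instance : K2.IsPrime := RingHom.ker_isPrime _
instance : K3.IsPrime := RingHom.ker_isPrime _

theorem φ21 : φ2.comp φ1 = φ2 := by
  apply MvPolynomial.algHom_ext
  intro i
  fin_cases i <;> simp [φ1, φ2]

theorem φ32 : φ3.comp φ2 = φ3 := by
  apply MvPolynomial.algHom_ext
  intro i
  fin_cases i <;> simp [φ2, φ3]

theorem K01 : (⊥ : Ideal R3) < K1 := by
  refine bot_lt_iff_ne_bot.2 fun h => ?_
  have h1 : (X 0 : R3) ∈ K1 := by
    rw [K1, RingHom.mem_ker]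
    simp [φ1]
  rw [h, Ideal.mem_bot] at h1
  exact X_ne_zero 0 h1

theorem K12 : K1 < K2 := by
  refine lt_of_le_of_ne ?_ fun h => ?_
  · intro p hp
    rw [K1, RingHom.mem_ker] at hp
    rw [K2, RingHom.mem_ker, ← φ21, AlgHom.comp_apply, hp, map_zero]
  · have h1 : (X 1 : R3) ∈ K2 := by
      rw [K2, RingHom.mem_ker]
      simp [φ2]
    rw [← h, K1, RingHom.mem_ker] at h1
    simp [φ1] at h1

theorem K23 : K2 < K3 := by
  refine lt_of_le_of_ne ?_ fun h => ?_
  · intro p hp
    rw [K2, RingHom.mem_ker] at hp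
    rw [K3, RingHom.mem_ker, ← φ32, AlgHom.comp_apply, hp, map_zero]
  · have h1 : (X 2 : R3) ∈ K3 := by
      rw [K3, RingHom.mem_ker]
      simp [φ3]
    rw [← h, K2, RingHom.mem_ker] at h1
    simp [φ2] at h1

theorem height_K3 : 3 ≤ K3.height := by
  have h1 := Ideal.height_add_one_le_of_lt_of_isPrime K01
  have h2 := Ideal.height_add_one_le_of_lt_of_isPrime K12
  have h3 := Ideal.height_add_one_le_of_lt_of_isPrime K23
  calc (3 : ℕ∞) = 0 + 1 + 1 + 1 := by norm_num
    _ ≤ (⊥ : Ideal R3).height + 1 + 1 + 1 := by gcongr; exact bot_le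
    _ ≤ K1.height + 1 + 1 := by gcongr
    _ ≤ K2.height + 1 := by gcongr
    _ ≤ K3.height := h3

theorem mem_K3 (p : R3) : p ∈ K3 ↔ eval (fun _ => (0 : ℂ)) p = 0 := by
  have h : (φ3 : R3 →+* R3) = (C : ℂ →+* R3).comp (eval fun _ => (0 : ℂ)) := by
    apply MvPolynomial.ringHom_ext
    · intro c
      simp [φ3]
    · intro i
      fin_cases i <;> simp [φ3]
  rw [K3, RingHom.mem_ker]
  have h1 : φ3 p = C (eval (fun _ => (0 : ℂ)) p) := RingHom.congr_fun h p
  rw [h1]
  exact C_eq_zero

/-- two polynomials in three variables which vanish at the origin have another common zero -/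
theorem exists_zero (P : Fin 2 → R3) (h0 : ∀ j, eval (fun _ => (0 : ℂ)) (P j) = 0) :
    ∃ z : Fin 3 → ℂ, z ≠ 0 ∧ ∀ j, eval z (P j) = 0 := by
  classical
  by_contra hc
  push Not at hc
  set I : Ideal R3 := Ideal.span (({P 0, P 1} : Finset R3) : Set R3) with hI
  have hle : I ≤ K3 := by
    rw [hI, Ideal.span_le]
    intro p hp
    rw [SetLike.mem_coe, mem_K3]
    simp only [Finset.coe_insert, Finset.coe_singleton, Set.mem_insert_iff,
      Set.mem_singleton_iff] at hp
    rcases hp with rfl | rfl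
    · exact h0 0
    · exact h0 1
  obtain ⟨p, hp, hpK⟩ := Ideal.exists_minimalPrimes_le hle
  have hpp : p.IsPrime := hp.1.1
  have hKp : K3 ≤ p := by
    have h1 : K3 ≤ I.radical := by
      rw [← vanishingIdeal_zeroLocus_eq_radical (K := ℂ)]
      intro f hf
      rw [mem_vanishingIdeal_iff]
      intro z hz
      have hz0 : z = 0 := by
        by_contra hne
        obtain ⟨j, hj⟩ := hc z hne
        apply hj
        rw [mem_zeroLocus_iff] at hz
        have hmem : P j ∈ I := by
          refine Ideal.subset_span ?_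
          fin_cases j <;> simp
        have := hz _ hmem
        rwa [aeval_eq_eval] at this
      rw [mem_K3] at hf
      rw [hz0, aeval_eq_eval]
      exact hf
    exact h1.trans (hpp.radical_le_iff.2 hp.1.2)
  have hpK' : p = K3 := le_antisymm hpK hKp
  rw [hpK'] at hp
  have h2 := Ideal.height_le_card_of_mem_minimalPrimes_span_finset hp
  have h3 : (({P 0, P 1} : Finset R3).card : ℕ∞) ≤ 2 := by
    exact_mod_cast Finset.card_le_two
  have h4 := height_K3.trans (h2.trans h3)
  exact absurd h4 (by decide)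

variable {d : ℕ}

theorem form_zero (hd : 0 < d) (a : Coef d) : ∃ z : V, z ≠ 0 ∧ ∀ j, form d a j z = 0 := by
  have h1 : ∀ z : V, ∀ j, eval z (∑ w, C (a j w) * ∏ i, X (w i) : R3) = form d a j z := by
    intro z j
    simp [form, map_sum, map_mul, map_prod]
  obtain ⟨z, hz, h⟩ := exists_zero (fun j => ∑ w, C (a j w) * ∏ i, X (w i)) (fun j => by
    have h2 := h1 (fun _ => 0) j
    rw [h2]
    simp only [form, Finset.prod_const, Finset.card_univ, Fintype.card_fin, zero_pow hd.ne',
      mul_zero, Finset.sum_const_zero])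
  exact ⟨z, hz, fun j => by rw [← h1]; exact h j⟩

end Pool.Agent.K6.H10.SY
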