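import Pool.Agent.K6.H10.SY.Gen

/-!
# Homogeneous polynomials and pencils of lines
-/

set_option autoImplicit false

open MvPolynomial

noncomputable section

namespace Pool.Agent.K6.H10.SY

variable {d : ℕ}

theorem exists_word (m : Fin 3 →₀ ℕ) (hm : m.degree = d) :
    ∃ w : Fin d → Fin 3, ∀ z : V, ∏ i, z (w i) = m.prod fun k e => z k ^ e := by
  have hc : (Finsupp.toMultiset m).card = d := by
    rw [Finsupp.card_toMultiset]
    rw [← hm]
    rfl
  have hl : (Finsupp.toMultiset m).toList.length = d := by
    rw [Multiset.length_toList, hc]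
  refine ⟨fun i => (Finsupp.toMultiset m).toList.get (i.cast hl.symm), fun z => ?_⟩
  have h1 : ∏ i : Fin d, z ((Finsupp.toMultiset m).toList.get (i.cast hl.symm)) =
      ∏ i : Fin (Finsupp.toMultiset m).toList.length, z ((Finsupp.toMultiset m).toList.get i) :=
    Fintype.prod_equiv (finCongr hl.symm) _ _ fun i => rfl
  rw [h1, ← List.prod_ofFn]
  have h2 : List.ofFn (fun i => z ((Finsupp.toMultiset m).toList.get i)) =
      (Finsupp.toMultiset m).toList.map z := by
    conv_rhs => rw [← List.ofFn_get (Finsupp.toMultiset m).toList]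
    rw [List.map_ofFn]
    rfl
  rw [h2]
  have h3 : ((Finsupp.toMultiset m).toList.map z).prod = ((Finsupp.toMultiset m).map z).prod := by
    rw [← Multiset.prod_coe, ← Multiset.map_coe, Multiset.coe_toList]
  rw [h3, Finsupp.toMultiset_map, Finsupp.prod_toMultiset]
  exact Finsupp.prod_mapDomain_index (fun _ => pow_zero _) fun _ _ _ => pow_add _ _ _

theorem exists_coef (P : Fin 2 → R3) (h : ∀ j, (P j).IsHomogeneous d) :
    ∃ a : Coef d, ∀ j z, form d a j z = eval z (P j) := by
  classical
  have hw : ∀ m : Fin 3 →₀ ℕ, ∃ w : Fin d → Fin 3, m.degree = d →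
      ∀ z : V, ∏ i, z (w i) = m.prod fun k e => z k ^ e := by
    intro m
    by_cases hm : m.degree = d
    · obtain ⟨w, hw⟩ := exists_word m hm
      exact ⟨w, fun _ => hw⟩
    · exact ⟨fun _ => 0, fun h => absurd h hm⟩
  choose w hw using hw
  refine ⟨fun j u => ∑ m ∈ (P j).support, if w m = u then coeff m (P j) else 0, fun j z => ?_⟩
  rw [form, eval_eq]
  simp only [Finset.sum_mul]
  rw [Finset.sum_comm]
  refine Finset.sum_congr rfl fun m hm => ?_
  simp only [ite_mul, zero_mul, Finset.sum_ite_eq, Finset.mem_univ, if_true]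
  have hdeg : m.degree = d := by
    have := h j (mem_support_iff.1 hm)
    rw [← this]
    simp only [Finsupp.degree_eq_weight_one]
    rfl
  rw [hw m hdeg z]
  rfl

/-- the linear forms which vanish at `p`, in terms of a coordinate `l` of `p` -/
def linP (p : V) (l : Fin 3) : Fin 2 → R3 :=
  ![C (p l) * X (l + 1) - C (p (l + 1)) * X l, C (p l) * X (l + 2) - C (p (l + 2)) * X l]

theorem linP_hom (p : V) (l : Fin 3) (j : Fin 2) : (linP p l j).IsHomogeneous 1 := by
  have h : ∀ (c : ℂ) (k : Fin 3), (C c * X k : R3).IsHomogeneous 1 := by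
    intro c k
    have := (isHomogeneous_C (Fin 3) c).mul (isHomogeneous_X ℂ k)
    rwa [zero_add] at this
  fin_cases j
  · exact (h _ _).sub (h _ _)
  · exact (h _ _).sub (h _ _)

/-- the linear functions -/
def linL (p : V) (l : Fin 3) (j : Fin 2) : V →ₗ[ℂ] ℂ :=
  p l • LinearMap.proj (l + ![1, 2] j) - p (l + ![1, 2] j) • LinearMap.proj l

theorem linP_eval (p : V) (l : Fin 3) (j : Fin 2) (z : V) :
    eval z (linP p l j) = linL p l j z := by
  fin_cases j <;> simp [linP, linL]

theorem linL_inv {p : V} {l : Fin 3} (hl : p l ≠ 0) {u : V} (hu : u ≠ 0)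
    (h : ∀ j, linL p l j u = 0) : ∃ c : ℂ, p = c • u := by
  have h0 := h 0
  have h1 := h 1
  simp only [linL, LinearMap.sub_apply, LinearMap.smul_apply, LinearMap.proj_apply, smul_eq_mul,
    Matrix.cons_val_zero, Matrix.cons_val_one] at h0 h1
  have key : ∀ i, p l * u i = p i * u l := by
    intro i
    have hi : i = l ∨ i = l + 1 ∨ i = l + 2 := by
      fin_cases l <;> fin_cases i <;> simp
    rcases hi with rfl | rfl | rfl
    · rfl
    · linear_combination h0
    · linear_combination h1
  have hul : u l ≠ 0 := by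
    intro h2
    apply hu
    funext i
    have h3 := key i
    rw [h2, mul_zero] at h3
    exact (mul_eq_zero.1 h3).resolve_left hl
  refine ⟨p l / u l, ?_⟩
  funext i
  simp only [Pi.smul_apply, smul_eq_mul]
  field_simp
  linear_combination -key i

/-- the directions of the pencil of the lines through `p` -/
theorem line_dir {p : V} {l : Fin 3} (hl : p l ≠ 0) {z v : V} (hz : z ≠ 0)
    (hv : ¬ ∃ c : ℂ, v = c • z)
    (hw : linL p l 0 z * linL p l 1 v - linL p l 1 z * linL p l 0 v = 0) :
    ∃ x y : ℂ, p = x • z + y • v := by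
  by_cases h : ∀ j, linL p l j z = 0
  · obtain ⟨c, hc⟩ := linL_inv hl hz h
    exact ⟨c, 0, by rw [zero_smul, add_zero]; exact hc⟩
  · push Not at h
    obtain ⟨k, hk⟩ := h
    have hu : linL p l k z • v - linL p l k v • z ≠ 0 := by
      intro h0
      apply hv
      refine ⟨(linL p l k z)⁻¹ * linL p l k v, ?_⟩
      rw [sub_eq_zero] at h0
      rw [← smul_smul, ← h0, smul_smul, inv_mul_cancel₀ hk, one_smul]
    have hL : ∀ j, linL p l j (linL p l k z • v - linL p l k v • z) = 0 := by
      intro j
      simp only [map_sub, map_smul, smul_eq_mul]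
      fin_cases j <;> fin_cases k <;>
        simp only [Fin.zero_eta, Fin.mk_one, Fin.isValue] <;>
        first | ring1 | linear_combination hw | linear_combination -hw
    obtain ⟨c, hc⟩ := linL_inv hl hu hL
    refine ⟨-(c * linL p l k v), c * linL p l k z, ?_⟩
    conv_lhs => rw [hc]
    rw [smul_sub, smul_smul, smul_smul, neg_smul]
    abel

end Pool.Agent.K6.H10.SY
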