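import Mathlib

/-!
# Forms on the complex projective plane as basic forms on `ℂ³ \ {0}`
-/

set_option autoImplicit false

open scoped ContDiff Topology ComplexConjugate

noncomputable section

namespace Pool.Agent.K6.H10.SY

/-- the space `ℂ³` -/
abbrev V : Type := Fin 3 → ℂ

/-- bilinear forms on the real vector space `ℂ³` -/
abbrev Bil : Type := V →L[ℝ] V →L[ℝ] ℝ

/-- linear forms on the real vector space `ℂ³` -/
abbrev Lin : Type := V →L[ℝ] ℝ

/-- the space without the origin -/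
abbrev V' : Set V := {z | z ≠ 0}

structure IsForm (Ω : V → Bil) : Prop where
  zero : Ω 0 = 0
  smooth : ContDiffOn ℝ ∞ Ω V'
  alt : ∀ z v, Ω z v v = 0
  inv : ∀ z : V, z ≠ 0 → ∀ c : ℂ, c ≠ 0 → ∀ v w, Ω (c • z) (c • v) (c • w) = Ω z v w
  hor : ∀ z : V, z ≠ 0 → ∀ (c : ℂ) (w : V), Ω z (c • z) w = 0

structure IsOne (α : V → Lin) : Prop where
  smooth : ContDiffOn ℝ ∞ α V'
  inv : ∀ z : V, z ≠ 0 → ∀ c : ℂ, c ≠ 0 → ∀ v, α (c • z) (c • v) = α z v
  hor : ∀ z : V, z ≠ 0 → ∀ c : ℂ, α z (c • z) = 0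

/-- the exterior derivative of a one-form -/
def ext (α : V → Lin) (z : V) : Bil := fderiv ℝ α z - (fderiv ℝ α z).flip

/-- the multiplication by `i` -/
def mulI : V →L[ℝ] V := Complex.I • ContinuousLinearMap.id ℝ V

/-- the one-form `d^c f`, with the value `- df (i v)` on `v` -/
def dc (f : V → ℝ) (z : V) : Lin := -(fderiv ℝ f z).comp mulI

/-- the square of the euclidean norm -/
def nsq (z : V) : ℝ := ∑ k, ‖z k‖ ^ 2

/-- `|s₀|² + |s₁|² + ε |z|^{2d}` -/
def Phi (d : ℕ) (s : Fin 2 → V → ℂ) (ε : ℝ) (z : V) : ℝ :=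
  ∑ j, ‖s j z‖ ^ 2 + ε * nsq z ^ d

/-- `(1 / d) d d^c log (|s₀|² + |s₁|² + ε |z|^{2d})` -/
def tau (d : ℕ) (s : Fin 2 → V → ℂ) (ε : ℝ) (z : V) : Bil :=
  open Classical in
  if z = 0 then 0 else (d : ℝ)⁻¹ • ext (dc fun z => Real.log (Phi d s ε z)) z

/-- the Fubini-Study form `d d^c log |z|²` -/
def fs (z : V) : Bil := open Classical in
  if z = 0 then 0 else ext (dc fun z => Real.log (nsq z)) z

/-- nondegeneracy -/
def Nondeg (Ω : V → Bil) : Prop :=
  ∀ z : V, z ≠ 0 → ∀ v, (∀ w, Ω z v w = 0) → ∃ c : ℂ, v = c • z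

/-- the class of the Fubini-Study form -/
def InClass (Ω : V → Bil) : Prop :=
  ∃ α : V → Lin, IsOne α ∧ ∀ z : V, z ≠ 0 → Ω z = fs z + ext α z

/-- `s₀ ds₁ - s₁ ds₀` -/
def wr (s : Fin 2 → V → ℂ) (z v : V) : ℂ :=
  s 0 z * fderiv ℂ (s 1) z v - s 1 z * fderiv ℂ (s 0) z v

/-- positive on the complex directions killed by `s₀ ds₁ - s₁ ds₀` -/
def PosOn (s : Fin 2 → V → ℂ) (Ω : V → Bil) : Prop :=
  ∀ z : V, z ≠ 0 → ∀ v, (¬ ∃ c : ℂ, v = c • z) → wr s z v = 0 → 0 < Ω z v (Complex.I • v)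

/-- the two-forms on the projective plane -/
structure Forms : Type where
  val : V → Bil
  property : IsForm val

theorem isOpen_V' : IsOpen V' := isOpen_ne

theorem jet_continuous {f : V → ℝ} (h : ContDiffOn ℝ ∞ f V') (j : ℕ) :
    Continuous fun z : V' => iteratedFDeriv ℝ j f z := by
  have h1 : ContinuousOn (iteratedFDeriv ℝ j f) V' := by
    intro z hz
    have h2 : ContDiffAt ℝ ∞ f z := h.contDiffAt (isOpen_V'.mem_nhds hz)
    have h3 : ContDiffAt ℝ 0 (iteratedFDeriv ℝ j f) z :=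
      h2.iteratedFDeriv_right (by simp; exact_mod_cast le_top)
    exact h3.continuousAt.continuousWithinAt
  exact continuousOn_iff_continuous_domRestrict.1 h1

theorem coef_smooth {Ω : V → Bil} (h : ContDiffOn ℝ ∞ Ω V') (v w : V) :
    ContDiffOn ℝ ∞ (fun z => Ω z v w) V' :=
  (h.clm_apply contDiffOn_const).clm_apply contDiffOn_const

/-- the `j`-th derivative of the coefficient `Ω (v, w)` of a form -/
def jet (v w : V) (j : ℕ) (Ω : Forms) : C(V', V [×j]→L[ℝ] ℝ) :=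
  ⟨fun z => iteratedFDeriv ℝ j (fun y => Ω.1 y v w) z,
    jet_continuous (coef_smooth Ω.2.smooth v w) j⟩

/-- the smooth topology: uniform convergence on compact sets of all derivatives -/
instance : TopologicalSpace Forms :=
  TopologicalSpace.induced (fun Ω => fun q : V × V × ℕ => jet q.1 q.2.1 q.2.2 Ω) inferInstance

end Pool.Agent.K6.H10.SY
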