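import Pool.Agent.K6.H10.SY.Loc

/-!
# A continuous choice of the parameter, continued
-/

set_option autoImplicit false

open scoped ContDiff Topology ComplexConjugate

noncomputable section

namespace Pool.Agent.K6.H10.SY

open Complex (I)

variable {d : ℕ} {s : Fin 2 → V → ℂ}

/-- all the polarised Pfaffians are positive -/
def Good (d : ℕ) (s : Fin 2 → V → ℂ) (η : M) (ε : ℝ) : Prop :=
  ∀ (l : Fin 3) (z : KK), (z : V) l = 1 → 0 < pairN d s l η ε z

theorem wr_add (z v w : V) : wr s z (v + w) = wr s z v + wr s z w := by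
  simp only [wr, map_add]
  ring

theorem wr_smul (z v : V) (c : ℂ) : wr s z (c • v) = c * wr s z v := by
  simp only [wr, map_smul, smul_eq_mul]
  ring

theorem tame_at {Ω : V → Bil} (h : IsForm Ω) (hp : PosOn s Ω) {l : Fin 3} {z : V}
    (hz : z l = 1) (h1 : wr s z (ee l) = 0) (h2 : wr s z (ff l) = 0) :
    Tame (Ω z) (ee l) (ff l) := by
  refine tame_of_pos (h.alt z) _ _ fun x y hxy => ?_
  refine hp z (ne_zero_of hz) _ (frame_indep hz hxy) ?_
  rw [wr_add, wr_smul, wr_smul, h1, h2, mul_zero, mul_zero, add_zero]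

theorem pairN_tame (hd : 0 < d) {l : Fin 3} {η : M} {ε : ℝ} (hε : 0 < ε) {z : KK}
    (hz : (z : V) l = 1) (ht : TameN fun i => η l i z) : 0 < pairN d s l η ε z := by
  have hz0 := ne_zero_of hz
  have he : ¬ ∃ c : ℂ, ee l = c • (z : V) := by
    have := frame_indep hz (x := 1) (y := 0) (Or.inl one_ne_zero)
    simpa using this
  have hf : ¬ ∃ c : ℂ, ff l = c • (z : V) := by
    have := frame_indep hz (x := 0) (y := 1) (Or.inr one_ne_zero)
    simpa using this
  have h1 := herm_pos (s := s) hd hε hz0 he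
  have h2 := herm_pos (s := s) hd hε hz0 hf
  refine polN_of_tame ht h1.le h2.le (by linarith) (herm_cs h2 ?_)
  refine (herm_pos hd hε hz0 (frame_indep hz (Or.inl ?_))).le
  exact_mod_cast h2.ne'

/-- at `ε = 0`, where `s₀ ds₁ - s₁ ds₀` is not zero -/
theorem pair_zero {Ω : V → Bil} (h : IsForm Ω) (hp : PosOn s Ω) {l : Fin 3} {z : V}
    (hz : z l = 1) (hw : wr s z (ee l) ≠ 0 ∨ wr s z (ff l) ≠ 0) :
    0 < pol (Ω z) (ee l) (ff l) (herm d s 0 z (ee l) (ee l)).re
      (herm d s 0 z (ff l) (ff l)).re (herm d s 0 z (ee l) (ff l)) := by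
  have h1 : 0 < Ω z (wr s z (ff l) • ee l + (-wr s z (ee l)) • ff l)
      (I • (wr s z (ff l) • ee l + (-wr s z (ee l)) • ff l)) := by
    refine hp z (ne_zero_of hz) _ (frame_indep hz ?_) ?_
    · rcases hw with h | h
      · exact Or.inr (neg_ne_zero.2 h)
      · exact Or.inl h
    · rw [wr_add, wr_smul, wr_smul]
      ring
  rw [quad (h.alt z)] at h1
  rw [herm_zero, herm_zero, herm_zero]
  refine h1.trans_eq ?_
  simp only [pol, Complex.mul_re, Complex.mul_im, Complex.conj_re, Complex.conj_im,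
    Complex.neg_re, Complex.neg_im]
  ring

theorem eventually_good (hd : 0 < d) (Ω : Forms) (a : Coef d) (hp : PosOn (form d a) Ω.val) :
    ∀ᶠ p : M × Par d in 𝓝 (restr Ω, (0, a)), 0 < p.2.1 →
      Good d (form d p.2.2) p.1 p.2.1 := by
  have key : ∀ l : Fin 3, ∀ᶠ p : M × Par d in 𝓝 (restr Ω, (0, a)),
      ∀ z ∈ {z : KK | (z : V) l = 1},
      (0 < p.2.1 → (z : V) l = 1 → 0 < pairN d (form d p.2.2) l p.1 p.2.1 z) := by
    intro l
    have hK : IsCompact {z : KK | (z : V) l = 1} := by
      refine IsClosed.isCompact ?_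
      exact isClosed_eq ((continuous_apply l).comp continuous_subtype_val) continuous_const
    refine hK.eventually_forall_of_forall_eventually
      (P := fun (p : M × Par d) (z : KK) => 0 < p.2.1 → (z : V) l = 1 →
        0 < pairN d (form d p.2.2) l p.1 p.2.1 z) fun z hz => ?_
    have hz' : (z : V) l = 1 := hz
    by_cases hw : wr (form d a) z (ee l) = 0 ∧ wr (form d a) z (ff l) = 0
    · have ht : TameN fun i => restr Ω l i z := tame_at Ω.property hp hz' hw.1 hw.2
      have hc : ∀ i, Continuous fun q : (M × Par d) × KK => q.1.1 l i q.2 := by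
        intro i
        have h4 : Continuous fun η : M => η l i := continuous_apply_apply l i
        have h3 : Continuous fun q : (M × Par d) × KK => q.1.1 l i :=
          h4.comp (continuous_fst.comp continuous_fst)
        exact h3.eval continuous_snd
      have e1 : ∀ᶠ q : (M × Par d) × KK in 𝓝 ((restr Ω, (0, a)), z), 0 < q.1.1 l 0 q.2 :=
        (hc 0).continuousAt.eventually_const_lt ht.1
      have e2 : ∀ᶠ q : (M × Par d) × KK in 𝓝 ((restr Ω, (0, a)), z), 0 < q.1.1 l 1 q.2 :=
        (hc 1).continuousAt.eventually_const_lt ht.2.1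
      have e3 : ∀ᶠ q : (M × Par d) × KK in 𝓝 ((restr Ω, (0, a)), z),
          0 < 4 * (q.1.1 l 0 q.2 * q.1.1 l 1 q.2) - (q.1.1 l 2 q.2 ^ 2 + q.1.1 l 3 q.2 ^ 2) := by
        have hcc : Continuous fun q : (M × Par d) × KK =>
            4 * (q.1.1 l 0 q.2 * q.1.1 l 1 q.2) - (q.1.1 l 2 q.2 ^ 2 + q.1.1 l 3 q.2 ^ 2) :=
          (continuous_const.mul ((hc 0).mul (hc 1))).sub (((hc 2).pow 2).add ((hc 3).pow 2))
        exact hcc.continuousAt.eventually_const_lt (sub_pos.2 ht.2.2)
      filter_upwards [e1, e2, e3] with q f1 f2 f3 hq hl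
      exact pairN_tame hd hq hl ⟨f1, f2, sub_pos.1 f3⟩
    · have h0 : 0 < pairN d (form d a) l (restr Ω) 0 z := by
        rw [pairN_restr]
        exact pair_zero Ω.property hp hz' (by tauto)
      have e1 : ∀ᶠ q : (M × Par d) × KK in 𝓝 ((restr Ω, (0, a)), z),
          0 < pairN d (form d q.1.2.2) l q.1.1 q.1.2.1 q.2 :=
        (pairN_cont l).continuousAt.eventually_const_lt h0
      filter_upwards [e1] with q f1 _ _
      exact f1
  filter_upwards [Filter.eventually_all.2 key] with p hpp hp2 l z hz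
  exact hpp l z hz hp2 hz

/-- the bad triples -/
def Bad (d : ℕ) : Set (M × Par d) := {p | 0 < p.2.1 ∧ ¬ Good d (form d p.2.2) p.1 p.2.1}

theorem bad_nonempty : (Bad d).Nonempty := by
  refine ⟨(0, (1, 0)), one_pos, fun h => ?_⟩
  have h1 : ‖(fun _ => 1 : V)‖ = 1 := by
    simp
  have h2 := h 0 ⟨fun _ => 1, by rw [mem_sphere_zero_iff_norm]; exact h1⟩ rfl
  simp [pairN, polN] at h2

/-- the continuous choice of the parameter -/
def eps (d : ℕ) (Ω : Forms) (a : Coef d) : ℝ :=
  min (Metric.infDist (restr Ω, ((0 : ℝ), a)) (Bad d)) 1 / 2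

theorem continuous_eps : Continuous fun p : Forms × Coef d => eps d p.1 p.2 := by
  unfold eps
  have h1 : Continuous fun p : Forms × Coef d =>
      Metric.infDist (restr p.1, ((0 : ℝ), p.2)) (Bad d) :=
    (Metric.continuous_infDist_pt _).comp ((continuous_restr.comp continuous_fst).prodMk
      (continuous_const.prodMk continuous_snd))
  exact (h1.min continuous_const).div_const 2

theorem eps_pos (hd : 0 < d) (Ω : Forms) (a : Coef d) (hp : PosOn (form d a) Ω.val) :
    0 < eps d Ω a := by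
  have h1 : 0 < Metric.infDist (restr Ω, ((0 : ℝ), a)) (Bad d) := by
    refine (Metric.infDist_pos_iff_notMem_closure bad_nonempty).1 fun h => ?_
    rw [mem_closure_iff_frequently] at h
    obtain ⟨p, hp1, hp2⟩ := (h.and_eventually (eventually_good hd Ω a hp)).exists
    exact hp1.2 (hp2 hp1.1)
  unfold eps
  have := lt_min h1 one_pos
  linarith

theorem eps_lt (Ω : Forms) (a : Coef d) : eps d Ω a < 1 := by
  have : min (Metric.infDist (restr Ω, ((0 : ℝ), a)) (Bad d)) 1 ≤ 1 := min_le_right _ _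
  unfold eps
  linarith

theorem good_eps (hd : 0 < d) (Ω : Forms) (a : Coef d) (hp : PosOn (form d a) Ω.val) :
    Good d (form d a) (restr Ω) (eps d Ω a) := by
  have h0 := eps_pos hd Ω a hp
  by_contra h
  have h1 : ((restr Ω, (eps d Ω a, a)) : M × Par d) ∈ Bad d := ⟨h0, h⟩
  have h2 := Metric.infDist_le_dist_of_mem (x := ((restr Ω, (0, a)) : M × Par d)) h1
  have h3 : dist ((restr Ω, (0, a)) : M × Par d) (restr Ω, (eps d Ω a, a)) = eps d Ω a := by
    rw [Prod.dist_eq, dist_self, Prod.dist_eq, dist_self, Real.dist_eq, zero_sub, abs_neg,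
      abs_of_pos h0, max_eq_left h0.le, max_eq_right h0.le]
  rw [h3] at h2
  have h4 : min (Metric.infDist (restr Ω, ((0 : ℝ), a)) (Bad d)) 1 ≤
      Metric.infDist (restr Ω, ((0 : ℝ), a)) (Bad d) := min_le_left _ _
  have h5 : eps d Ω a = min (Metric.infDist (restr Ω, ((0 : ℝ), a)) (Bad d)) 1 / 2 := rfl
  linarith

end Pool.Agent.K6.H10.SY
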