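import Pool.Agent.K6.H10.SY.Conv

/-!
# The main results
-/

set_option autoImplicit false

open scoped ContDiff Topology ComplexConjugate unitInterval

noncomputable section

namespace Pool.Agent.K6.H10.SY

open MvPolynomial (eval)

variable {d : ℕ}

/-- the segment from a form to `tau` consists of nondegenerate forms for good `ε` -/
theorem nondeg_segment' (hd : 0 < d) {a : Coef d} {Ω : Forms} (hn : Nondeg Ω.val)
    (hp : PosOn (form d a) Ω.val) {ε : ℝ} (h0 : 0 < ε) (hg : Good d (form d a) (restr Ω) ε)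
    {t : ℝ} (ht : 0 ≤ t) (ht' : t ≤ 1) :
    Nondeg ((1 - t) • Ω.val + t • tau d (form d a) ε) := by
  have hs := sec_form a
  refine nondeg_of_pf (Ω.property.comb (isForm_tau hs hd h0) _ _) fun l z hl hz1 => ?_
  refine ne_of_gt ?_
  have hz0 := ne_zero_of hl
  have h1 : 0 < pol (Ω.val z) (ee l) (ff l) _ _ _ := hg l ⟨z, mem_KK hl hz1⟩ hl
  have h2 := mul_pos (kpos (s := form d a) hd h0 hz0) h1
  rw [← pol_scale] at h2
  exact pf_comb_pos (herm_tau hs h0 hz0 (ee l) (ff l)) (pf_pos_of hd Ω.property hn hp l z hl)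
    (pf_tau hs hd h0 hl) h2 ht ht'

theorem exists_good (hd : 0 < d) (a : Coef d) (Ω : Forms) (hp : PosOn (form d a) Ω.val) :
    ∃ ε₀ : ℝ, 0 < ε₀ ∧ ∀ ε, 0 < ε → ε < ε₀ → Good d (form d a) (restr Ω) ε := by
  have h1 := eventually_good hd Ω a hp
  have h2 : Filter.Tendsto (fun ε : ℝ => ((restr Ω, (ε, a)) : M × Par d)) (𝓝 0)
      (𝓝 (restr Ω, (0, a))) := by
    have h3 : Continuous fun ε : ℝ => ((restr Ω, (ε, a)) : M × Par d) := by fun_prop
    exact h3.tendsto 0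
  have h3 := h2.eventually h1
  obtain ⟨ε₀, h0, h4⟩ := Metric.eventually_nhds_iff.1 h3
  refine ⟨ε₀, h0, fun ε h5 h6 => h4 ?_ h5⟩
  rw [Real.dist_eq, sub_zero, abs_of_pos h5]
  exact h6

/-- the pencil theorem -/
theorem pencil (hd : 0 < d) (a : Coef d) (Ω : Forms) (hn : Nondeg Ω.val)
    (hp : PosOn (form d a) Ω.val) : ∃ ε₀ : ℝ, 0 < ε₀ ∧ ∀ ε, 0 < ε → ε < ε₀ →
      ∀ t : ℝ, 0 ≤ t → t ≤ 1 → Nondeg ((1 - t) • Ω.val + t • tau d (form d a) ε) := by
  obtain ⟨ε₀, h0, h1⟩ := exists_good hd a Ω hp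
  exact ⟨ε₀, h0, fun ε h2 h3 t ht ht' => nondeg_segment' hd hn hp h2 (h1 ε h2 h3) ht ht'⟩

theorem pencil_sees (hd : 0 < d) (a : Coef d) (Ω : Forms) (hn : Nondeg Ω.val)
    (hp : PosOn (form d a) Ω.val) : ∃ τ : Forms, Kah τ.val ∧ Sees Ω τ := by
  obtain ⟨ε₀, h0, h1⟩ := pencil hd a Ω hn hp
  have h2 : 0 < ε₀ / 2 := by linarith
  exact ⟨⟨tau d (form d a) (ε₀ / 2), isForm_tau (sec_form a) hd h2⟩, kah_tau hd a h2,
    h1 _ h2 (by linarith)⟩

/-- two successive combinations with the same form -/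
theorem comb_comb (Ω τ : Forms) (s t : ℝ) :
    comb (1 - s) s (comb (1 - t) t Ω τ) τ =
      comb (1 - (1 - (1 - s) * (1 - t))) (1 - (1 - s) * (1 - t)) Ω τ := by
  unfold comb
  congr 1
  funext z
  ext v w
  show (1 - s) * ((1 - t) * Ω.val z v w + t * τ.val z v w) + s * τ.val z v w =
    (1 - (1 - (1 - s) * (1 - t))) * Ω.val z v w + (1 - (1 - s) * (1 - t)) * τ.val z v w
  ring

theorem Sees.comb {Ω τ : Forms} (h : Sees Ω τ) {t : ℝ} (ht : 0 ≤ t) (ht' : t ≤ 1) :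
    Sees (SY.comb (1 - t) t Ω τ) τ := by
  intro s hs hs'
  have h1 := h (1 - (1 - s) * (1 - t)) (by nlinarith) (by nlinarith)
  have h2 := congrArg Forms.val (comb_comb Ω τ s t)
  have h3 : (1 - s) • (SY.comb (1 - t) t Ω τ).val + s • τ.val =
      (1 - (1 - (1 - s) * (1 - t))) • Ω.val + (1 - (1 - s) * (1 - t)) • τ.val := h2
  rw [h3]
  exact h1

/-- positivity on a set of complex directions -/
def PosDir (D : Set (V × V)) (Ω : Forms) : Prop :=
  ∀ q ∈ D, q.1 ≠ 0 → (¬ ∃ c : ℂ, q.2 = c • q.1) → 0 < Ω.val q.1 q.2 (Complex.I • q.2)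

/-- the directions of a pencil -/
def pencilDir (P : Fin 2 → R3) : Set (V × V) := {q | wr (fun j z => eval z (P j)) q.1 q.2 = 0}

/-- the directions of the lines through `p` -/
def lineDir (p : V) : Set (V × V) := {q | ∃ x y : ℂ, p = x • q.1 + y • q.2}

theorem PosDir.posOn {D : Set (V × V)} {Ω : Forms} (h : PosDir D Ω) {a : Coef d}
    (hD : ∀ z v, wr (form d a) z v = 0 → (z, v) ∈ D) : PosOn (form d a) Ω.val :=
  fun z hz v hv hw => h (z, v) (hD z v hw) hz hv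

theorem Kah.posDir {τ : Forms} (h : Kah τ.val) (D : Set (V × V)) : PosDir D τ :=
  fun q _ hz hv => h.pos q.1 hz q.2 hv

theorem PosDir.comb {D : Set (V × V)} {Ω₁ Ω₂ : Forms} (h₁ : PosDir D Ω₁) (h₂ : PosDir D Ω₂)
    {t : ℝ} (ht : 0 ≤ t) (ht' : t ≤ 1) : PosDir D (SY.comb (1 - t) t Ω₁ Ω₂) := by
  intro q hq hz hv
  have e1 := h₁ q hq hz hv
  have e2 := h₂ q hq hz hv
  show 0 < (1 - t) * Ω₁.val q.1 q.2 (Complex.I • q.2) + t * Ω₂.val q.1 q.2 (Complex.I • q.2)
  rcases ht.lt_or_eq with h | h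
  · have := mul_pos h e2
    have := mul_nonneg (sub_nonneg.2 ht') e1.le
    linarith
  · rw [← h]
    linarith

/-- the pencil of the lines through `p` -/
theorem exists_line_pencil {p : V} (hp : p ≠ 0) :
    ∃ P : Fin 2 → R3, (∀ j, (P j).IsHomogeneous 1) ∧ ∀ z v, z ≠ 0 → (¬ ∃ c : ℂ, v = c • z) →
      (z, v) ∈ pencilDir P → (z, v) ∈ lineDir p := by
  obtain ⟨l, hl⟩ := Function.ne_iff.1 hp
  refine ⟨linP p l, linP_hom p l, fun z v hz hv hw => line_dir hl hz hv ?_⟩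
  have h1 : ∀ j, (fun z => eval z (linP p l j)) = fun z => linL p l j z := by
    intro j
    funext z
    exact linP_eval p l j z
  have h2 : ∀ j v, fderiv ℂ (fun z => eval z (linP p l j)) z v = linL p l j v := by
    intro j v
    rw [h1]
    have h3 : HasFDerivAt (fun z => linL p l j z) (LinearMap.toContinuousLinearMap (linL p l j))
        z := (LinearMap.toContinuousLinearMap (linL p l j)).hasFDerivAt
    rw [h3.fderiv]
    rfl
  have h3 : wr (fun j z => eval z (linP p l j)) z v = 0 := hw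
  rw [wr, h2, h2] at h3
  rw [← linP_eval p l 0 z, ← linP_eval p l 1 z]
  exact h3

end Pool.Agent.K6.H10.SY
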