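import Pool.Agent.K6.H10.SY.Vis

/-!
# The general contractibility theorem
-/

set_option autoImplicit false

open scoped ContDiff Topology ComplexConjugate unitInterval

noncomputable section

namespace Pool.Agent.K6.H10.SY

variable {d : ℕ}

/-- finite convex combinations -/
theorem conv_sum {E : Type} [AddCommMonoid E] [Module ℝ E] {P : E → Prop}
    (h : ∀ x y (a b : ℝ), P x → P y → 0 ≤ a → 0 ≤ b → a + b = 1 → P (a • x + b • y))
    {ι : Type} (z : ι → E) (t : Finset ι) : ∀ w : ι → ℝ, (∀ i, 0 ≤ w i) →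
      ∑ i ∈ t, w i = 1 → (∀ i ∈ t, w i ≠ 0 → P (z i)) → P (∑ i ∈ t, w i • z i) := by
  classical
  induction t using Finset.induction_on with
  | empty =>
    intro w _ h1
    simp at h1
  | insert i t hi ih =>
    intro w hw h1 hz
    rw [Finset.sum_insert hi] at h1 ⊢
    by_cases h0 : ∑ j ∈ t, w j = 0
    · have hz0 : ∀ j ∈ t, w j = 0 := (Finset.sum_eq_zero_iff_of_nonneg fun j _ => hw j).1 h0
      have hwi : w i = 1 := by linarith
      have h2 : ∑ j ∈ t, w j • z j = 0 :=
        Finset.sum_eq_zero fun j hj => by rw [hz0 j hj, zero_smul]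
      rw [h2, add_zero, hwi, one_smul]
      exact hz i (Finset.mem_insert_self _ _) (by rw [hwi]; exact one_ne_zero)
    · have hpos : 0 < ∑ j ∈ t, w j :=
        lt_of_le_of_ne (Finset.sum_nonneg fun j _ => hw j) (Ne.symm h0)
      set S := ∑ j ∈ t, w j with hS
      have h3 : P (∑ j ∈ t, (w j / S) • z j) := by
        refine ih (fun j => w j / S) (fun j => div_nonneg (hw j) hpos.le) ?_ fun j hj hne => ?_
        · rw [← Finset.sum_div, ← hS, div_self h0]
        · refine hz j (Finset.mem_insert_of_mem hj) fun hc => hne ?_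
          simp only [hc, zero_div]
      have h4 : ∑ j ∈ t, w j • z j = S • ∑ j ∈ t, (w j / S) • z j := by
        rw [Finset.smul_sum]
        refine Finset.sum_congr rfl fun j _ => ?_
        rw [smul_smul, mul_div_cancel₀ _ h0]
      rw [h4]
      by_cases hwi : w i = 0
      · have hS1 : S = 1 := by linarith
        rw [hwi, zero_smul, zero_add, hS1, one_smul]
        rw [hS1] at h3
        exact h3
      · exact h _ _ _ _ (hz i (Finset.mem_insert_self _ _) hwi) h3 (hw i) hpos.le h1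

/-- the point of the index type as a point of the submodule -/
def Idx.fs {C : Set (V → Bil)} (i : Idx C) : FS := ⟨i.1.val, i.1.property⟩

/-- the open set of the metric space -/
def NN (C : Set (V → Bil)) : Set M6 := ⋃ i : Idx C, OS i.1

theorem exists_partition (C : Set (V → Bil)) :
    ∃ f : PartitionOfUnity (Idx C) (NN C) Set.univ,
      f.IsSubordinate fun i => {η : NN C | (η : M6) ∈ OS i.1} := by
  refine PartitionOfUnity.exists_isSubordinate isClosed_univ _ (fun i => ?_) ?_
  · exact (isOpen_OS i.1).preimage continuous_subtype_val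
  · intro η _
    obtain ⟨i, hi⟩ := Set.mem_iUnion.1 η.2
    exact Set.mem_iUnion.2 ⟨i, hi⟩

/-- the average of the Kaehler forms -/
def avg {C : Set (V → Bil)} (f : PartitionOfUnity (Idx C) (NN C) Set.univ) (η : NN C) : FS :=
  ∑ᶠ i, f i η • Idx.fs i

theorem fin_supp {C : Set (V → Bil)} (f : PartitionOfUnity (Idx C) (NN C) Set.univ) (η : NN C) :
    (Function.support fun i => f i η • Idx.fs i).Finite := by
  refine (f.locallyFinite.point_finite η).subset fun i hi => ?_
  intro h
  apply hi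
  show f i η • Idx.fs i = 0
  have h1 : f i η = 0 := h
  rw [h1, zero_smul]

theorem jet_avg {C : Set (V → Bil)} (f : PartitionOfUnity (Idx C) (NN C) Set.univ) (η : NN C)
    (v w : V) (j : ℕ) : jet v w j (toForms (avg f η)) =
      ∑ᶠ i : Idx C, f i η • jetL v w j (Idx.fs i) := by
  have h := ((jetL v w j).toAddMonoidHom).map_finsum (fin_supp f η)
  refine h.trans (finsum_congr fun i => ?_)
  exact (jetL v w j).map_smul _ _

theorem continuous_avg {C : Set (V → Bil)} (f : PartitionOfUnity (Idx C) (NN C) Set.univ) :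
    Continuous fun η : NN C => toForms (avg f η) := by
  refine continuous_forms fun v w j => ?_
  simp only [jet_avg]
  exact f.continuous_finsum_smul (g := fun i _ => jetL v w j (Idx.fs i))
    fun i x _ => continuousAt_const

theorem avg_mem {C : Set (V → Bil)} (hC : Convex ℝ C)
    {f : PartitionOfUnity (Idx C) (NN C) Set.univ}
    (hf : f.IsSubordinate fun i => {η : NN C | (η : M6) ∈ OS i.1}) (Ω : Forms) (η : NN C)
    (hη : (η : M6) = res Ω) : (avg f η).1 ∈ KS Ω C := by
  have h0 : avg f η = ∑ i ∈ f.finsupport η, f i η • Idx.fs i :=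
    (f.sum_finsupport_smul_eq_finsum (x₀ := η) (fun i _ => Idx.fs i)).symm
  rw [h0]
  refine conv_sum (P := fun a : FS => a.1 ∈ KS Ω C)
    (fun x y a b hx hy ha hb hab => convex_KS Ω hC hx hy ha hb hab) (fun i : Idx C => Idx.fs i)
    (f.finsupport η) (fun i => f i η) (fun i => f.nonneg i η)
    (f.sum_finsupport (Set.mem_univ η)) fun i _ hi => ?_
  have h1 : η ∈ tsupport (f i) := subset_closure hi
  have h2 : (η : M6) ∈ OS i.1 := hf i h1
  rw [hη, mem_OS] at h2
  exact ⟨i.2.1, i.2.2, h2⟩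

theorem kah_sees {τ₁ τ₂ : Forms} (h₁ : Kah τ₁.val) (h₂ : Kah τ₂.val) : Sees τ₁ τ₂ := by
  intro t ht ht'
  have h := h₁.comb h₂ (a := 1 - t) (b := t) (by linarith) ht (by ring)
  exact nondeg_of_pf h.isForm fun l z hz _ => (pf_of_tame (h.tame hz)).ne'

/-- The general theorem: a set of forms each of which sees a Kaehler form in the convex set `C`,
and which contains the segments to the Kaehler forms in `C` which are seen, is contractible. -/
theorem gen {C : Set (V → Bil)} (hC : Convex ℝ C) (U : Set Forms) (hne : U.Nonempty)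
    (hU : ∀ Ω ∈ U, ∃ τ : Forms, Kah τ.val ∧ τ.val ∈ C ∧ Sees Ω τ)
    (hst : ∀ Ω ∈ U, ∀ τ : Forms, Kah τ.val → τ.val ∈ C → Sees Ω τ → ∀ t : ℝ, 0 ≤ t → t ≤ 1 →
      comb (1 - t) t Ω τ ∈ U) : ContractibleSpace U := by
  rw [contractible_iff_id_nullhomotopic]
  obtain ⟨f, hf⟩ := exists_partition C
  have hres : ∀ Ω : U, res Ω.1 ∈ NN C := by
    intro Ω
    obtain ⟨τ, h1, h2, h3⟩ := hU Ω.1 Ω.2
    exact Set.mem_iUnion.2 ⟨⟨τ, h1, h2⟩, mem_OS.2 fun l z hz _ => h3.seg h1 hz⟩
  let ρ : U → NN C := fun Ω => ⟨res Ω.1, hres Ω⟩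
  have hρ : Continuous ρ := (continuous_res.comp continuous_subtype_val).subtype_mk _
  let T : U → Forms := fun Ω => toForms (avg f (ρ Ω))
  have hT : Continuous T := (continuous_avg f).comp hρ
  have hmem : ∀ Ω : U, (T Ω).val ∈ KS Ω.1 C := fun Ω => avg_mem hC hf Ω.1 (ρ Ω) rfl
  have hsee : ∀ Ω : U, Sees Ω.1 (T Ω) := fun Ω => sees_of_seg (hmem Ω).2.2
  have hTU : ∀ Ω : U, T Ω ∈ U := by
    intro Ω
    have h := hst Ω.1 Ω.2 (T Ω) (hmem Ω).1 (hmem Ω).2.1 (hsee Ω) 1 zero_le_one le_rfl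
    rwa [comb_right (by ring) rfl] at h
  obtain ⟨Ω₀, hΩ₀⟩ := hne
  obtain ⟨τ₀, k₀, c₀, s₀⟩ := hU Ω₀ hΩ₀
  have hτ₀ : τ₀ ∈ U := by
    have h := hst Ω₀ hΩ₀ τ₀ k₀ c₀ s₀ 1 zero_le_one le_rfl
    rwa [comb_right (by ring) rfl] at h
  have hm1 : ∀ p : I × U, comb (1 - p.1) p.1 p.2.1 (T p.2) ∈ U := fun p =>
    hst p.2.1 p.2.2 (T p.2) (hmem p.2).1 (hmem p.2).2.1 (hsee p.2) p.1 p.1.2.1 p.1.2.2
  have hm2 : ∀ p : I × U, comb (1 - p.1) p.1 (T p.2) τ₀ ∈ U := fun p =>
    hst (T p.2) (hTU p.2) τ₀ k₀ c₀ (kah_sees (hmem p.2).1 k₀) p.1 p.1.2.1 p.1.2.2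
  have hp : Continuous fun p : I × U => (p.1 : ℝ) := continuous_subtype_val.comp continuous_fst
  have hc1 : Continuous fun p : I × U => comb (1 - p.1) p.1 p.2.1 (T p.2) :=
    continuous_comb (continuous_const.sub hp) hp (continuous_subtype_val.comp continuous_snd)
      (hT.comp continuous_snd)
  have hc2 : Continuous fun p : I × U => comb (1 - p.1) p.1 (T p.2) τ₀ :=
    continuous_comb (continuous_const.sub hp) hp (hT.comp continuous_snd) continuous_const
  let F : C(U, U) := ⟨fun Ω => ⟨T Ω, hTU Ω⟩, hT.subtype_mk _⟩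
  let H1 : ContinuousMap.Homotopy (ContinuousMap.id U) F :=
    { toFun := fun p => ⟨comb (1 - p.1) p.1 p.2.1 (T p.2), hm1 p⟩
      continuous_toFun := hc1.subtype_mk _
      map_zero_left := fun Ω => Subtype.ext (comb_left (by simp) (by simp) _ _)
      map_one_left := fun Ω => Subtype.ext (comb_right (by simp) (by simp) _ _) }
  let H2 : ContinuousMap.Homotopy F (ContinuousMap.const _ ⟨τ₀, hτ₀⟩) :=
    { toFun := fun p => ⟨comb (1 - p.1) p.1 (T p.2) τ₀, hm2 p⟩
      continuous_toFun := hc2.subtype_mk _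
      map_zero_left := fun Ω => Subtype.ext (comb_left (by simp) (by simp) _ _)
      map_one_left := fun Ω => Subtype.ext (comb_right (by simp) (by simp) _ _) }
  exact ⟨_, ⟨H1.trans H2⟩⟩

end Pool.Agent.K6.H10.SY
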