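import Pool.Agent.K6.H10.SY.Main

/-!
# Kaehler forms and the forms which are joined to them by a segment
-/

set_option autoImplicit false

open scoped ContDiff Topology ComplexConjugate unitInterval

noncomputable section

namespace Pool.Agent.K6.H10.SY

variable {d : ℕ}

/-- Kaehler forms in the class of the Fubini-Study form -/
structure Kah (τ : V → Bil) : Prop where
  isForm : IsForm τ
  cls : InClass τ
  type11 : ∀ z v w, τ z (Complex.I • v) (Complex.I • w) = τ z v w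
  pos : ∀ z : V, z ≠ 0 → ∀ v, (¬ ∃ c : ℂ, v = c • z) → 0 < τ z v (Complex.I • v)

theorem kah_tau (hd : 0 < d) (a : Coef d) {ε : ℝ} (hε : 0 < ε) : Kah (tau d (form d a) ε) where
  isForm := isForm_tau (sec_form a) hd hε
  cls := inClass_tau (sec_form a) hd hε
  type11 z v w := by
    by_cases hz : z = 0
    · rw [tau, if_pos hz]
      rfl
    · rw [tau_apply (sec_form a) hε hz, tau_apply (sec_form a) hε hz, herm_smul, herm_smul_left]
      congr 2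
      rw [← mul_assoc, Complex.conj_I]
      rw [mul_neg, Complex.I_mul_I, neg_neg, one_mul]
  pos _ hz _ hv := tau_pos (sec_form a) hd hε hz hv

theorem II (v : V) : Complex.I • (Complex.I • v) = -v := by
  rw [smul_smul, Complex.I_mul_I, neg_smul, one_smul]

theorem Kah.herm {τ : V → Bil} (h : Kah τ) (z e f : V) :
    Herm (τ z) e f (τ z e (Complex.I • e)) (τ z f (Complex.I • f))
      ⟨τ z e (Complex.I • f), τ z e f⟩ := by
  refine ⟨rfl, rfl, rfl, h.type11 z e f, rfl, ?_⟩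
  have h1 := h.type11 z e (Complex.I • f)
  rw [II, map_neg] at h1
  show τ z (Complex.I • e) f = -τ z e (Complex.I • f)
  linarith

theorem Kah.tame {τ : V → Bil} (h : Kah τ) {l : Fin 3} {z : V} (hz : z l = 1) :
    Tame (τ z) (ee l) (ff l) :=
  tame_of_pos (h.isForm.alt z) _ _ fun _ _ hxy => h.pos z (ne_zero_of hz) _ (frame_indep hz hxy)

theorem Kah.comb {τ₁ τ₂ : V → Bil} (h₁ : Kah τ₁) (h₂ : Kah τ₂) {a b : ℝ}
    (ha : 0 ≤ a) (hb : 0 ≤ b) (hab : a + b = 1) : Kah (a • τ₁ + b • τ₂) where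
  isForm := h₁.isForm.comb h₂.isForm a b
  cls := h₁.cls.comb h₂.cls hab
  type11 z v w := by
    show a * τ₁ z (Complex.I • v) (Complex.I • w) + b * τ₂ z (Complex.I • v) (Complex.I • w) =
      a * τ₁ z v w + b * τ₂ z v w
    rw [h₁.type11, h₂.type11]
  pos z hz v hv := by
    have e1 := h₁.pos z hz v hv
    have e2 := h₂.pos z hz v hv
    show 0 < a * τ₁ z v (Complex.I • v) + b * τ₂ z v (Complex.I • v)
    rcases ha.lt_or_eq with h | h
    · have := mul_pos h e1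
      have := mul_nonneg hb e2.le
      linarith
    · have hb1 : b = 1 := by linarith
      rw [← h, hb1]
      linarith

/-- the numerical criterion: the segment condition gives a lower bound of the polarised form -/
theorem pol_lower {r r₁ p : ℝ} (hr : 0 < r) (hr₁ : 0 < r₁)
    (h : ∀ t : ℝ, 0 ≤ t → t ≤ 1 → 0 < (1 - t) ^ 2 * r ^ 2 + t * (1 - t) * p + t ^ 2 * r₁ ^ 2) :
    0 < p + 2 * (r * r₁) := by
  have hs : 0 < r + r₁ := by positivity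
  have h1 := h (r / (r + r₁)) (by positivity) (by rw [div_le_one hs]; linarith)
  have h2 : 1 - r / (r + r₁) = r₁ / (r + r₁) := by
    field_simp
    ring
  rw [h2] at h1
  have h3 : (r₁ / (r + r₁)) ^ 2 * r ^ 2 + r / (r + r₁) * (r₁ / (r + r₁)) * p +
      (r / (r + r₁)) ^ 2 * r₁ ^ 2 = (r * r₁ / (r + r₁) ^ 2) * (p + 2 * (r * r₁)) := by
    field_simp
    ring
  rw [h3] at h1
  exact (mul_pos_iff_of_pos_left (by positivity)).1 h1

/-- the reverse Cauchy-Schwarz inequality for positive hermitian forms -/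
theorem reverse_cs {a₁ b₁ x₁ y₁ r₁ a₂ b₂ x₂ y₂ r₂ : ℝ} (ha₁ : 0 < a₁) (hb₁ : 0 < b₁)
    (ha₂ : 0 < a₂) (hb₂ : 0 < b₂) (h₁ : x₁ ^ 2 + y₁ ^ 2 + r₁ ^ 2 = a₁ * b₁)
    (h₂ : x₂ ^ 2 + y₂ ^ 2 + r₂ ^ 2 = a₂ * b₂) :
    2 * (r₁ * r₂) ≤ a₁ * b₂ + a₂ * b₁ - 2 * (x₁ * x₂ + y₁ * y₂) := by
  have key : (x₁ * x₂ + y₁ * y₂ + r₁ * r₂) ^ 2 ≤ ((a₁ * b₂ + a₂ * b₁) / 2) ^ 2 := by
    have k1 : (x₁ * x₂ + y₁ * y₂ + r₁ * r₂) ^ 2 ≤
        (x₁ ^ 2 + y₁ ^ 2 + r₁ ^ 2) * (x₂ ^ 2 + y₂ ^ 2 + r₂ ^ 2) := by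
      nlinarith [sq_nonneg (x₁ * y₂ - x₂ * y₁), sq_nonneg (x₁ * r₂ - x₂ * r₁),
        sq_nonneg (y₁ * r₂ - y₂ * r₁)]
    rw [h₁, h₂] at k1
    nlinarith [sq_nonneg (a₁ * b₂ - a₂ * b₁)]
  have h3 := abs_le_of_sq_le_sq key (by positivity)
  have := (abs_le.1 h3).2
  linarith

/-- the pointwise convexity -/
theorem convex_num {r r₁ r₂ p₁ p₂ q l m t : ℝ} (hr : 0 < r) (hr₁ : 0 < r₁) (hr₂ : 0 < r₂)
    (h₁ : 0 < p₁ + 2 * (r * r₁)) (h₂ : 0 < p₂ + 2 * (r * r₂)) (hq : 2 * (r₁ * r₂) ≤ q)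
    (hl : 0 ≤ l) (hm : 0 ≤ m) (hlm : l + m = 1) (ht : 0 ≤ t) (ht' : t ≤ 1) :
    0 < (1 - t) ^ 2 * r ^ 2 + t * (1 - t) * (l * p₁ + m * p₂) +
      t ^ 2 * (l ^ 2 * r₁ ^ 2 + m ^ 2 * r₂ ^ 2 + l * m * q) := by
  have hid : (1 - t) ^ 2 * r ^ 2 + t * (1 - t) * (l * p₁ + m * p₂) +
      t ^ 2 * (l ^ 2 * r₁ ^ 2 + m ^ 2 * r₂ ^ 2 + l * m * q) =
      ((1 - t) * r - t * (l * r₁ + m * r₂)) ^ 2 +
      t * (1 - t) * (l * (p₁ + 2 * (r * r₁)) + m * (p₂ + 2 * (r * r₂))) +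
      t ^ 2 * (l * m * (q - 2 * (r₁ * r₂))) := by ring
  rw [hid]
  have ht1 : 0 ≤ 1 - t := by linarith
  have e3 : 0 ≤ t ^ 2 * (l * m * (q - 2 * (r₁ * r₂))) := by
    have : 0 ≤ q - 2 * (r₁ * r₂) := by linarith
    positivity
  have hpos : 0 < l * (p₁ + 2 * (r * r₁)) + m * (p₂ + 2 * (r * r₂)) := by
    rcases hl.lt_or_eq with h | h
    · have := mul_pos h h₁
      have := mul_nonneg hm h₂.le
      linarith
    · have hm1 : m = 1 := by linarith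
      rw [← h, hm1]
      linarith
  rcases ht.lt_or_eq with h | h
  · rcases ht'.lt_or_eq with h' | h'
    · have h1t : 0 < 1 - t := by linarith
      have := mul_pos (mul_pos h h1t) hpos
      have := sq_nonneg ((1 - t) * r - t * (l * r₁ + m * r₂))
      linarith
    · subst h'
      have e1 : 0 < l * r₁ + m * r₂ := by
        rcases hl.lt_or_eq with h | h
        · have := mul_pos h hr₁
          have := mul_nonneg hm hr₂.le
          linarith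
        · have hm1 : m = 1 := by linarith
          rw [← h, hm1]
          linarith
      have e2 : 0 < (l * r₁ + m * r₂) ^ 2 := by positivity
      nlinarith
  · subst h
    have : 0 < r ^ 2 := by positivity
    nlinarith

theorem pol_comb (B : Bil) (e f : V) (l m a₁ b₁ a₂ b₂ : ℝ) (c₁ c₂ : ℂ) :
    pol B e f (l * a₁ + m * a₂) (l * b₁ + m * b₂) (l * c₁ + m * c₂) =
      l * pol B e f a₁ b₁ c₁ + m * pol B e f a₂ b₂ c₂ := by
  simp only [pol, Complex.add_re, Complex.add_im, Complex.re_ofReal_mul, Complex.im_ofReal_mul]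
  ring

/-- the segments from `B` to `T` have positive Pfaffian -/
def Seg (B T : Bil) (e f : V) : Prop :=
  ∀ t : ℝ, 0 ≤ t → t ≤ 1 → 0 < pf ((1 - t) • B + t • T) e f

theorem comb0 (B T : Bil) : (1 - (0 : ℝ)) • B + (0 : ℝ) • T = B := by
  ext v w
  show (1 - 0) * B v w + 0 * T v w = B v w
  ring

theorem comb1 (B T : Bil) : (1 - (1 : ℝ)) • B + (1 : ℝ) • T = T := by
  ext v w
  show (1 - 1) * B v w + 1 * T v w = T v w
  ring

theorem seg_convex {B T₁ T₂ : Bil} {e f : V} {a₁ b₁ a₂ b₂ : ℝ} {c₁ c₂ : ℂ}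
    (h₁ : Herm T₁ e f a₁ b₁ c₁) (h₂ : Herm T₂ e f a₂ b₂ c₂) (t₁ : Tame T₁ e f) (t₂ : Tame T₂ e f)
    (s₁ : Seg B T₁ e f) (s₂ : Seg B T₂ e f) {l m : ℝ} (hl : 0 ≤ l) (hm : 0 ≤ m)
    (hlm : l + m = 1) : Seg B (l • T₁ + m • T₂) e f := by
  have hB : 0 < pf B e f := by
    have := s₁ 0 le_rfl zero_le_one
    rwa [comb0] at this
  have q₁ := pf_of_tame t₁
  have q₂ := pf_of_tame t₂
  have g₁ : pf T₁ e f = a₁ * b₁ - (c₁.re ^ 2 + c₁.im ^ 2) := by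
    obtain ⟨k1, k2, k3, k4, k5, k6⟩ := h₁
    rw [pf, k1, k2, k3, k4, k5, k6]
    ring
  have g₂ : pf T₂ e f = a₂ * b₂ - (c₂.re ^ 2 + c₂.im ^ 2) := by
    obtain ⟨k1, k2, k3, k4, k5, k6⟩ := h₂
    rw [pf, k1, k2, k3, k4, k5, k6]
    ring
  have ha₁ : 0 < a₁ := by rw [← h₁.1]; exact t₁.1
  have hb₁ : 0 < b₁ := by rw [← h₁.2.1]; exact t₁.2.1
  have ha₂ : 0 < a₂ := by rw [← h₂.1]; exact t₂.1
  have hb₂ : 0 < b₂ := by rw [← h₂.2.1]; exact t₂.2.1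
  have r0 := Real.sqrt_pos.2 hB
  have r1 := Real.sqrt_pos.2 q₁
  have r2 := Real.sqrt_pos.2 q₂
  have s0 := Real.sq_sqrt hB.le
  have s1 := Real.sq_sqrt q₁.le
  have s2 := Real.sq_sqrt q₂.le
  set r := √(pf B e f)
  set r₁ := √(pf T₁ e f)
  set r₂ := √(pf T₂ e f)
  have l₁ : 0 < pol B e f a₁ b₁ c₁ + 2 * (r * r₁) := by
    refine pol_lower r0 r1 fun t ht ht' => ?_
    have := s₁ t ht ht'
    rw [pf_comb h₁] at this
    rw [s0, s1]
    exact this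
  have l₂ : 0 < pol B e f a₂ b₂ c₂ + 2 * (r * r₂) := by
    refine pol_lower r0 r2 fun t ht ht' => ?_
    have := s₂ t ht ht'
    rw [pf_comb h₂] at this
    rw [s0, s2]
    exact this
  have hq := reverse_cs (x₁ := c₁.re) (y₁ := c₁.im) (r₁ := r₁) (x₂ := c₂.re) (y₂ := c₂.im)
    (r₂ := r₂) ha₁ hb₁ ha₂ hb₂ (by rw [s1, g₁]; ring) (by rw [s2, g₂]; ring)
  have h₃ : Herm (l • T₁ + m • T₂) e f (l * a₁ + m * a₂) (l * b₁ + m * b₂)
      (l * c₁ + m * c₂) := by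
    obtain ⟨k1, k2, k3, k4, k5, k6⟩ := h₁
    obtain ⟨m1, m2, m3, m4, m5, m6⟩ := h₂
    refine ⟨?_, ?_, ?_, ?_, ?_, ?_⟩ <;>
      simp only [add_apply, smul_apply, smul_eq_mul, k1, k2, k3, k4, k5, k6, m1, m2, m3, m4, m5,
        m6, Complex.add_re, Complex.add_im, Complex.re_ofReal_mul, Complex.im_ofReal_mul] <;>
      ring
  have g₃ : pf (l • T₁ + m • T₂) e f = l ^ 2 * r₁ ^ 2 + m ^ 2 * r₂ ^ 2 +
      l * m * (a₁ * b₂ + a₂ * b₁ - 2 * (c₁.re * c₂.re + c₁.im * c₂.im)) := by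
    rw [s1, s2, g₁, g₂]
    obtain ⟨k1, k2, k3, k4, k5, k6⟩ := h₃
    rw [pf, k1, k2, k3, k4, k5, k6]
    simp only [Complex.add_re, Complex.add_im, Complex.re_ofReal_mul, Complex.im_ofReal_mul]
    ring
  intro t ht ht'
  rw [pf_comb h₃, pol_comb, g₃]
  have := convex_num r0 r1 r2 l₁ l₂ hq hl hm hlm ht ht'
  rw [s0] at this
  exact this

end Pool.Agent.K6.H10.SY
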