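import Pool.Agent.K6.H10.SY.Bez

/-!
# A continuous choice of the parameter
-/

set_option autoImplicit false

open scoped ContDiff Topology ComplexConjugate

noncomputable section

namespace Pool.Agent.K6.H10.SY

open Complex (I)

variable {d : ℕ} {s : Fin 2 → V → ℂ}

/-- the unit sphere of the supremum norm -/
abbrev KK : Set V := Metric.sphere (0 : V) 1

theorem KK_ne (z : KK) : (z : V) ≠ 0 := by
  intro h
  have h1 := z.2
  rw [mem_sphere_zero_iff_norm, h, norm_zero] at h1
  exact zero_ne_one h1

/-- the inclusion -/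
def incl : C(KK, V') := ⟨fun z => ⟨z, KK_ne z⟩, by fun_prop⟩

/-- the value of a zero-linear map -/
def ev0 : C(V [×0]→L[ℝ] ℝ, ℝ) :=
  ⟨continuousMultilinearCurryFin0 ℝ V ℝ, LinearIsometryEquiv.continuous _⟩

/-- a coefficient of a form as a function on the sphere -/
def coefC (v w : V) (Ω : Forms) : C(KK, ℝ) := ev0.comp ((jet v w 0 Ω).comp incl)

theorem coefC_apply (v w : V) (Ω : Forms) (z : KK) : coefC v w Ω z = Ω.val z v w := rfl

theorem continuous_coefC (v w : V) : Continuous (coefC v w) := by
  have h1 : Continuous fun Ω : Forms => (jet v w 0 Ω).comp incl :=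
    (ContinuousMap.continuous_precomp incl).comp (continuous_jet v w 0)
  exact (ContinuousMap.continuous_postcomp ev0).comp h1

/-- the space of the coefficients -/
abbrev M : Type := Fin 3 → Fin 4 → C(KK, ℝ)

/-- the coefficients of a form -/
def restr (Ω : Forms) : M := fun l =>
  ![coefC (ee l) (I • ee l) Ω, coefC (ff l) (I • ff l) Ω,
    coefC (ee l) (ff l) Ω + coefC (I • ee l) (I • ff l) Ω,
    coefC (ee l) (I • ff l) Ω - coefC (I • ee l) (ff l) Ω]

theorem continuous_restr : Continuous restr := by
  refine continuous_pi fun l => continuous_pi fun i => ?_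
  fin_cases i
  · exact continuous_coefC _ _
  · exact continuous_coefC _ _
  · exact (continuous_coefC _ _).add (continuous_coefC _ _)
  · exact (continuous_coefC _ _).sub (continuous_coefC _ _)

/-- the polarised Pfaffian in terms of the coefficients -/
def polN (η : Fin 4 → ℝ) (a b : ℝ) (c : ℂ) : ℝ := η 0 * b + a * η 1 - c.im * η 2 - c.re * η 3

/-- tame coefficients -/
def TameN (η : Fin 4 → ℝ) : Prop := 0 < η 0 ∧ 0 < η 1 ∧ η 2 ^ 2 + η 3 ^ 2 < 4 * (η 0 * η 1)

theorem polN_of_tame {η : Fin 4 → ℝ} (h : TameN η) {a b : ℝ} {c : ℂ} (ha : 0 ≤ a)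
    (hb : 0 ≤ b) (hab : 0 < a + b) (hc : c.re ^ 2 + c.im ^ 2 ≤ a * b) :
    0 < polN η a b c := by
  obtain ⟨h1, h2, h3⟩ := h
  unfold polN
  generalize η 0 = A at *
  generalize η 1 = D at *
  generalize η 2 = X at *
  generalize η 3 = Y at *
  have hpos : 0 < A * b + a * D := by
    rcases ha.lt_or_eq with h | h
    · have := mul_pos h h2
      have := mul_nonneg h1.le hb
      linarith
    · have hb' : 0 < b := by linarith
      have := mul_pos h1 hb'
      have := mul_nonneg ha h2.le
      linarith
  have key : (c.im * X + c.re * Y) ^ 2 < (A * b + a * D) ^ 2 := by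
    have k1 : (c.im * X + c.re * Y) ^ 2 ≤ (c.re ^ 2 + c.im ^ 2) * (X ^ 2 + Y ^ 2) := by
      nlinarith [sq_nonneg (c.im * Y - c.re * X)]
    have k2 : (c.re ^ 2 + c.im ^ 2) * (X ^ 2 + Y ^ 2) ≤ a * b * (X ^ 2 + Y ^ 2) :=
      mul_le_mul_of_nonneg_right hc (by positivity)
    rcases (mul_nonneg ha hb).lt_or_eq with h | h
    · have k3 : a * b * (X ^ 2 + Y ^ 2) < a * b * (4 * (A * D)) :=
        mul_lt_mul_of_pos_left h3 h
      nlinarith [sq_nonneg (A * b - a * D)]
    · rw [← h, zero_mul] at k2
      have : 0 < (A * b + a * D) ^ 2 := by positivity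
      linarith
  have := abs_lt_of_sq_lt_sq key hpos.le
  have := (abs_lt.1 this).2
  linarith

/-- the polarised Pfaffian of `η` and `tau` in the frame `l` -/
def pairN (d : ℕ) (s : Fin 2 → V → ℂ) (l : Fin 3) (η : M) (ε : ℝ) (z : KK) : ℝ :=
  polN (fun i => η l i z) (herm d s ε z (ee l) (ee l)).re (herm d s ε z (ff l) (ff l)).re
    (herm d s ε z (ee l) (ff l))

theorem pairN_restr (l : Fin 3) (Ω : Forms) (ε : ℝ) (z : KK) :
    pairN d s l (restr Ω) ε z = pol (Ω.val z) (ee l) (ff l) (herm d s ε z (ee l) (ee l)).re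
      (herm d s ε z (ff l) (ff l)).re (herm d s ε z (ee l) (ff l)) := rfl

theorem herm_cont (v w : V) :
    Continuous fun p : Par d × V => herm d (form d p.1.2) p.1.1 p.2 v w := by
  have h1 : Continuous fun p : Par d × V => Phi d (form d p.1.2) p.1.1 p.2 :=
    PhiP_smooth.continuous
  have h2 : Continuous fun p : Par d × V => nsq p.2 := nsq_smooth.continuous.comp continuous_snd
  have h6 : Continuous fun p : Par d × V => (p.1.2, p.2) :=
    (continuous_snd.comp continuous_fst).prodMk continuous_snd
  have h3 : ∀ j, Continuous fun p : Par d × V => form d p.1.2 j p.2 := fun j =>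
    (form_cont j).comp h6
  have h4 : ∀ j v, Continuous fun p : Par d × V => ds (form d p.1.2) j p.2 v := fun j v =>
    (ds_form_cont j v).comp h6
  have h5 : ∀ v, Continuous fun p : Par d × V => hp p.2 v := fun v => by
    unfold hp
    fun_prop
  have h7 : Continuous fun p : Par d × V => p.1.1 := continuous_fst.comp continuous_fst
  unfold herm qq hh
  fun_prop

theorem pairN_cont (l : Fin 3) :
    Continuous fun q : (M × Par d) × KK => pairN d (form d q.1.2.2) l q.1.1 q.1.2.1 q.2 := by
  have h1 : ∀ v w, Continuous fun q : (M × Par d) × KK =>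
      herm d (form d q.1.2.2) q.1.2.1 q.2 v w := by
    intro v w
    exact (herm_cont v w).comp (f := fun q : (M × Par d) × KK => (q.1.2, (q.2 : V)))
      ((continuous_snd.comp continuous_fst).prodMk (continuous_subtype_val.comp continuous_snd))
  have h2 : ∀ i, Continuous fun q : (M × Par d) × KK => q.1.1 l i q.2 := by
    intro i
    have h4 : Continuous fun η : M => η l i := continuous_apply_apply l i
    have h3 : Continuous fun q : (M × Par d) × KK => q.1.1 l i :=
      h4.comp (continuous_fst.comp continuous_fst)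
    exact h3.eval continuous_snd
  unfold pairN polN
  exact ((((h2 0).mul (Complex.continuous_re.comp (h1 _ _))).add
    ((Complex.continuous_re.comp (h1 _ _)).mul (h2 1))).sub
    ((Complex.continuous_im.comp (h1 _ _)).mul (h2 2))).sub
    ((Complex.continuous_re.comp (h1 _ _)).mul (h2 3))

end Pool.Agent.K6.H10.SY
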