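import Pool.Agent.K6.H10.SY.Eps

/-!
# Contractible spaces of symplectic forms on the projective plane
-/

set_option autoImplicit false

open scoped ContDiff Topology ComplexConjugate unitInterval

noncomputable section

namespace Pool.Agent.K6.H10.SY

variable {d : ℕ}

/-- the conditions -/
def Ok (a : Coef d) (C : Set (V → Bil)) (Ω : Forms) : Prop :=
  Nondeg Ω.val ∧ InClass Ω.val ∧ PosOn (form d a) Ω.val ∧ Ω.val ∈ C

theorem Ok.pos {a : Coef d} {C : Set (V → Bil)} {Ω : Forms} (h : Ok a C Ω) :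
    PosOn (form d a) Ω.val := by
  obtain ⟨-, -, h3, -⟩ := h
  exact h3

theorem pf_pos_of (hd : 0 < d) {a : Coef d} {Ω : V → Bil}
    (h : IsForm Ω) (hn : Nondeg Ω) (hp : PosOn (form d a) Ω) (l : Fin 3) (z : V) (hl : z l = 1) :
    0 < pf (Ω z) (ee l) (ff l) := by
  obtain ⟨y, hy, hy0⟩ := form_zero hd a
  obtain ⟨m, c, x, hc, rfl, hx, -⟩ := exists_scale hy
  have h0 : ∀ j, form d a j x = 0 := by
    intro j
    have h1 := hy0 j
    rw [(sec_form a).hom] at h1
    exact (mul_eq_zero.1 h1).resolve_left (pow_ne_zero _ hc)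
  have hw : ∀ v, wr (form d a) x v = 0 := by
    intro v
    rw [wr, h0, h0, zero_mul, zero_mul, sub_zero]
  exact pf_pos h hn hx (pf_of_tame (tame_at h hp hx (hw _) (hw _))) l z hl

theorem pol_scale (B : Bil) (e f : V) (k a b : ℝ) (c : ℂ) :
    pol B e f (k * a) (k * b) ((k : ℂ) * c) = k * pol B e f a b c := by
  simp only [pol, Complex.re_ofReal_mul, Complex.im_ofReal_mul]
  ring

theorem mem_KK {z : V} {l : Fin 3} (h1 : z l = 1) (h2 : ‖z‖ ≤ 1) : z ∈ KK := by
  rw [mem_sphere_zero_iff_norm]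
  refine le_antisymm h2 ?_
  have h3 := norm_le_pi_norm z l
  rwa [h1, norm_one] at h3

/-- the segment from a form to `tau` consists of nondegenerate forms -/
theorem nondeg_segment (hd : 0 < d) {a : Coef d} {Ω : Forms} (hn : Nondeg Ω.val)
    (hp : PosOn (form d a) Ω.val) {t : ℝ} (ht : 0 ≤ t) (ht' : t ≤ 1) :
    Nondeg ((1 - t) • Ω.val + t • tau d (form d a) (eps d Ω a)) := by
  have h0 := eps_pos hd Ω a hp
  have hs := sec_form a
  refine nondeg_of_pf (Ω.property.comb (isForm_tau hs hd h0) _ _) fun l z hl hz1 => ?_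
  refine ne_of_gt ?_
  have hz0 := ne_zero_of hl
  have h1 : 0 < pol (Ω.val z) (ee l) (ff l) _ _ _ :=
    good_eps hd Ω a hp l ⟨z, mem_KK hl hz1⟩ hl
  have h2 := mul_pos (kpos (s := form d a) hd h0 hz0) h1
  rw [← pol_scale] at h2
  exact pf_comb_pos (herm_tau hs h0 hz0 (ee l) (ff l)) (pf_pos_of hd Ω.property hn hp l z hl)
    (pf_tau hs hd h0 hl) h2 ht ht'

theorem comb_left {a b : ℝ} (ha : a = 1) (hb : b = 0) (Ω₁ Ω₂ : Forms) :
    comb a b Ω₁ Ω₂ = Ω₁ := by
  subst ha hb
  obtain ⟨Ω, h⟩ := Ω₁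
  unfold comb
  congr 1
  funext z
  ext v w
  show 1 * Ω z v w + 0 * Ω₂.val z v w = Ω z v w
  ring

theorem comb_right {a b : ℝ} (ha : a = 0) (hb : b = 1) (Ω₁ Ω₂ : Forms) :
    comb a b Ω₁ Ω₂ = Ω₂ := by
  subst ha hb
  obtain ⟨Ω, h⟩ := Ω₂
  unfold comb
  congr 1
  funext z
  ext v w
  show 0 * Ω₁.val z v w + 1 * Ω z v w = Ω z v w
  ring

/-- the form `tau` as a point of the space of forms -/
def tauF (hd : 0 < d) (a : Coef d) (ε : ℝ) (h : 0 < ε) : Forms :=
  ⟨tau d (form d a) ε, isForm_tau (sec_form a) hd h⟩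

theorem tauF_congr (hd : 0 < d) {a a' : Coef d} {ε ε' : ℝ} (h : 0 < ε) (h' : 0 < ε')
    (ha : a = a') (he : ε = ε') : tauF hd a ε h = tauF hd a' ε' h' := by
  subst ha he
  rfl

theorem ok_tau (hd : 0 < d) {C : Set (V → Bil)} {a : Coef d}
    (hτ : ∀ ε, 0 < ε → ε ≤ 1 → tau d (form d a) ε ∈ C) {ε : ℝ} (h : 0 < ε) (h' : ε ≤ 1) :
    Ok a C (tauF hd a ε h) :=
  ⟨nondeg_tau (sec_form a) hd h, inClass_tau (sec_form a) hd h, posOn_tau (sec_form a) hd h,
    hτ ε h h'⟩

theorem ok_comb (hd : 0 < d) {C : Set (V → Bil)} {a : Coef d} (hC : Convex ℝ C)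
    (hτ : ∀ ε, 0 < ε → ε ≤ 1 → tau d (form d a) ε ∈ C) {Ω : Forms} (h : Ok a C Ω)
    (h0 : 0 < eps d Ω a) (t : I) :
    Ok a C (comb (1 - t) t Ω (tauF hd a (eps d Ω a) h0)) := by
  obtain ⟨h1, h2, h3, h4⟩ := h
  refine ⟨nondeg_segment hd h1 h3 t.2.1 t.2.2, ?_, ?_, ?_⟩
  · exact h2.comb (inClass_tau (sec_form a) hd h0) (by ring)
  · exact h3.comb (posOn_tau (sec_form a) hd h0) (by linarith [t.2.2]) t.2.1 (by ring)
  · exact hC h4 (hτ _ h0 (eps_lt Ω a).le) (by linarith [t.2.2]) t.2.1 (by ring)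

theorem continuous_tauF (hd : 0 < d) {A : Type} [TopologicalSpace A] {g : A → ℝ} {c : A → Coef d}
    (hg : Continuous g) (hc : Continuous c) (h : ∀ x, 0 < g x) :
    Continuous fun x => tauF hd (c x) (g x) (h x) :=
  continuous_family (E := Par d) (T := fun e => tau d (form d e.2) e.1) isOpen_posPar
    (fun e he => isForm_tau (sec_form e.2) hd he) (tauP_smooth d) (g := fun x => (g x, c x))
    (hg.prodMk hc) h

theorem continuous_eps_comp {A : Type} [TopologicalSpace A] {f : A → Forms} {c : A → Coef d}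
    (hf : Continuous f) (hc : Continuous c) : Continuous fun x => eps d (f x) (c x) := by
  have h := (continuous_eps (d := d)).comp (hf.prodMk hc)
  exact h

theorem pos_mix {x : ℝ} (hx : 0 < x) (t : I) : 0 < (1 - (t : ℝ)) * x + t := by
  have h2 := t.2.1
  have h3 := t.2.2
  rcases h2.lt_or_eq with h | h
  · have := mul_nonneg (sub_nonneg.2 h3) hx.le
    linarith
  · rw [← h]
    linarith

theorem mix_le {x : ℝ} (hx : x < 1) (t : I) : (1 - (t : ℝ)) * x + t ≤ 1 := by
  have h2 := t.2.1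
  have h3 := t.2.2
  nlinarith [mul_nonneg (sub_nonneg.2 h3) (sub_nonneg.2 hx.le)]

section fixed

/-- the space for a fixed pair of polynomials -/
def Sp (a : Coef d) (C : Set (V → Bil)) : Set Forms := {Ω | Ok a C Ω}

theorem main_fixed (hd : 0 < d) (a : Coef d) {C : Set (V → Bil)} (hC : Convex ℝ C)
    (hτ : ∀ ε, 0 < ε → ε ≤ 1 → tau d (form d a) ε ∈ C) : ContractibleSpace (Sp a C) := by
  rw [contractible_iff_id_nullhomotopic]
  have hpos : ∀ Ω : Sp a C, 0 < eps d Ω.1 a := fun Ω =>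
    eps_pos hd Ω.1 a (Ok.pos (C := C) Ω.2)
  have hcont : Continuous fun Ω : Sp a C => eps d Ω.1 a :=
    continuous_eps_comp (c := fun _ => a) continuous_subtype_val continuous_const
  have hc1 : Continuous fun p : I × Sp a C =>
      comb (1 - p.1) p.1 p.2.1 (tauF hd a (eps d p.2.1 a) (hpos p.2)) := by
    refine continuous_comb (continuous_const.sub (continuous_subtype_val.comp continuous_fst))
      (continuous_subtype_val.comp continuous_fst) (continuous_subtype_val.comp continuous_snd) ?_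
    exact continuous_tauF hd (c := fun _ => a) (hcont.comp continuous_snd) continuous_const _
  have hpos2 : ∀ p : I × Sp a C, 0 < (1 - (p.1 : ℝ)) * eps d p.2.1 a + p.1 :=
    fun p => pos_mix (hpos p.2) p.1
  have hc2 : Continuous fun p : I × Sp a C =>
      tauF hd a ((1 - (p.1 : ℝ)) * eps d p.2.1 a + p.1) (hpos2 p) := by
    refine continuous_tauF hd (c := fun _ => a) ?_ continuous_const _
    have h1 : Continuous fun p : I × Sp a C => (p.1 : ℝ) :=
      continuous_subtype_val.comp continuous_fst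
    exact ((continuous_const.sub h1).mul (hcont.comp continuous_snd)).add h1
  have hc3 : Continuous fun Ω : Sp a C => tauF hd a (eps d Ω.1 a) (hpos Ω) :=
    continuous_tauF hd (c := fun _ => a) hcont continuous_const _
  let F : C(Sp a C, Sp a C) :=
    ⟨fun Ω => ⟨tauF hd a (eps d Ω.1 a) (hpos Ω), ok_tau hd hτ (hpos Ω) (eps_lt Ω.1 a).le⟩,
      hc3.subtype_mk _⟩
  let H1 : ContinuousMap.Homotopy (ContinuousMap.id (Sp a C)) F :=
    { toFun := fun p => ⟨comb (1 - p.1) p.1 p.2.1 (tauF hd a (eps d p.2.1 a) (hpos p.2)),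
        ok_comb hd hC hτ p.2.2 (hpos p.2) p.1⟩
      continuous_toFun := hc1.subtype_mk _
      map_zero_left := fun Ω => Subtype.ext (comb_left (by simp) (by simp) _ _)
      map_one_left := fun Ω => Subtype.ext (comb_right (by simp) (by simp) _ _) }
  let H2 : ContinuousMap.Homotopy F
      (ContinuousMap.const _ ⟨tauF hd a 1 one_pos, ok_tau hd hτ one_pos le_rfl⟩) :=
    { toFun := fun p => ⟨tauF hd a ((1 - (p.1 : ℝ)) * eps d p.2.1 a + p.1) (hpos2 p),
        ok_tau hd hτ (hpos2 p) (mix_le (eps_lt _ _) p.1)⟩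
      continuous_toFun := hc2.subtype_mk _
      map_zero_left := fun Ω =>
        Subtype.ext (tauF_congr hd (hpos2 (0, Ω)) (hpos Ω) rfl (by simp))
      map_one_left := fun Ω =>
        Subtype.ext (tauF_congr hd (hpos2 (1, Ω)) one_pos rfl (by simp)) }
  exact ⟨_, ⟨H1.trans H2⟩⟩

end fixed

section total

theorem zero_smul' (x : ℝ) (c : Coef d) (h : x = 0) : x • c = 0 := by
  rw [h, zero_smul]

theorem one_smul' (x : ℝ) (c : Coef d) (h : x = 1) : x • c = c := by
  rw [h, one_smul]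

/-- the space of the pairs of a form and of a pair of polynomials -/
def Tot (d : ℕ) (C : Set (V → Bil)) : Set (Forms × Coef d) := {q | Ok q.2 C q.1}

theorem main_total (hd : 0 < d) {C : Set (V → Bil)} (hC : Convex ℝ C)
    (hτ : ∀ (a : Coef d) (ε : ℝ), 0 < ε → ε ≤ 1 → tau d (form d a) ε ∈ C) :
    ContractibleSpace (Tot d C) := by
  rw [contractible_iff_id_nullhomotopic]
  have hpos : ∀ q : Tot d C, 0 < eps d q.1.1 q.1.2 := fun q =>
    eps_pos hd q.1.1 q.1.2 (Ok.pos (C := C) q.2)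
  have hca : Continuous fun q : Tot d C => q.1.2 :=
    continuous_snd.comp continuous_subtype_val
  have hcΩ : Continuous fun q : Tot d C => q.1.1 :=
    continuous_fst.comp continuous_subtype_val
  have hcont : Continuous fun q : Tot d C => eps d q.1.1 q.1.2 := continuous_eps_comp hcΩ hca
  have hc1 : Continuous fun p : I × Tot d C =>
      comb (1 - p.1) p.1 p.2.1.1 (tauF hd p.2.1.2 (eps d p.2.1.1 p.2.1.2) (hpos p.2)) := by
    refine continuous_comb (continuous_const.sub (continuous_subtype_val.comp continuous_fst))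
      (continuous_subtype_val.comp continuous_fst) (hcΩ.comp continuous_snd) ?_
    exact continuous_tauF hd (hcont.comp continuous_snd) (hca.comp continuous_snd) _
  have hpos2 : ∀ p : I × Tot d C, 0 < (1 - (p.1 : ℝ)) * eps d p.2.1.1 p.2.1.2 + p.1 :=
    fun p => pos_mix (hpos p.2) p.1
  have h1 : Continuous fun p : I × Tot d C => (p.1 : ℝ) :=
    continuous_subtype_val.comp continuous_fst
  have hc4 : Continuous fun p : I × Tot d C => (1 - (p.1 : ℝ)) • p.2.1.2 :=
    (continuous_const.sub h1).smul (hca.comp continuous_snd)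
  have hc2 : Continuous fun p : I × Tot d C =>
      tauF hd ((1 - (p.1 : ℝ)) • p.2.1.2) ((1 - (p.1 : ℝ)) * eps d p.2.1.1 p.2.1.2 + p.1)
        (hpos2 p) := by
    refine continuous_tauF hd ?_ hc4 _
    exact ((continuous_const.sub h1).mul (hcont.comp continuous_snd)).add h1
  have hc3 : Continuous fun q : Tot d C => tauF hd q.1.2 (eps d q.1.1 q.1.2) (hpos q) :=
    continuous_tauF hd hcont hca _
  let F : C(Tot d C, Tot d C) :=
    ⟨fun q => ⟨(tauF hd q.1.2 (eps d q.1.1 q.1.2) (hpos q), q.1.2),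
      ok_tau hd (hτ _) (hpos q) (eps_lt q.1.1 q.1.2).le⟩, (hc3.prodMk hca).subtype_mk _⟩
  let H1 : ContinuousMap.Homotopy (ContinuousMap.id (Tot d C)) F :=
    { toFun := fun p => ⟨(comb (1 - p.1) p.1 p.2.1.1
        (tauF hd p.2.1.2 (eps d p.2.1.1 p.2.1.2) (hpos p.2)), p.2.1.2),
        ok_comb hd hC (hτ _) p.2.2 (hpos p.2) p.1⟩
      continuous_toFun := (hc1.prodMk (hca.comp continuous_snd)).subtype_mk _
      map_zero_left := fun q =>
        Subtype.ext (Prod.ext (comb_left (by simp) (by simp) _ _) rfl)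
      map_one_left := fun q =>
        Subtype.ext (Prod.ext (comb_right (by simp) (by simp) _ _) rfl) }
  let H2 : ContinuousMap.Homotopy F
      (ContinuousMap.const _ ⟨(tauF hd 0 1 one_pos, 0), ok_tau hd (hτ _) one_pos le_rfl⟩) :=
    { toFun := fun p => ⟨(tauF hd ((1 - (p.1 : ℝ)) • p.2.1.2)
        ((1 - (p.1 : ℝ)) * eps d p.2.1.1 p.2.1.2 + p.1) (hpos2 p), (1 - (p.1 : ℝ)) • p.2.1.2),
        ok_tau hd (hτ _) (hpos2 p) (mix_le (eps_lt _ _) p.1)⟩
      continuous_toFun := (hc2.prodMk hc4).subtype_mk _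
      map_zero_left := fun q => Subtype.ext (Prod.ext
        (tauF_congr hd (hpos2 (0, q)) (hpos q) (by simp) (by simp)) (by simp [F]))
      map_one_left := fun q => Subtype.ext (Prod.ext
        (tauF_congr hd (hpos2 (1, q)) one_pos (zero_smul' _ _ (by simp)) (by simp))
        (zero_smul' _ _ (by simp))) }
  exact ⟨_, ⟨H1.trans H2⟩⟩

end total

end Pool.Agent.K6.H10.SY
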