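import Pool.Agent.K6.H10.SY.Defs

/-!
# The Pfaffian of a real alternating form on a complex surface
-/

set_option autoImplicit false

open scoped ContDiff Topology ComplexConjugate

noncomputable section

namespace Pool.Agent.K6.H10.SY

open Complex (I)

def ee (l : Fin 3) : V := Pi.single (l + 1) 1
def ff (l : Fin 3) : V := Pi.single (l + 2) 1

theorem decomp (l : Fin 3) (v : V) (h : v l = 0) : v = v (l + 1) • ee l + v (l + 2) • ff l := by
  funext i
  fin_cases l <;> fin_cases i <;> simp_all [ee, ff]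

theorem ee_l (l : Fin 3) : ee l l = 0 := by
  fin_cases l <;> simp [ee]

theorem ff_l (l : Fin 3) : ff l l = 0 := by
  fin_cases l <;> simp [ff]

theorem ee_1 (l : Fin 3) : ee l (l + 1) = 1 := by
  simp [ee]

theorem ff_2 (l : Fin 3) : ff l (l + 2) = 1 := by
  simp [ff]

theorem ff_1 (l : Fin 3) : ff l (l + 1) = 0 := by
  fin_cases l <;> simp [ff]

theorem ee_2 (l : Fin 3) : ee l (l + 2) = 0 := by
  fin_cases l <;> simp [ee]

/-- real and imaginary parts of a complex multiple -/
theorem smulC (c : ℂ) (v : V) : c • v = c.re • v + c.im • (I • v) := by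
  funext i
  simp only [Pi.add_apply, Pi.smul_apply, smul_eq_mul, Complex.real_smul]
  conv_lhs => rw [← Complex.re_add_im c]
  ring

theorem antisymm {B : Bil} (h : ∀ v, B v v = 0) (v w : V) : B v w = -B w v := by
  have h1 := h (v + w)
  simp only [map_add, add_apply, h] at h1
  linarith

/-- the Pfaffian -/
def pf (B : Bil) (e f : V) : ℝ :=
  B e (I • e) * B f (I • f) - B e f * B (I • e) (I • f) + B e (I • f) * B (I • e) f

theorem ker_eqs {B : Bil} (h : ∀ v, B v v = 0) (e f : V) (x y : ℂ) :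
    B (x • e + y • f) e = -(x.im * B e (I • e) + y.re * B e f + y.im * B e (I • f)) ∧
    B (x • e + y • f) (I • e) = x.re * B e (I • e) - y.re * B (I • e) f
      - y.im * B (I • e) (I • f) ∧
    B (x • e + y • f) f = x.re * B e f + x.im * B (I • e) f - y.im * B f (I • f) ∧
    B (x • e + y • f) (I • f) = x.re * B e (I • f) + x.im * B (I • e) (I • f)
      + y.re * B f (I • f) := by
  rw [smulC x e, smulC y f]
  simp only [map_add, map_smul, add_apply, smul_apply,
    smul_eq_mul, h]
  rw [antisymm h (I • e) e, antisymm h f e, antisymm h (I • f) e, antisymm h f (I • e),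
    antisymm h (I • f) (I • e), antisymm h (I • f) f]
  refine ⟨by ring, by ring, by ring, by ring⟩

/-- a form with nonzero Pfaffian has no kernel in the span of the frame -/
theorem pf_ker {B : Bil} (h : ∀ v, B v v = 0) (e f : V) (hp : pf B e f ≠ 0) (x y : ℂ)
    (hk : ∀ w, B (x • e + y • f) w = 0) : x = 0 ∧ y = 0 := by
  obtain ⟨h1, h2, h3, h4⟩ := ker_eqs h e f x y
  rw [hk] at h1 h2 h3 h4
  unfold pf at hp
  have e1 : x.re = 0 := by
    refine (mul_eq_zero.1 ?_).resolve_left hp
    linear_combination -(B f (I • f)) * h2 + (B (I • e) (I • f)) * h3 - (B (I • e) f) * h4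
  have e2 : x.im = 0 := by
    refine (mul_eq_zero.1 ?_).resolve_left hp
    linear_combination (B f (I • f)) * h1 - (B e (I • f)) * h3 + (B e f) * h4
  have e3 : y.re = 0 := by
    refine (mul_eq_zero.1 ?_).resolve_left hp
    linear_combination -(B (I • e) (I • f)) * h1 + (B e (I • f)) * h2 - (B e (I • e)) * h4
  have e4 : y.im = 0 := by
    refine (mul_eq_zero.1 ?_).resolve_left hp
    linear_combination (B (I • e) f) * h1 - (B e f) * h2 + (B e (I • e)) * h3
  exact ⟨Complex.ext e1 e2, Complex.ext e3 e4⟩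

/-- a form with zero Pfaffian has a kernel in the span of the frame -/
theorem pf_zero {B : Bil} (h : ∀ v, B v v = 0) (e f : V) (hp : pf B e f = 0) :
    ∃ x y : ℂ, (x ≠ 0 ∨ y ≠ 0) ∧ B (x • e + y • f) e = 0 ∧ B (x • e + y • f) (I • e) = 0 ∧
      B (x • e + y • f) f = 0 ∧ B (x • e + y • f) (I • f) = 0 := by
  unfold pf at hp
  have key : ∀ x y : ℂ, (x ≠ 0 ∨ y ≠ 0) →
      -(x.im * B e (I • e) + y.re * B e f + y.im * B e (I • f)) = 0 →
      x.re * B e (I • e) - y.re * B (I • e) f - y.im * B (I • e) (I • f) = 0 →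
      x.re * B e f + x.im * B (I • e) f - y.im * B f (I • f) = 0 →
      x.re * B e (I • f) + x.im * B (I • e) (I • f) + y.re * B f (I • f) = 0 →
      ∃ x y : ℂ, (x ≠ 0 ∨ y ≠ 0) ∧ B (x • e + y • f) e = 0 ∧ B (x • e + y • f) (I • e) = 0 ∧
      B (x • e + y • f) f = 0 ∧ B (x • e + y • f) (I • f) = 0 := by
    intro x y hxy h1 h2 h3 h4
    obtain ⟨g1, g2, g3, g4⟩ := ker_eqs h e f x y
    exact ⟨x, y, hxy, by rw [g1, h1], by rw [g2, h2], by rw [g3, h3], by rw [g4, h4]⟩
  have nz : ∀ t u : ℝ, ¬ (t = 0 ∧ u = 0) → (⟨t, u⟩ : ℂ) ≠ 0 := by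
    intro t u h1 h2
    exact h1 ⟨congrArg Complex.re h2, congrArg Complex.im h2⟩
  by_cases c1 : B f (I • f) = 0
  swap
  · refine key ⟨0, B f (I • f)⟩ ⟨-B (I • e) (I • f), B (I • e) f⟩
      (Or.inl (nz _ _ fun h => c1 h.2)) ?_ ?_ ?_ ?_
    · simp only; linear_combination -hp
    · simp only; ring
    · simp only; ring
    · simp only; ring
  by_cases c2 : B (I • e) (I • f) = 0
  swap
  · refine key ⟨0, B f (I • f)⟩ ⟨-B (I • e) (I • f), B (I • e) f⟩
      (Or.inr (nz _ _ fun h => c2 (neg_eq_zero.1 h.1))) ?_ ?_ ?_ ?_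
    · simp only; linear_combination -hp
    · simp only; ring
    · simp only; ring
    · simp only; ring
  by_cases c3 : B (I • e) f = 0
  swap
  · refine key ⟨0, B f (I • f)⟩ ⟨-B (I • e) (I • f), B (I • e) f⟩
      (Or.inr (nz _ _ fun h => c3 h.2)) ?_ ?_ ?_ ?_
    · simp only; linear_combination -hp
    · simp only; ring
    · simp only; ring
    · simp only; ring
  by_cases c4 : B e (I • f) = 0
  swap
  · refine key ⟨B f (I • f), 0⟩ ⟨-B e (I • f), B e f⟩
      (Or.inr (nz _ _ fun h => c4 (neg_eq_zero.1 h.1))) ?_ ?_ ?_ ?_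
    · simp only; ring
    · simp only; linear_combination hp
    · simp only; ring
    · simp only; ring
  by_cases c5 : B e f = 0
  swap
  · refine key ⟨B f (I • f), 0⟩ ⟨-B e (I • f), B e f⟩
      (Or.inr (nz _ _ fun h => c5 h.2)) ?_ ?_ ?_ ?_
    · simp only; ring
    · simp only; linear_combination hp
    · simp only; ring
    · simp only; ring
  by_cases c6 : B e (I • e) = 0
  · refine key 1 0 (Or.inl one_ne_zero) ?_ ?_ ?_ ?_ <;> simp [c1, c2, c3, c4, c5, c6]
  · refine key 0 ⟨0, B e (I • e)⟩ (Or.inr (nz _ _ fun h => c6 h.2)) ?_ ?_ ?_ ?_ <;>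
      simp [c1, c2, c3, c4, c5]

end Pool.Agent.K6.H10.SY
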