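import Pool.Agent.K6.H10.SY.Tau7

/-!
# Pairs of homogeneous polynomials
-/

set_option autoImplicit false

open scoped ContDiff Topology ComplexConjugate

noncomputable section

namespace Pool.Agent.K6.H10.SY

open Complex (I)

/-- the coefficients of two forms of degree `d` in three variables -/
abbrev Coef (d : ℕ) : Type := Fin 2 → (Fin d → Fin 3) → ℂ

/-- the forms of degree `d` with the coefficients `a` -/
def form (d : ℕ) (a : Coef d) (j : Fin 2) (z : V) : ℂ := ∑ w, a j w * ∏ i, z (w i)

variable {d : ℕ}

theorem form_smooth (j : Fin 2) :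
    ContDiff ℂ ∞ (fun p : Coef d × V => form d p.1 j p.2) := by
  unfold form
  refine ContDiff.sum fun w _ => ContDiff.mul ?_ (contDiff_prod fun i _ => ?_)
  · exact (contDiff_apply_apply ℂ ℂ j w).comp contDiff_fst
  · exact (contDiff_apply ℂ ℂ (w i)).comp contDiff_snd

theorem sec_form (a : Coef d) : Sec d (form d a) where
  smooth j := (form_smooth j).comp (contDiff_prodMk_right a)
  hom j c z := by
    simp only [form, Pi.smul_apply, smul_eq_mul, Finset.prod_mul_distrib, Finset.prod_const,
      Finset.card_univ, Fintype.card_fin, Finset.mul_sum]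
    exact Finset.sum_congr rfl fun w _ => by ring

/-- the parameters -/
abbrev Par (d : ℕ) : Type := ℝ × Coef d

/-- the positive parameters -/
def posPar (d : ℕ) : Set (Par d) := {e | 0 < e.1}

theorem isOpen_posPar : IsOpen (posPar d) := isOpen_lt continuous_const continuous_fst

theorem PhiP_smooth :
    ContDiff ℝ ∞ (fun p : Par d × V => Phi d (form d p.1.2) p.1.1 p.2) := by
  unfold Phi
  have h1 : ∀ j, ContDiff ℝ ∞ (fun p : Par d × V => form d p.1.2 j p.2) := fun j =>
    ((form_smooth (d := d) j).restrict_scalars ℝ).comp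
      (contDiff_fst.snd.prodMk contDiff_snd)
  refine (ContDiff.sum fun j _ => (h1 j).norm_sq ℝ).add (contDiff_fst.fst.mul ?_)
  exact (nsq_smooth.comp contDiff_snd).pow d

theorem tauP_smooth (d : ℕ) :
    ContDiffOn ℝ ∞ (fun p : Par d × V => tau d (form d p.1.2) p.1.1 p.2) (posPar d ×ˢ V') := by
  have h0 : ContDiffOn ℝ ∞ (fun p : Par d × V => Real.log (Phi d (form d p.1.2) p.1.1 p.2))
      (posPar d ×ˢ V') := PhiP_smooth.contDiffOn.log fun _ hp => (Phi_pos hp.1 hp.2).ne'
  have h1 := dc_smooth (F := fun (e : Par d) y => Real.log (Phi d (form d e.2) e.1 y))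
    (isOpen_posPar.prod isOpen_V') h0
  have h2 := ext_smooth (F := fun (e : Par d) => dc (fun y => Real.log (Phi d (form d e.2) e.1 y)))
    (isOpen_posPar.prod isOpen_V') h1
  refine (h2.const_smul (d : ℝ)⁻¹).congr fun p hp => ?_
  rw [tau, if_neg hp.2]

theorem form_cont (j : Fin 2) : Continuous (fun p : Coef d × V => form d p.1 j p.2) :=
  (form_smooth j).continuous

theorem ds_form_cont (j : Fin 2) (v : V) :
    Continuous (fun p : Coef d × V => ds (form d p.1) j p.2 v) := by
  have h0 : ContDiffOn ℝ ∞ (fun p : Coef d × V => form d p.1 j p.2) Set.univ :=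
    ((form_smooth j).restrict_scalars ℝ).contDiffOn
  have h1 := (slice_smooth (F := fun (a : Coef d) z => form d a j z) isOpen_univ h0).continuousOn
  rw [continuousOn_univ] at h1
  have h2 : (fun p : Coef d × V => ds (form d p.1) j p.2 v) =
      fun p => fderiv ℝ (fun z => form d p.1 j z) p.2 v := by
    funext p
    have := (sec_form p.1).diff j p.2
    rw [this.fderiv]
    rfl
  rw [h2]
  exact h1.clm_apply continuous_const

end Pool.Agent.K6.H10.SY
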