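import Pool.Agent.K6.H10.SY.Pf

/-!
# Positivity of the polarised Pfaffian
-/

set_option autoImplicit false

open scoped ContDiff Topology ComplexConjugate

noncomputable section

namespace Pool.Agent.K6.H10.SY

open Complex (I)

def cP (B : Bil) (e f : V) : ℝ := B e f + B (I • e) (I • f)
def cR (B : Bil) (e f : V) : ℝ := B e (I • f) - B (I • e) f

/-- the polarised Pfaffian of `B` and the imaginary part of a hermitian form -/
def pol (B : Bil) (e f : V) (a b : ℝ) (c : ℂ) : ℝ :=
  B e (I • e) * b + a * B f (I • f) - c.im * cP B e f - c.re * cR B e f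

/-- `B` is positive on the complex directions in the span of `e`, `f` -/
def Tame (B : Bil) (e f : V) : Prop :=
  0 < B e (I • e) ∧ 0 < B f (I • f) ∧
    cP B e f ^ 2 + cR B e f ^ 2 < 4 * (B e (I • e) * B f (I • f))

theorem quad {B : Bil} (h : ∀ v, B v v = 0) (e f : V) (x y : ℂ) :
    B (x • e + y • f) (I • (x • e + y • f)) =
      (x.re ^ 2 + x.im ^ 2) * B e (I • e) + (y.re ^ 2 + y.im ^ 2) * B f (I • f) +
        (x.re * y.re + x.im * y.im) * cR B e f - (x.re * y.im - x.im * y.re) * cP B e f := by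
  have h1 : I • (x • e + y • f) = (I * x) • e + (I * y) • f := by
    rw [smul_add, smul_smul, smul_smul]
  rw [h1, smulC x e, smulC y f, smulC (I * x) e, smulC (I * y) f]
  simp only [map_add, map_smul, add_apply, smul_apply, smul_eq_mul, h, Complex.mul_re,
    Complex.mul_im, Complex.I_re, Complex.I_im, cP, cR]
  rw [antisymm h (I • e) e, antisymm h f e, antisymm h (I • f) e, antisymm h f (I • e),
    antisymm h (I • f) (I • e), antisymm h (I • f) f]
  ring

theorem tame_of_pos {B : Bil} (h : ∀ v, B v v = 0) (e f : V)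
    (hp : ∀ x y : ℂ, (x ≠ 0 ∨ y ≠ 0) → 0 < B (x • e + y • f) (I • (x • e + y • f))) :
    Tame B e f := by
  have h1 := hp 1 0 (Or.inl one_ne_zero)
  have h2 := hp 0 1 (Or.inr one_ne_zero)
  rw [quad h] at h1 h2
  simp at h1 h2
  refine ⟨h1, h2, ?_⟩
  have h3 := hp ((2 * B f (I • f) : ℝ) : ℂ) (⟨-cR B e f, cP B e f⟩)
    (Or.inl (by exact_mod_cast (by positivity : (2 * B f (I • f)) ≠ 0)))
  rw [quad h] at h3
  simp only [Complex.ofReal_re, Complex.ofReal_im] at h3
  have h4 : 0 < B f (I • f) *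
      (4 * (B e (I • e) * B f (I • f)) - (cP B e f ^ 2 + cR B e f ^ 2)) := by
    have : B f (I • f) * (4 * (B e (I • e) * B f (I • f)) - (cP B e f ^ 2 + cR B e f ^ 2)) =
      ((2 * B f (I • f)) ^ 2 + 0 ^ 2) * B e (I • e) +
      ((-cR B e f) ^ 2 + cP B e f ^ 2) * B f (I • f) +
        (2 * B f (I • f) * -cR B e f + 0 * cP B e f) * cR B e f -
      (2 * B f (I • f) * cP B e f - 0 * -cR B e f) * cP B e f := by ring
    rw [this]
    exact h3
  have h5 := (mul_pos_iff_of_pos_left h2).1 h4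
  linarith

theorem pf_of_tame {B : Bil} {e f : V} (h : Tame B e f) : 0 < pf B e f := by
  obtain ⟨-, -, h3⟩ := h
  unfold pf
  unfold cP cR at h3
  nlinarith [sq_nonneg (B e f - B (I • e) (I • f)), sq_nonneg (B e (I • f) + B (I • e) f)]

theorem pol_of_tame {B : Bil} {e f : V} (h : Tame B e f) {a b : ℝ} {c : ℂ} (ha : 0 ≤ a)
    (hb : 0 ≤ b) (hab : 0 < a + b) (hc : c.re ^ 2 + c.im ^ 2 ≤ a * b) :
    0 < pol B e f a b c := by
  obtain ⟨h1, h2, h3⟩ := h
  unfold pol
  generalize B e (I • e) = A at *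
  generalize B f (I • f) = D at *
  generalize cP B e f = X at *
  generalize cR B e f = Y at *
  have hpos : 0 < A * b + a * D := by
    rcases ha.lt_or_eq with h | h
    · have := mul_pos h h2
      have := mul_nonneg h1.le hb
      linarith
    · have hb' : 0 < b := by linarith
      have := mul_pos h1 hb'
      have := mul_nonneg ha h2.le
      linarith
  have key : (c.im * X + c.re * Y) ^ 2 < (A * b + a * D) ^ 2 := by
    have k1 : (c.im * X + c.re * Y) ^ 2 ≤ (c.re ^ 2 + c.im ^ 2) * (X ^ 2 + Y ^ 2) := by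
      nlinarith [sq_nonneg (c.im * Y - c.re * X)]
    have k2 : (c.re ^ 2 + c.im ^ 2) * (X ^ 2 + Y ^ 2) ≤ a * b * (X ^ 2 + Y ^ 2) :=
      mul_le_mul_of_nonneg_right hc (by positivity)
    rcases (mul_nonneg ha hb).lt_or_eq with h | h
    · have k3 : a * b * (X ^ 2 + Y ^ 2) < a * b * (4 * (A * D)) :=
        mul_lt_mul_of_pos_left h3 h
      nlinarith [sq_nonneg (A * b - a * D)]
    · rw [← h, zero_mul] at k2
      have : 0 < (A * b + a * D) ^ 2 := by positivity
      linarith
  have := abs_lt_of_sq_lt_sq key hpos.le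
  have := (abs_lt.1 this).2
  linarith

/-- the numbers of the imaginary part of a hermitian form -/
def Herm (T : Bil) (e f : V) (a b : ℝ) (c : ℂ) : Prop :=
  T e (I • e) = a ∧ T f (I • f) = b ∧ T e f = c.im ∧ T (I • e) (I • f) = c.im ∧
    T e (I • f) = c.re ∧ T (I • e) f = -c.re

theorem pf_comb {B T : Bil} {e f : V} {a b : ℝ} {c : ℂ} (h : Herm T e f a b c) (t : ℝ) :
    pf ((1 - t) • B + t • T) e f =
      (1 - t) ^ 2 * pf B e f + t * (1 - t) * pol B e f a b c + t ^ 2 * pf T e f := by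
  obtain ⟨h1, h2, h3, h4, h5, h6⟩ := h
  simp only [pf, pol, cP, cR, add_apply, smul_apply, smul_eq_mul, h1, h2, h3, h4, h5, h6]
  ring

theorem pf_comb_pos {B T : Bil} {e f : V} {a b : ℝ} {c : ℂ} (h : Herm T e f a b c)
    (h1 : 0 < pf B e f) (h2 : 0 < pf T e f) (h3 : 0 < pol B e f a b c) {t : ℝ} (ht : 0 ≤ t)
    (ht' : t ≤ 1) : 0 < pf ((1 - t) • B + t • T) e f := by
  rw [pf_comb h]
  rcases ht.lt_or_eq with h0 | h0
  · have : 0 < t ^ 2 * pf T e f := by positivity
    have : 0 ≤ (1 - t) ^ 2 * pf B e f := by positivity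
    have : 0 ≤ t * (1 - t) * pol B e f a b c :=
      mul_nonneg (mul_nonneg ht (by linarith)) h3.le
    linarith
  · rw [← h0]
    simpa using h1

end Pool.Agent.K6.H10.SY
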