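import Pool.Agent.K6.H10.SY.Pos

/-!
# The sign of the Pfaffian of a symplectic form
-/

set_option autoImplicit false

open scoped ContDiff Topology ComplexConjugate

noncomputable section

namespace Pool.Agent.K6.H10.SY

open Complex (I)

theorem ne_zero_of {l : Fin 3} {z : V} (h : z l = 1) : z ≠ 0 := by
  rintro rfl
  simp at h

theorem cont_coef {Ω : V → Bil} (h : IsForm Ω) (v w : V) :
    ContinuousOn (fun z => Ω z v w) V' :=
  (coef_smooth h.smooth v w).continuousOn

theorem cont_pf {Ω : V → Bil} (h : IsForm Ω) (e f : V) :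
    ContinuousOn (fun z => pf (Ω z) e f) V' := by
  unfold pf
  exact (((cont_coef h _ _).mul (cont_coef h _ _)).sub
    ((cont_coef h _ _).mul (cont_coef h _ _))).add
    ((cont_coef h _ _).mul (cont_coef h _ _))

/-- every vector is the sum of a multiple of `z` and of a vector in the span of the frame -/
theorem decomp' {l : Fin 3} {z : V} (hz : z l = 1) (w : V) :
    ∃ x y : ℂ, w = w l • z + (x • ee l + y • ff l) := by
  have h := decomp l (w - w l • z) (by simp [hz])
  refine ⟨(w - w l • z) (l + 1), (w - w l • z) (l + 2), ?_⟩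
  rw [← h]
  abel

/-- a vector in the span of the frame is not a multiple of `z` -/
theorem frame_indep {l : Fin 3} {z : V} (hz : z l = 1) {x y : ℂ} (hxy : x ≠ 0 ∨ y ≠ 0) :
    ¬ ∃ c : ℂ, x • ee l + y • ff l = c • z := by
  rintro ⟨c, hc⟩
  have h0 := congrFun hc l
  simp only [Pi.add_apply, Pi.smul_apply, ee_l, ff_l, smul_eq_mul, hz] at h0
  have hc0 : c = 0 := by simpa using h0.symm
  rw [hc0, zero_smul] at hc
  have h1 := congrFun hc (l + 1)
  have h2 := congrFun hc (l + 2)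
  simp only [Pi.add_apply, Pi.smul_apply, ee_1, ff_1, ee_2, ff_2, smul_eq_mul,
    Pi.zero_apply] at h1 h2
  rcases hxy with h | h
  · exact h (by simpa using h1)
  · exact h (by simpa using h2)

theorem nondeg_at {Ω : V → Bil} (h : IsForm Ω) {l : Fin 3} {z : V} (hz : z l = 1)
    (hp : pf (Ω z) (ee l) (ff l) ≠ 0) (v : V) (hv : ∀ w, Ω z v w = 0) : ∃ c : ℂ, v = c • z := by
  obtain ⟨x, y, hxy⟩ := decomp' hz v
  have hz0 := ne_zero_of hz
  have h1 : ∀ w, Ω z (x • ee l + y • ff l) w = 0 := by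
    intro w
    have h2 := hv w
    rw [hxy, map_add, add_apply, h.hor z hz0, zero_add] at h2
    exact h2
  obtain ⟨rfl, rfl⟩ := pf_ker (h.alt z) _ _ hp x y h1
  exact ⟨v l, by simpa using hxy⟩

theorem pf_ne_zero {Ω : V → Bil} (h : IsForm Ω) (hn : Nondeg Ω) {l : Fin 3} {z : V}
    (hz : z l = 1) : pf (Ω z) (ee l) (ff l) ≠ 0 := by
  intro hp
  have hz0 := ne_zero_of hz
  obtain ⟨x, y, hxy, h1, h2, h3, h4⟩ := pf_zero (h.alt z) _ _ hp
  refine frame_indep hz hxy (hn z hz0 _ fun w => ?_)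
  obtain ⟨x', y', hw⟩ := decomp' hz w
  generalize x • ee l + y • ff l = v at *
  rw [hw, map_add, antisymm (h.alt z) _ (w l • z), h.hor z hz0, smulC x', smulC y']
  simp only [map_add, map_smul, h1, h2, h3, h4]
  simp

theorem convex_A (l : Fin 3) : Convex ℝ {z : V | z l = 1} := by
  intro z hz w hw a b _ _ hab
  simp only [Set.mem_ofPred_eq] at *
  simp only [Pi.add_apply, Pi.smul_apply, hz, hw, Complex.real_smul, mul_one]
  exact_mod_cast hab

theorem pf_pos_A {Ω : V → Bil} (h : IsForm Ω) (hn : Nondeg Ω) {l : Fin 3} {z w : V}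
    (hz : z l = 1) (hw : w l = 1) (hp : 0 < pf (Ω z) (ee l) (ff l)) :
    0 < pf (Ω w) (ee l) (ff l) := by
  by_contra hc
  rw [not_lt] at hc
  obtain ⟨y, hy, hy'⟩ := (convex_A l).isPreconnected.intermediate_value₂ (a := w) (b := z) hw hz
    (f := fun z => pf (Ω z) (ee l) (ff l)) (g := fun _ => 0)
    ((cont_pf h _ _).mono fun z hz => ne_zero_of hz) continuousOn_const hc hp.le
  exact pf_ne_zero h hn hy hy'

theorem pf_turn {B : Bil} (h : ∀ v, B v v = 0) {u : V} (hu : ∀ (c : ℂ) (w : V), B (c • u) w = 0)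
    (e f : V) : pf B f (u - e - f) = pf B e f := by
  have hu1 : ∀ w, B u w = 0 := fun w => by simpa using hu 1 w
  have hu2 : ∀ w, B (I • u) w = 0 := hu I
  have hu3 : ∀ w, B w u = 0 := fun w => by rw [antisymm h, hu1, neg_zero]
  have hu4 : ∀ w, B w (I • u) = 0 := fun w => by rw [antisymm h, hu2, neg_zero]
  simp only [pf, smul_sub, map_sub, sub_apply, hu1, hu3, hu4, h]
  rw [antisymm h (I • f) e, antisymm h f e, antisymm h f (I • e),
    antisymm h (I • f) (I • e), antisymm h (I • f) f]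
  ring

theorem ee_succ (l : Fin 3) : ee (l + 1) = ff l := by
  fin_cases l <;> rfl

theorem ff_succ (l : Fin 3) : ff (l + 1) = (fun _ => 1) - ee l - ff l := by
  funext i
  fin_cases l <;> fin_cases i <;> simp [ee, ff]

theorem pf_unit {Ω : V → Bil} (h : IsForm Ω) (l : Fin 3) :
    pf (Ω fun _ => 1) (ee (l + 1)) (ff (l + 1)) = pf (Ω fun _ => 1) (ee l) (ff l) := by
  rw [ee_succ, ff_succ]
  refine pf_turn (h.alt _) (fun c w => h.hor _ ?_ c w) _ _
  exact ne_zero_of (l := l) rfl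

theorem three (l m : Fin 3) : m = l ∨ m = l + 1 ∨ m = l + 1 + 1 := by
  fin_cases l <;> fin_cases m <;> simp

/-- the Pfaffian of a symplectic form is positive in all frames if it is so in one of them -/
theorem pf_pos {Ω : V → Bil} (h : IsForm Ω) (hn : Nondeg Ω) {l : Fin 3} {z : V}
    (hz : z l = 1) (hp : 0 < pf (Ω z) (ee l) (ff l)) (m : Fin 3) (w : V) (hw : w m = 1) :
    0 < pf (Ω w) (ee m) (ff m) := by
  have h1 : 0 < pf (Ω fun _ => 1) (ee l) (ff l) := pf_pos_A h hn hz rfl hp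
  have h2 : 0 < pf (Ω fun _ => 1) (ee (l + 1)) (ff (l + 1)) := by rw [pf_unit h]; exact h1
  have h3 : 0 < pf (Ω fun _ => 1) (ee (l + 1 + 1)) (ff (l + 1 + 1)) := by
    rw [pf_unit h]; exact h2
  have h4 : 0 < pf (Ω fun _ => 1) (ee m) (ff m) := by
    rcases three l m with rfl | rfl | rfl
    · exact h1
    · exact h2
    · exact h3
  exact pf_pos_A h hn rfl hw h4

/-- every point is a multiple of a point with a coordinate one and all coordinates of modulus at
most one -/
theorem exists_scale {z : V} (hz : z ≠ 0) :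
    ∃ (l : Fin 3) (c : ℂ) (y : V), c ≠ 0 ∧ z = c • y ∧ y l = 1 ∧ ‖y‖ ≤ 1 := by
  obtain ⟨l, hl⟩ := Finite.exists_max fun i => ‖z i‖
  have h0 : z l ≠ 0 := by
    intro h
    apply hz
    funext i
    have := hl i
    rw [h, norm_zero] at this
    simpa using le_antisymm this (norm_nonneg _)
  refine ⟨l, z l, (z l)⁻¹ • z, h0, ?_, ?_, ?_⟩
  · rw [smul_smul, mul_inv_cancel₀ h0, one_smul]
  · simp [h0]
  · rw [pi_norm_le_iff_of_nonneg zero_le_one]
    intro i
    rw [Pi.smul_apply, smul_eq_mul, norm_mul, norm_inv, inv_mul_le_iff₀ (norm_pos_iff.2 h0),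
      mul_one]
    exact hl i

/-- nondegeneracy from the Pfaffians at the points of the compact set -/
theorem nondeg_of_pf {Ω : V → Bil} (h : IsForm Ω)
    (hp : ∀ (l : Fin 3) (z : V), z l = 1 → ‖z‖ ≤ 1 → pf (Ω z) (ee l) (ff l) ≠ 0) : Nondeg Ω := by
  intro z hz v hv
  obtain ⟨l, c, y, hc, rfl, hy, hy1⟩ := exists_scale hz
  have hy0 := ne_zero_of hy
  obtain ⟨k, hk⟩ := nondeg_at h hy (hp l y hy hy1) (c⁻¹ • v) (by
    intro w
    rw [← h.inv y hy0 c hc, smul_smul, mul_inv_cancel₀ hc, one_smul, hv])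
  refine ⟨k, ?_⟩
  rw [smul_comm, ← hk, smul_smul, mul_inv_cancel₀ hc, one_smul]

end Pool.Agent.K6.H10.SY
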