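import Pool.Agent.K6.H10.SY.Sign

/-!
# Smooth families of forms
-/

set_option autoImplicit false

open scoped ContDiff Topology ComplexConjugate

noncomputable section

namespace Pool.Agent.K6.H10.SY

section slices

variable {E : Type} [NormedAddCommGroup E] [NormedSpace ℝ E]

theorem slice_smooth {G : Type} [NormedAddCommGroup G] [NormedSpace ℝ G] {O : Set (E × V)}
    (hO : IsOpen O) {F : E → V → G} (hF : ContDiffOn ℝ ∞ (fun p : E × V => F p.1 p.2) O) :
    ContDiffOn ℝ ∞ (fun p : E × V => fderiv ℝ (F p.1) p.2) O := by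
  have h1 : ContDiffOn ℝ ∞ (fun p => (fderiv ℝ (fun p : E × V => F p.1 p.2) p).comp
      (ContinuousLinearMap.inr ℝ E V)) O :=
    (hF.fderiv_of_isOpen hO (by simp)).clm_comp contDiffOn_const
  refine h1.congr fun p hp => ?_
  have h2 : HasFDerivAt (fun p : E × V => F p.1 p.2)
      (fderiv ℝ (fun p : E × V => F p.1 p.2) (p.1, p.2)) (p.1, p.2) :=
    ((hF.contDiffAt (hO.mem_nhds hp)).differentiableAt (by simp)).hasFDerivAt
  have h3 : HasFDerivAt (fun z : V => (p.1, z)) (ContinuousLinearMap.inr ℝ E V) p.2 :=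
    hasFDerivAt_prodMk_right p.1 p.2
  exact (HasFDerivAt.comp p.2 h2 h3).fderiv

theorem slice_jet (j : ℕ) : ∀ {G : Type} [NormedAddCommGroup G] [NormedSpace ℝ G]
    {O : Set (E × V)} (_ : IsOpen O) {F : E → V → G}
    (_ : ContDiffOn ℝ ∞ (fun p : E × V => F p.1 p.2) O),
    ContinuousOn (fun p : E × V => iteratedFDeriv ℝ j (F p.1) p.2) O := by
  induction j with
  | zero =>
    intro G _ _ O hO F hF
    have h : (fun p : E × V => iteratedFDeriv ℝ 0 (F p.1) p.2) =
        fun p => (continuousMultilinearCurryFin0 ℝ V G).symm (F p.1 p.2) := by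
      funext p
      rfl
    rw [h]
    exact (LinearIsometryEquiv.continuous _).comp_continuousOn hF.continuousOn
  | succ j ih =>
    intro G _ _ O hO F hF
    have h1 := ih hO (F := fun ε z => fderiv ℝ (F ε) z) (slice_smooth hO hF)
    have h : (fun p : E × V => iteratedFDeriv ℝ (j + 1) (F p.1) p.2) =
        fun p => (continuousMultilinearCurryRightEquiv' ℝ j V G).symm
          (iteratedFDeriv ℝ j (fun z => fderiv ℝ (F p.1) z) p.2) := by
      funext p
      exact iteratedFDeriv_succ_eq_comp_right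
    rw [h]
    exact (LinearIsometryEquiv.continuous _).comp_continuousOn h1

end slices

/-- maps to the space of forms -/
theorem continuous_forms {A : Type} [TopologicalSpace A] {φ : A → Forms}
    (h : ∀ v w j, Continuous fun a => jet v w j (φ a)) : Continuous φ :=
  continuous_induced_rng.2 (continuous_pi fun q => h q.1 q.2.1 q.2.2)

theorem continuous_jet (v w : V) (j : ℕ) : Continuous (jet v w j) := by
  have h : Continuous fun Ω : Forms => fun q : V × V × ℕ => jet q.1 q.2.1 q.2.2 Ω :=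
    continuous_induced_dom
  exact (continuous_apply (v, w, j)).comp h

/-- linear combinations -/
theorem IsForm.comb {Ω₁ Ω₂ : V → Bil} (h₁ : IsForm Ω₁) (h₂ : IsForm Ω₂) (a b : ℝ) :
    IsForm (a • Ω₁ + b • Ω₂) where
  zero := by
    ext v w
    simp [h₁.zero, h₂.zero]
  smooth := (h₁.smooth.const_smul a).add (h₂.smooth.const_smul b)
  alt z v := by simp [h₁.alt, h₂.alt]
  inv z hz c hc v w := by simp [h₁.inv z hz c hc, h₂.inv z hz c hc]
  hor z hz c w := by simp only [Pi.add_apply, Pi.smul_apply, add_apply, smul_apply,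
    h₁.hor z hz, h₂.hor z hz]; simp

/-- the linear combination of two forms -/
def comb (a b : ℝ) (Ω₁ Ω₂ : Forms) : Forms := ⟨a • Ω₁.1 + b • Ω₂.1, Ω₁.2.comb Ω₂.2 a b⟩

theorem jet_comb (v w : V) (j : ℕ) (a b : ℝ) (Ω₁ Ω₂ : Forms) :
    jet v w j (comb a b Ω₁ Ω₂) = a • jet v w j Ω₁ + b • jet v w j Ω₂ := by
  ext1 z
  have h1 : ContDiffAt ℝ j (fun y => Ω₁.1 y v w) z :=
    ((coef_smooth Ω₁.2.smooth v w).contDiffAt (isOpen_V'.mem_nhds z.2)).of_le
      (by exact_mod_cast le_top)
  have h2 : ContDiffAt ℝ j (fun y => Ω₂.1 y v w) z :=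
    ((coef_smooth Ω₂.2.smooth v w).contDiffAt (isOpen_V'.mem_nhds z.2)).of_le
      (by exact_mod_cast le_top)
  have h3 : (fun y => (comb a b Ω₁ Ω₂).1 y v w) =
      (a • fun y => Ω₁.1 y v w) + (b • fun y => Ω₂.1 y v w) := by
    funext y
    rfl
  show iteratedFDeriv ℝ j (fun y => (comb a b Ω₁ Ω₂).1 y v w) z =
    a • iteratedFDeriv ℝ j (fun y => Ω₁.1 y v w) z +
      b • iteratedFDeriv ℝ j (fun y => Ω₂.1 y v w) z
  have h4 : ContDiffAt ℝ j (a • fun y => Ω₁.1 y v w) z := h1.const_smul a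
  have h5 : ContDiffAt ℝ j (b • fun y => Ω₂.1 y v w) z := h2.const_smul b
  rw [h3, iteratedFDeriv_add_apply h4 h5,
    iteratedFDeriv_const_smul_apply h1, iteratedFDeriv_const_smul_apply h2]

theorem continuous_comb {A : Type} [TopologicalSpace A] {a b : A → ℝ} {Ω₁ Ω₂ : A → Forms}
    (ha : Continuous a) (hb : Continuous b) (h₁ : Continuous Ω₁) (h₂ : Continuous Ω₂) :
    Continuous fun x => comb (a x) (b x) (Ω₁ x) (Ω₂ x) := by
  refine continuous_forms fun v w j => ?_
  simp only [jet_comb]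
  exact (ha.smul ((continuous_jet v w j).comp h₁)).add
    (hb.smul ((continuous_jet v w j).comp h₂))

/-- smooth families of forms are continuous -/
theorem continuous_family {E : Type} [NormedAddCommGroup E] [NormedSpace ℝ E] {S : Set E}
    (hS : IsOpen S) {T : E → V → Bil} (hT : ∀ e ∈ S, IsForm (T e))
    (hs : ContDiffOn ℝ ∞ (fun p : E × V => T p.1 p.2) (S ×ˢ V'))
    {A : Type} [TopologicalSpace A] {g : A → E} (hg : Continuous g) (hg0 : ∀ a, g a ∈ S) :
    Continuous fun a => (⟨T (g a), hT _ (hg0 a)⟩ : Forms) := by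
  refine continuous_forms fun v w j => ?_
  refine ContinuousMap.continuous_of_continuous_uncurry _ ?_
  have h1 : ContDiffOn ℝ ∞ (fun p : E × V => T p.1 p.2 v w) (S ×ˢ V') :=
    (hs.clm_apply contDiffOn_const).clm_apply contDiffOn_const
  have h2 := slice_jet j (hS.prod isOpen_V') (F := fun ε z => T ε z v w) h1
  exact h2.comp_continuous (f := fun q : A × V' => (g q.1, (q.2 : V)))
    ((hg.comp continuous_fst).prodMk (continuous_subtype_val.comp continuous_snd))
    (fun q => ⟨hg0 q.1, q.2.2⟩)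

end Pool.Agent.K6.H10.SY
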