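import Pool.Agent.K6.H10.SY.Slice

/-!
# The explicit formula of the forms `tau`
-/

set_option autoImplicit false

open scoped ContDiff Topology ComplexConjugate

noncomputable section

namespace Pool.Agent.K6.H10.SY

open Complex (I)

/-- homogeneous holomorphic functions of degree `d` -/
structure Sec (d : ℕ) (s : Fin 2 → V → ℂ) : Prop where
  smooth : ∀ j, ContDiff ℂ ∞ (s j)
  hom : ∀ j (c : ℂ) (z : V), s j (c • z) = c ^ d * s j z

/-- the hermitian product -/
def hp (z w : V) : ℂ := ∑ k, conj (z k) * w k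

/-- the derivative -/
def ds (s : Fin 2 → V → ℂ) (j : Fin 2) (z v : V) : ℂ := fderiv ℂ (s j) z v

/-- the second derivative -/
def dds (s : Fin 2 → V → ℂ) (j : Fin 2) (z v w : V) : ℂ :=
  fderiv ℂ (fderiv ℂ (s j)) z v w

/-- the holomorphic derivative of `Phi` -/
def hh (d : ℕ) (s : Fin 2 → V → ℂ) (ε : ℝ) (z w : V) : ℂ :=
  ∑ j, conj (s j z) * ds s j z w + ((ε * (d * nsq z ^ (d - 1)) : ℝ) : ℂ) * hp z w

/-- the mixed second derivative of `Phi` -/
def qq (d : ℕ) (s : Fin 2 → V → ℂ) (ε : ℝ) (z v w : V) : ℂ :=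
  ∑ j, conj (ds s j z v) * ds s j z w +
    ((ε * (d * (((d - 1 : ℕ) : ℝ) * nsq z ^ (d - 1 - 1))) : ℝ) : ℂ) * (conj (hp z v) * hp z w) +
    ((ε * (d * nsq z ^ (d - 1)) : ℝ) : ℂ) * hp v w

/-- the hermitian form `Φ q - \bar h h` -/
def herm (d : ℕ) (s : Fin 2 → V → ℂ) (ε : ℝ) (z v w : V) : ℂ :=
  Phi d s ε z * qq d s ε z v w - conj (hh d s ε z v) * hh d s ε z w

variable {d : ℕ} {s : Fin 2 → V → ℂ}

theorem line {G : Type} [NormedAddCommGroup G] [NormedSpace ℝ G] {f : V → G} {f' : V →L[ℝ] G}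
    {z : V} (h : HasFDerivAt f f' z) (v : V) :
    HasDerivAt (fun t : ℝ => f (z + t • v)) (f' v) 0 := by
  have h1 : HasDerivAt (fun t : ℝ => z + t • v) v 0 := by
    simpa using ((hasDerivAt_id (0 : ℝ)).smul_const v).const_add z
  have h2 : HasFDerivAt f f' (z + (0 : ℝ) • v) := by simpa using h
  exact h2.comp_hasDerivAt (0 : ℝ) h1

theorem Sec.diff (hs : Sec d s) (j : Fin 2) (z : V) : HasFDerivAt (s j)
    ((fderiv ℂ (s j) z).restrictScalars ℝ) z :=
  (((hs.smooth j).differentiable (by simp)).differentiableAt.hasFDerivAt).restrictScalars ℝ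

theorem Sec.line (hs : Sec d s) (j : Fin 2) (z v : V) :
    HasDerivAt (fun t : ℝ => s j (z + t • v)) (ds s j z v) 0 :=
  SY.line (hs.diff j z) v

theorem Sec.line2 (hs : Sec d s) (j : Fin 2) (z v w : V) :
    HasDerivAt (fun t : ℝ => ds s j (z + t • v) w) (dds s j z v w) 0 := by
  have h1 : ContDiff ℂ 1 (fderiv ℂ (s j)) :=
    (hs.smooth j).fderiv_right (by norm_cast)
  have h2 : HasFDerivAt (fderiv ℂ (s j)) (fderiv ℂ (fderiv ℂ (s j)) z) z :=
    (h1.differentiable (by simp)).differentiableAt.hasFDerivAt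
  have h3 : HasFDerivAt (fun y => fderiv ℂ (s j) y w)
      ((ContinuousLinearMap.apply ℂ ℂ w).comp (fderiv ℂ (fderiv ℂ (s j)) z)) z :=
    (ContinuousLinearMap.apply ℂ ℂ w).hasFDerivAt.comp z h2
  exact SY.line (h3.restrictScalars ℝ) v

theorem Sec.symm (hs : Sec d s) (j : Fin 2) (z v w : V) :
    dds s j z v w = dds s j z w v := by
  have h : IsSymmSndFDerivAt ℂ (s j) z :=
    ((hs.smooth j).contDiffAt (x := z)).isSymmSndFDerivAt
      (by simp; exact WithTop.coe_le_coe.2 le_top)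
  exact h v w

theorem nsq_line (z v : V) :
    HasDerivAt (fun t : ℝ => nsq (z + t • v)) (2 * (hp z v).re) 0 := by
  have h1 : ∀ k, HasDerivAt (fun t : ℝ => ‖(z + t • v) k‖ ^ 2)
      (2 * (conj (z k) * v k).re) 0 := by
    intro k
    have h2 : HasDerivAt (fun t : ℝ => (z + t • v) k) (v k) 0 := by
      have h3 := (((hasDerivAt_id (0 : ℝ)).smul_const (v k)).const_add (z k))
      simpa using h3
    have h4 := h2.norm_sq
    simp only [zero_smul, add_zero, Complex.inner] at h4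
    rw [mul_comm (conj _)]
    exact h4
  have h2 := HasDerivAt.fun_sum (u := Finset.univ) fun k (_ : k ∈ Finset.univ) => h1 k
  unfold nsq hp
  rw [Complex.re_sum, Finset.mul_sum]
  exact h2

theorem phi_line (hs : Sec d s) (ε : ℝ) (z v : V) :
    HasDerivAt (fun t : ℝ => Phi d s ε (z + t • v)) (2 * (hh d s ε z v).re) 0 := by
  have h1 : ∀ j, HasDerivAt (fun t : ℝ => ‖s j (z + t • v)‖ ^ 2)
      (2 * (conj (s j z) * ds s j z v).re) 0 := by
    intro j
    have h4 := (hs.line j z v).norm_sq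
    simp only [zero_smul, add_zero, Complex.inner] at h4
    rw [mul_comm (conj _)]
    exact h4
  have h2 := HasDerivAt.fun_sum (u := Finset.univ) fun k (_ : k ∈ Finset.univ) => h1 k
  have h3 := ((nsq_line z v).pow d).const_mul ε
  have h4 := h2.add h3
  simp only [zero_smul, add_zero] at h4
  refine h4.congr_deriv ?_
  rw [hh, Complex.add_re, Complex.re_sum, Complex.re_ofReal_mul, mul_add, Finset.mul_sum]
  ring

theorem hh_line (hs : Sec d s) (ε : ℝ) (z v w : V) :
    HasDerivAt (fun t : ℝ => hh d s ε (z + t • v) w)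
      (∑ j, (conj (ds s j z v) * ds s j z w + conj (s j z) * dds s j z v w) +
        (((ε * (d * (((d - 1 : ℕ) : ℝ) * nsq z ^ (d - 1 - 1) * (2 * (hp z v).re))) : ℝ) : ℂ) *
          hp z w + ((ε * (d * nsq z ^ (d - 1)) : ℝ) : ℂ) * hp v w)) 0 := by
  have h1 : ∀ j, HasDerivAt (fun t : ℝ => conj (s j (z + t • v)) * ds s j (z + t • v) w)
      (conj (ds s j z v) * ds s j z w + conj (s j z) * dds s j z v w) 0 := by
    intro j
    have h2 : HasDerivAt (fun t : ℝ => conj (s j (z + t • v))) (conj (ds s j z v)) 0 :=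
      (Complex.conjCLE : ℂ →L[ℝ] ℂ).hasFDerivAt.comp_hasDerivAt (0 : ℝ) (hs.line j z v)
    have h3 := h2.mul (hs.line2 j z v w)
    simp only [zero_smul, add_zero] at h3
    exact h3
  have h2 := HasDerivAt.fun_sum (u := Finset.univ) fun k (_ : k ∈ Finset.univ) => h1 k
  have h3 : HasDerivAt (fun t : ℝ => ((ε * (d * nsq (z + t • v) ^ (d - 1)) : ℝ) : ℂ))
      ((ε * (d * (((d - 1 : ℕ) : ℝ) * nsq z ^ (d - 1 - 1) * (2 * (hp z v).re))) : ℝ) : ℂ) 0 := by
    have h4 := ((((nsq_line z v).pow (d - 1)).const_mul (d : ℝ)).const_mul ε).ofReal_comp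
    simp only [zero_smul, add_zero] at h4
    exact h4
  have h5 : HasDerivAt (fun t : ℝ => hp (z + t • v) w) (hp v w) 0 := by
    have h6 : ∀ k, HasDerivAt (fun t : ℝ => conj ((z + t • v) k) * w k)
        (conj (v k) * w k) 0 := by
      intro k
      have h2 : HasDerivAt (fun t : ℝ => (z + t • v) k) (v k) 0 := by
        have h3 := (((hasDerivAt_id (0 : ℝ)).smul_const (v k)).const_add (z k))
        simpa using h3
      have h7 : HasDerivAt (fun t : ℝ => conj ((z + t • v) k)) (conj (v k)) 0 :=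
        (Complex.conjCLE : ℂ →L[ℝ] ℂ).hasFDerivAt.comp_hasDerivAt (0 : ℝ) h2
      exact h7.mul_const (w k)
    exact HasDerivAt.fun_sum (u := Finset.univ) fun k (_ : k ∈ Finset.univ) => h6 k
  have h6 := h2.add (h3.mul h5)
  simp only [zero_smul, add_zero] at h6
  exact h6

end Pool.Agent.K6.H10.SY
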