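import Pool.Agent.K6.H10.SY.Tau1

/-!
# The explicit formula of the forms `tau`, continued
-/

set_option autoImplicit false

open scoped ContDiff Topology ComplexConjugate

noncomputable section

namespace Pool.Agent.K6.H10.SY

open Complex (I)

variable {d : ℕ} {s : Fin 2 → V → ℂ}

theorem nsq_smooth : ContDiff ℝ ∞ nsq := by
  unfold nsq
  refine ContDiff.sum fun k _ => ?_
  exact (contDiff_apply ℝ ℂ k).norm_sq ℝ

theorem Phi_smooth (hs : Sec d s) : ContDiff ℝ ∞ (fun p : ℝ × V => Phi d s p.1 p.2) := by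
  unfold Phi
  refine (ContDiff.sum fun j _ => ?_).add (contDiff_fst.mul ((nsq_smooth.comp contDiff_snd).pow d))
  exact (((hs.smooth j).restrict_scalars ℝ).comp contDiff_snd).norm_sq ℝ

theorem nsq_pos {z : V} (hz : z ≠ 0) : 0 < nsq z := by
  obtain ⟨k, hk⟩ := Function.ne_iff.1 hz
  refine Finset.sum_pos' (fun _ _ => by positivity) ⟨k, Finset.mem_univ _, ?_⟩
  have : 0 < ‖z k‖ := norm_pos_iff.2 hk
  positivity

theorem Phi_pos {ε : ℝ} (hε : 0 < ε) {z : V} (hz : z ≠ 0) : 0 < Phi d s ε z := by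
  have := nsq_pos hz
  unfold Phi
  positivity

theorem Phi_diff (hs : Sec d s) (ε : ℝ) : ContDiff ℝ ∞ (Phi d s ε) :=
  (Phi_smooth hs).comp (contDiff_prodMk_right ε)

theorem fderiv_Phi (hs : Sec d s) (ε : ℝ) (z v : V) :
    fderiv ℝ (Phi d s ε) z v = 2 * (hh d s ε z v).re := by
  have h1 : HasFDerivAt (Phi d s ε) (fderiv ℝ (Phi d s ε) z) z :=
    ((Phi_diff hs ε).differentiable (by simp)).differentiableAt.hasFDerivAt
  exact (line h1 v).unique (phi_line hs ε z v)

theorem hp_smul (c : ℂ) (z w : V) : hp z (c • w) = c * hp z w := by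
  simp only [hp, Pi.smul_apply, smul_eq_mul, Finset.mul_sum]
  exact Finset.sum_congr rfl fun k _ => by ring

theorem ds_smul (j : Fin 2) (c : ℂ) (z w : V) : ds s j z (c • w) = c * ds s j z w := by
  simp [ds]

theorem hh_smul (ε : ℝ) (c : ℂ) (z w : V) : hh d s ε z (c • w) = c * hh d s ε z w := by
  simp only [hh, hp_smul, ds_smul, mul_add, Finset.mul_sum]
  congr 1
  · exact Finset.sum_congr rfl fun k _ => by ring
  · ring

theorem dc_log (hs : Sec d s) (ε : ℝ) {z : V} (hz : Phi d s ε z ≠ 0) (w : V) :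
    dc (fun y => Real.log (Phi d s ε y)) z w = 2 * (hh d s ε z w).im / Phi d s ε z := by
  have h1 : HasFDerivAt (Phi d s ε) (fderiv ℝ (Phi d s ε) z) z :=
    ((Phi_diff hs ε).differentiable (by simp)).differentiableAt.hasFDerivAt
  have h2 : fderiv ℝ (fun y => Real.log (Phi d s ε y)) z =
      (Phi d s ε z)⁻¹ • fderiv ℝ (Phi d s ε) z := (h1.log hz).fderiv
  have h3 : mulI w = I • w := rfl
  rw [dc, h2]
  simp only [neg_apply, ContinuousLinearMap.comp_apply, smul_apply, smul_eq_mul, h3,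
    fderiv_Phi hs, hh_smul]
  simp only [Complex.mul_re, Complex.I_re, Complex.I_im]
  field_simp
  ring

/-- joint smoothness of the one-forms -/
theorem dc_smooth {E : Type} [NormedAddCommGroup E] [NormedSpace ℝ E] {F : E → V → ℝ}
    {O : Set (E × V)} (hO : IsOpen O)
    (hF : ContDiffOn ℝ ∞ (fun p : E × V => F p.1 p.2) O) :
    ContDiffOn ℝ ∞ (fun p : E × V => dc (F p.1) p.2) O := by
  unfold dc
  exact ((slice_smooth hO hF).clm_comp contDiffOn_const).neg

/-- joint smoothness of the exterior derivative -/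
theorem ext_smooth {E : Type} [NormedAddCommGroup E] [NormedSpace ℝ E] {F : E → V → Lin}
    {O : Set (E × V)} (hO : IsOpen O)
    (hF : ContDiffOn ℝ ∞ (fun p : E × V => F p.1 p.2) O) :
    ContDiffOn ℝ ∞ (fun p : E × V => ext (F p.1) p.2) O := by
  have h1 := slice_smooth hO hF
  have h2 : ∀ v w, ContDiffOn ℝ ∞ (fun p : E × V => ext (F p.1) p.2 v w) O := fun v w =>
    ((h1.clm_apply contDiffOn_const).clm_apply contDiffOn_const).sub
      ((h1.clm_apply contDiffOn_const).clm_apply contDiffOn_const)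
  exact contDiffOn_clm_apply.2 fun v => contDiffOn_clm_apply.2 fun w => h2 v w

theorem log_smooth (hs : Sec d s) :
    ContDiffOn ℝ ∞ (fun p : ℝ × V => Real.log (Phi d s p.1 p.2)) (Set.Ioi 0 ×ˢ V') :=
  (Phi_smooth hs).contDiffOn.log fun _ hp => (Phi_pos hp.1 hp.2).ne'

theorem alpha_smooth (hs : Sec d s) :
    ContDiffOn ℝ ∞ (fun p : ℝ × V => dc (fun y => Real.log (Phi d s p.1 y)) p.2)
      (Set.Ioi 0 ×ˢ V') :=
  dc_smooth (F := fun ε y => Real.log (Phi d s ε y)) (isOpen_Ioi.prod isOpen_V') (log_smooth hs)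

theorem tau_smooth (hs : Sec d s) :
    ContDiffOn ℝ ∞ (fun p : ℝ × V => tau d s p.1 p.2) (Set.Ioi 0 ×ˢ V') := by
  have h1 := ext_smooth (F := fun ε => dc (fun y => Real.log (Phi d s ε y)))
    (isOpen_Ioi.prod isOpen_V') (alpha_smooth hs)
  refine (h1.const_smul (d : ℝ)⁻¹).congr fun p hp => ?_
  rw [tau, if_neg hp.2]

/-- restriction of smooth families to a parameter -/
theorem slice_contDiffOn {G : Type} [NormedAddCommGroup G] [NormedSpace ℝ G] {F : ℝ → V → G}
    (hF : ContDiffOn ℝ ∞ (fun p : ℝ × V => F p.1 p.2) (Set.Ioi 0 ×ˢ V')) {ε : ℝ} (hε : 0 < ε) :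
    ContDiffOn ℝ ∞ (F ε) V' :=
  hF.comp (contDiff_prodMk_right ε).contDiffOn fun _ hz => ⟨hε, hz⟩

end Pool.Agent.K6.H10.SY
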