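import Pool.Agent.K6.H10.SY.Tau2

/-!
# The explicit formula of the forms `tau`, continued
-/

set_option autoImplicit false

open scoped ContDiff Topology ComplexConjugate

noncomputable section

namespace Pool.Agent.K6.H10.SY

open Complex (I)

variable {d : ℕ} {s : Fin 2 → V → ℂ}

theorem hp_conj (v w : V) : hp w v = conj (hp v w) := by
  simp only [hp, map_sum, map_mul, Complex.conj_conj]
  exact Finset.sum_congr rfl fun k _ => mul_comm _ _

theorem alpha_line (hs : Sec d s) {ε : ℝ} (hε : 0 < ε) {z : V} (hz : z ≠ 0) (v w : V) :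
    (fderiv ℝ (dc fun y => Real.log (Phi d s ε y)) z v) w =
      2 * (((∑ j, (conj (ds s j z v) * ds s j z w + conj (s j z) * dds s j z v w) +
        (((ε * (d * (((d - 1 : ℕ) : ℝ) * nsq z ^ (d - 1 - 1) * (2 * (hp z v).re))) : ℝ) : ℂ) *
          hp z w + ((ε * (d * nsq z ^ (d - 1)) : ℝ) : ℂ) * hp v w) : ℂ)).im * Phi d s ε z -
        (hh d s ε z w).im * (2 * (hh d s ε z v).re)) / Phi d s ε z ^ 2 := by
  have hP := Phi_pos (d := d) (s := s) hε hz
  have h1 : HasFDerivAt (dc fun y => Real.log (Phi d s ε y))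
      (fderiv ℝ (dc fun y => Real.log (Phi d s ε y)) z) z := by
    have h2 := slice_contDiffOn (F := fun ε => dc fun y => Real.log (Phi d s ε y))
      (alpha_smooth hs) hε
    exact ((h2.contDiffAt (isOpen_V'.mem_nhds hz)).differentiableAt (by simp)).hasFDerivAt
  have h2 := line h1 v
  have h3 : HasDerivAt (fun t : ℝ => dc (fun y => Real.log (Phi d s ε y)) (z + t • v) w)
      ((fderiv ℝ (dc fun y => Real.log (Phi d s ε y)) z v) w) 0 :=
    (ContinuousLinearMap.apply ℝ ℝ w).hasFDerivAt.comp_hasDerivAt (0 : ℝ) h2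
  have hphi := phi_line hs ε z v
  have hev : (fun t : ℝ => dc (fun y => Real.log (Phi d s ε y)) (z + t • v) w) =ᶠ[𝓝 0]
      fun t => 2 * (hh d s ε (z + t • v) w).im / Phi d s ε (z + t • v) := by
    have h4 : ∀ᶠ t : ℝ in 𝓝 0, Phi d s ε (z + t • v) ≠ 0 := by
      have h5 := hphi.continuousAt.eventually_ne (y := 0) (by simpa using hP.ne')
      exact h5
    filter_upwards [h4] with t ht
    exact dc_log hs ε ht w
  have h4 : HasDerivAt (fun t : ℝ => (hh d s ε (z + t • v) w).im)
      ((∑ j, (conj (ds s j z v) * ds s j z w + conj (s j z) * dds s j z v w) +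
        (((ε * (d * (((d - 1 : ℕ) : ℝ) * nsq z ^ (d - 1 - 1) * (2 * (hp z v).re))) : ℝ) : ℂ) *
          hp z w + ((ε * (d * nsq z ^ (d - 1)) : ℝ) : ℂ) * hp v w) : ℂ)).im 0 :=
    Complex.imCLM.hasFDerivAt.comp_hasDerivAt (0 : ℝ) (hh_line hs ε z v w)
  have h5 := (h4.const_mul 2).div hphi (by simpa using hP.ne')
  have h6 := (h5.congr_of_eventuallyEq hev).unique h3
  rw [← h6]
  simp only [zero_smul, add_zero]
  ring

theorem ext_formula (hs : Sec d s) {ε : ℝ} (hε : 0 < ε) {z : V} (hz : z ≠ 0) (v w : V) :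
    ext (dc fun y => Real.log (Phi d s ε y)) z v w =
      4 / Phi d s ε z ^ 2 * (herm d s ε z v w).im := by
  have hP := Phi_pos (d := d) (s := s) hε hz
  show (fderiv ℝ (dc fun y => Real.log (Phi d s ε y)) z v) w -
    (fderiv ℝ (dc fun y => Real.log (Phi d s ε y)) z w) v = _
  rw [alpha_line hs hε hz, alpha_line hs hε hz, herm, qq]
  generalize Phi d s ε z = P at *
  generalize hh d s ε z v = a
  generalize hh d s ε z w = b
  simp only [Fin.sum_univ_two, hs.symm _ z w v, hp_conj v w]
  generalize dds s 0 z v w = e0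
  generalize dds s 1 z v w = e1
  generalize ds s 0 z v = a0
  generalize ds s 1 z v = a1
  generalize ds s 0 z w = b0
  generalize ds s 1 z w = b1
  generalize hp z v = p
  generalize hp z w = q
  generalize hp v w = r
  generalize s 0 z = s0
  generalize s 1 z = s1
  generalize nsq z = n
  simp only [Complex.add_im, Complex.mul_im, Complex.mul_re, Complex.sub_im, Complex.conj_re,
    Complex.conj_im, Complex.ofReal_re, Complex.ofReal_im, Complex.add_re]
  field_simp
  ring

end Pool.Agent.K6.H10.SY
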