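import Pool.Agent.K6.H10.SY.Tau3

/-!
# The hermitian form of `tau`
-/

set_option autoImplicit false

open scoped ContDiff Topology ComplexConjugate

noncomputable section

namespace Pool.Agent.K6.H10.SY

open Complex (I)

variable {d : ℕ} {s : Fin 2 → V → ℂ}

theorem hp_self (z : V) : hp z z = (nsq z : ℂ) := by
  simp only [hp, nsq, Complex.ofReal_sum, Complex.ofReal_pow, ← Complex.conj_mul']

theorem hp_smul_left (c : ℂ) (v w : V) : hp (c • v) w = conj c * hp v w := by
  simp only [hp, Pi.smul_apply, smul_eq_mul, Finset.mul_sum, map_mul]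
  exact Finset.sum_congr rfl fun k _ => by ring

theorem hp_add (z v w : V) : hp z (v + w) = hp z v + hp z w := by
  simp only [hp, Pi.add_apply, mul_add, Finset.sum_add_distrib]

theorem ds_add (j : Fin 2) (z v w : V) : ds s j z (v + w) = ds s j z v + ds s j z w := by
  simp [ds]

theorem hh_add (ε : ℝ) (z v w : V) :
    hh d s ε z (v + w) = hh d s ε z v + hh d s ε z w := by
  simp only [hh, hp_add, ds_add, Fin.sum_univ_two]
  ring

theorem qq_add (ε : ℝ) (z v w w' : V) :
    qq d s ε z v (w + w') = qq d s ε z v w + qq d s ε z v w' := by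
  simp only [qq, hp_add, ds_add, Fin.sum_univ_two]
  ring

theorem qq_smul (ε : ℝ) (z v w : V) (c : ℂ) :
    qq d s ε z v (c • w) = c * qq d s ε z v w := by
  simp only [qq, hp_smul, ds_smul, Fin.sum_univ_two]
  ring

theorem qq_conj (ε : ℝ) (z v w : V) : qq d s ε z w v = conj (qq d s ε z v w) := by
  simp only [qq, Fin.sum_univ_two, map_add, map_mul, Complex.conj_conj, Complex.conj_ofReal]
  rw [hp_conj v w]
  ring

theorem herm_add (ε : ℝ) (z v w w' : V) :
    herm d s ε z v (w + w') = herm d s ε z v w + herm d s ε z v w' := by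
  simp only [herm, hh_add, qq_add]
  ring

theorem herm_smul (ε : ℝ) (z v w : V) (c : ℂ) :
    herm d s ε z v (c • w) = c * herm d s ε z v w := by
  simp only [herm, hh_smul, qq_smul]
  ring

theorem herm_conj (ε : ℝ) (z v w : V) : herm d s ε z w v = conj (herm d s ε z v w) := by
  simp only [herm, map_sub, map_mul, Complex.conj_conj, Complex.conj_ofReal]
  rw [qq_conj ε z v w]
  ring

theorem herm_smul_left (ε : ℝ) (z v w : V) (c : ℂ) :
    herm d s ε z (c • v) w = conj c * herm d s ε z v w := by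
  rw [herm_conj ε z w (c • v), herm_smul, map_mul, ← herm_conj ε z w v]

theorem herm_add_left (ε : ℝ) (z v v' w : V) :
    herm d s ε z (v + v') w = herm d s ε z v w + herm d s ε z v' w := by
  rw [herm_conj ε z w (v + v'), herm_add, map_add, ← herm_conj ε z w v, ← herm_conj ε z w v']

theorem herm_self_im (ε : ℝ) (z v : V) : (herm d s ε z v v).im = 0 := by
  have h := congrArg Complex.im (herm_conj (d := d) (s := s) ε z v v)
  rw [Complex.conj_im] at h
  linarith

/-- Euler's formula -/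
theorem ds_self (hs : Sec d s) (j : Fin 2) (z : V) : ds s j z z = d * s j z := by
  have h1 := hs.line j z z
  have h2 : (fun t : ℝ => s j (z + t • z)) = fun t : ℝ => ((1 + t : ℝ) : ℂ) ^ d * s j z := by
    funext t
    rw [← hs.hom]
    congr 1
    funext i
    simp only [Pi.add_apply, Pi.smul_apply, Complex.real_smul, smul_eq_mul, Complex.ofReal_add,
      Complex.ofReal_one]
    ring
  have h3 : HasDerivAt (fun t : ℝ => ((1 + t : ℝ) : ℂ) ^ d * s j z) (d * s j z) 0 := by
    have h4 := (((hasDerivAt_id (0 : ℝ)).const_add 1).ofReal_comp.pow d).mul_const (s j z)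
    simpa using h4
  rw [h2] at h1
  exact h1.unique h3

theorem pow_sub_one_mul {d : ℕ} (hd : 0 < d) (x : ℝ) : x ^ (d - 1) * x = x ^ d := by
  rw [← pow_succ, Nat.sub_add_cancel hd]

theorem coef_pow (n : ℕ) (x : ℝ) : (n : ℝ) * x ^ (n - 1) * x = n * x ^ n := by
  rcases Nat.eq_zero_or_pos n with rfl | h
  · simp
  · rw [mul_assoc, pow_sub_one_mul h]

theorem cast_sub (hd : 0 < d) : (((d - 1 : ℕ) : ℝ)) = d - 1 := by
  rw [Nat.cast_sub hd]
  simp

theorem hh_self (hs : Sec d s) (hd : 0 < d) (ε : ℝ) (z : V) :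
    hh d s ε z z = d * Phi d s ε z := by
  have h1 := pow_sub_one_mul hd (nsq z)
  simp only [hh, Phi, ds_self hs, hp_self, Fin.sum_univ_two, ← h1, Complex.ofReal_add,
    Complex.ofReal_mul, Complex.ofReal_pow, ← Complex.conj_mul', Complex.ofReal_natCast]
  ring

theorem qq_self (hs : Sec d s) (hd : 0 < d) (ε : ℝ) (z w : V) :
    qq d s ε z z w = d * hh d s ε z w := by
  have h1 := coef_pow (d - 1) (nsq z)
  have h2 : (ε * (d * (((d - 1 : ℕ) : ℝ) * nsq z ^ (d - 1 - 1)))) * nsq z =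
      ε * (d * ((d - 1) * nsq z ^ (d - 1))) := by
    rw [← cast_sub hd]
    linear_combination ε * d * h1
  have h3 : (((ε * (d * (((d - 1 : ℕ) : ℝ) * nsq z ^ (d - 1 - 1)))) : ℝ) : ℂ) * (nsq z : ℂ) =
      ((ε * (d * ((d - 1) * nsq z ^ (d - 1))) : ℝ) : ℂ) := by
    rw [← h2]
    push_cast
    ring
  simp only [qq, hh, ds_self hs, hp_self, Fin.sum_univ_two, map_mul, Complex.conj_ofReal,
    Complex.conj_natCast]
  have h4 : ((ε * (d * ((d - 1) * nsq z ^ (d - 1))) : ℝ) : ℂ) =
    (d - 1 : ℂ) * ((ε * (d * nsq z ^ (d - 1)) : ℝ) : ℂ) := by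
    push_cast
    ring
  rw [h4] at h3
  linear_combination hp z w * h3

theorem herm_hor (hs : Sec d s) (hd : 0 < d) (ε : ℝ) (z w : V) (c : ℂ) :
    herm d s ε z (c • z) w = 0 := by
  rw [herm_smul_left]
  have : herm d s ε z z w = 0 := by
    rw [herm, qq_self hs hd, hh_self hs hd]
    simp only [map_mul, Complex.conj_ofReal, Complex.conj_natCast]
    ring
  rw [this, mul_zero]

/-- at `ε = 0` the hermitian form is that of `s₀ ds₁ - s₁ ds₀` -/
theorem herm_zero (z v w : V) : herm d s 0 z v w = conj (wr s z v) * wr s z w := by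
  have h1 : ∀ v, wr s z v = s 0 z * ds s 1 z v - s 1 z * ds s 0 z v := fun v => rfl
  rw [h1, h1]
  simp only [herm, qq, hh, Phi, Fin.sum_univ_two, zero_mul, add_zero, Complex.ofReal_zero,
    Complex.ofReal_add, Complex.ofReal_pow, ← Complex.conj_mul', map_add, map_mul, map_sub,
    Complex.conj_conj]
  ring

theorem cs_strict {z v : V} (hv : ¬ ∃ c : ℂ, v = c • z) (hz : z ≠ 0) :
    (hp z v).re ^ 2 + (hp z v).im ^ 2 < nsq z * nsq v := by
  have hid : nsq z * nsq v - ((hp z v).re ^ 2 + (hp z v).im ^ 2) =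
      ‖z 0 * v 1 - z 1 * v 0‖ ^ 2 + ‖z 1 * v 2 - z 2 * v 1‖ ^ 2 +
        ‖z 2 * v 0 - z 0 * v 2‖ ^ 2 := by
    simp only [nsq, hp, Fin.sum_univ_three, Complex.sq_norm, Complex.normSq_apply,
      Complex.add_re, Complex.add_im, Complex.mul_re, Complex.mul_im, Complex.sub_re,
      Complex.sub_im, Complex.conj_re, Complex.conj_im]
    ring
  by_contra hc
  rw [not_lt] at hc
  have h1 : ‖z 0 * v 1 - z 1 * v 0‖ ^ 2 + ‖z 1 * v 2 - z 2 * v 1‖ ^ 2 +
        ‖z 2 * v 0 - z 0 * v 2‖ ^ 2 ≤ 0 := by linarith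
  have e0 := sq_nonneg ‖z 0 * v 1 - z 1 * v 0‖
  have e1 := sq_nonneg ‖z 1 * v 2 - z 2 * v 1‖
  have e2 := sq_nonneg ‖z 2 * v 0 - z 0 * v 2‖
  have f0 : z 0 * v 1 = z 1 * v 0 := by
    rw [← sub_eq_zero, ← norm_eq_zero]
    exact pow_eq_zero_iff (two_ne_zero) |>.1 (by linarith)
  have f1 : z 1 * v 2 = z 2 * v 1 := by
    rw [← sub_eq_zero, ← norm_eq_zero]
    exact pow_eq_zero_iff (two_ne_zero) |>.1 (by linarith)
  have f2 : z 2 * v 0 = z 0 * v 2 := by
    rw [← sub_eq_zero, ← norm_eq_zero]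
    exact pow_eq_zero_iff (two_ne_zero) |>.1 (by linarith)
  have hpar : ∀ i j, z i * v j = z j * v i := by
    intro i j
    fin_cases i <;> fin_cases j <;> simp [f0, f1, f2]
  obtain ⟨k, hk⟩ := Function.ne_iff.1 hz
  apply hv
  refine ⟨v k / z k, ?_⟩
  funext i
  have h2 := hpar k i
  have hk' : z k ≠ 0 := hk
  simp only [Pi.smul_apply, smul_eq_mul]
  field_simp
  linear_combination h2

end Pool.Agent.K6.H10.SY
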