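import Pool.Agent.K6.H10.SY.Tau4

/-!
# Positivity of the hermitian form of `tau`
-/

set_option autoImplicit false

open scoped ContDiff Topology ComplexConjugate

noncomputable section

namespace Pool.Agent.K6.H10.SY

open Complex (I)

variable {d : ℕ} {s : Fin 2 → V → ℂ}

theorem num_pos (s0 s1 a0 a1 p : ℂ) {M C1 C2 N n2 ε dd m : ℝ} (hM : 0 < M)
    (hε : 0 < ε) (hC1 : 0 < C1) (hd' : dd = m + 1) (hdd : 0 < dd) (h1 : C2 * N = m * C1)
    (h2 : C1 * N = dd * M) (hg : p.re ^ 2 + p.im ^ 2 < N * n2) :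
    0 < (‖s0‖ ^ 2 + ‖s1‖ ^ 2 + ε * M) * (‖a0‖ ^ 2 + ‖a1‖ ^ 2 +
        ε * (C2 * (p.re ^ 2 + p.im ^ 2) + C1 * n2)) -
      (((conj s0 * a0 + conj s1 * a1 + ((ε * C1 : ℝ) : ℂ) * p)).re ^ 2 +
        ((conj s0 * a0 + conj s1 * a1 + ((ε * C1 : ℝ) : ℂ) * p)).im ^ 2) := by
  set F : ℝ := ‖s0‖ ^ 2 + ‖s1‖ ^ 2 with hF
  set A : ℝ := ‖a0‖ ^ 2 + ‖a1‖ ^ 2 with hA
  set a : ℂ := conj s0 * a0 + conj s1 * a1 with ha
  set g : ℝ := p.re ^ 2 + p.im ^ 2 with hgdef
  set D : ℝ := M * (C2 * g + C1 * n2) - C1 ^ 2 * g with hD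
  have hDpos : 0 < D := by
    have h3 : dd * D = C1 ^ 2 * (N * n2 - g) := by
      rw [hD]
      have : dd * (M * (C2 * g + C1 * n2) - C1 ^ 2 * g) =
        (C1 * N) * (C2 * g + C1 * n2) - dd * C1 ^ 2 * g := by rw [h2]; ring
      rw [this, hd']
      linear_combination C1 * g * h1
    have h4 : 0 < dd * D := by
      rw [h3]
      have : 0 < N * n2 - g := by linarith
      positivity
    exact (mul_pos_iff_of_pos_left hdd).1 h4
  have hF0 : 0 ≤ F := by positivity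
  have e1 : F * A - (a.re ^ 2 + a.im ^ 2) = ‖s0 * a1 - s1 * a0‖ ^ 2 := by
    rw [hF, hA, ha]
    simp only [Complex.sq_norm, Complex.normSq_apply,
      Complex.add_re, Complex.add_im, Complex.mul_re, Complex.mul_im, Complex.sub_re,
      Complex.sub_im, Complex.conj_re, Complex.conj_im]
    ring
  have e2 : F * (C1 ^ 2 * g) + M ^ 2 * A - 2 * M * C1 * (a.re * p.re + a.im * p.im) =
      ‖(M : ℂ) * a0 - (C1 : ℂ) * p * s0‖ ^ 2 + ‖(M : ℂ) * a1 - (C1 : ℂ) * p * s1‖ ^ 2 := by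
    rw [hF, hA, ha, hgdef]
    simp only [Complex.sq_norm, Complex.normSq_apply,
      Complex.add_re, Complex.add_im, Complex.mul_re, Complex.mul_im, Complex.sub_re,
      Complex.sub_im, Complex.conj_re, Complex.conj_im, Complex.ofReal_re, Complex.ofReal_im]
    ring
  set mid : ℝ := F * (C2 * g + C1 * n2) + M * A - 2 * C1 * (a.re * p.re + a.im * p.im) with hmid
  have hmid0 : 0 ≤ mid := by
    have h3 : M * mid = F * D + (‖(M : ℂ) * a0 - (C1 : ℂ) * p * s0‖ ^ 2 +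
        ‖(M : ℂ) * a1 - (C1 : ℂ) * p * s1‖ ^ 2) := by
      rw [← e2, hmid, hD]
      ring
    have h4 : 0 ≤ M * mid := by
      rw [h3]
      positivity
    exact (mul_nonneg_iff_of_pos_left hM).1 h4
  have e3 : (F + ε * M) * (A + ε * (C2 * g + C1 * n2)) -
      ((a + ((ε * C1 : ℝ) : ℂ) * p).re ^ 2 + (a + ((ε * C1 : ℝ) : ℂ) * p).im ^ 2) =
      ‖s0 * a1 - s1 * a0‖ ^ 2 + ε * mid + ε ^ 2 * D := by
    rw [← e1, hmid, hD, Complex.add_re, Complex.add_im, Complex.re_ofReal_mul,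
      Complex.im_ofReal_mul, hgdef]
    ring
  rw [e3]
  positivity

theorem herm_self_re (ε : ℝ) (z v : V) : (herm d s ε z v v).re =
    (‖s 0 z‖ ^ 2 + ‖s 1 z‖ ^ 2 + ε * nsq z ^ d) * (‖ds s 0 z v‖ ^ 2 + ‖ds s 1 z v‖ ^ 2 +
        ε * ((d * (((d - 1 : ℕ) : ℝ) * nsq z ^ (d - 1 - 1))) *
          ((hp z v).re ^ 2 + (hp z v).im ^ 2) + (d * nsq z ^ (d - 1)) * nsq v)) -
      (((conj (s 0 z) * ds s 0 z v + conj (s 1 z) * ds s 1 z v +
          ((ε * (d * nsq z ^ (d - 1)) : ℝ) : ℂ) * hp z v)).re ^ 2 +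
        ((conj (s 0 z) * ds s 0 z v + conj (s 1 z) * ds s 1 z v +
          ((ε * (d * nsq z ^ (d - 1)) : ℝ) : ℂ) * hp z v)).im ^ 2) := by
  have h1 : ∀ c : ℂ, (conj c * c).re = c.re ^ 2 + c.im ^ 2 := by
    intro c
    simp only [Complex.mul_re, Complex.conj_re, Complex.conj_im]
    ring
  have h2 : ∀ c : ℂ, ‖c‖ ^ 2 = c.re ^ 2 + c.im ^ 2 := by
    intro c
    rw [Complex.sq_norm, Complex.normSq_apply]
    ring
  simp only [herm, qq, hh, Phi, Fin.sum_univ_two, Complex.sub_re, h1, Complex.re_ofReal_mul,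
    Complex.add_re, hp_self, Complex.ofReal_re, h2]
  ring

theorem herm_pos (hd : 0 < d) {ε : ℝ} (hε : 0 < ε) {z : V} (hz : z ≠ 0) {v : V}
    (hv : ¬ ∃ c : ℂ, v = c • z) : 0 < (herm d s ε z v v).re := by
  rw [herm_self_re]
  have hN := nsq_pos hz
  have hd0 : (0 : ℝ) < d := by exact_mod_cast hd
  refine num_pos (s 0 z) (s 1 z) (ds s 0 z v) (ds s 1 z v) (hp z v) (N := nsq z)
    (dd := d) (m := ((d - 1 : ℕ) : ℝ)) (by positivity) hε (by positivity) ?_ hd0 ?_ ?_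
    (cs_strict hv hz)
  · rw [cast_sub hd]
    ring
  · have h1 := coef_pow (d - 1) (nsq z)
    linear_combination (d : ℝ) * h1
  · have h1 := pow_sub_one_mul hd (nsq z)
    linear_combination (d : ℝ) * h1

/-- the Cauchy-Schwarz inequality -/
theorem herm_cs {ε : ℝ} {z e f : V} (hf : 0 < (herm d s ε z f f).re)
    (h : 0 ≤ (herm d s ε z (((herm d s ε z f f).re : ℂ) • e + (-(herm d s ε z f e)) • f)
      (((herm d s ε z f f).re : ℂ) • e + (-(herm d s ε z f e)) • f)).re) :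
    (herm d s ε z e f).re ^ 2 + (herm d s ε z e f).im ^ 2 ≤
      (herm d s ε z e e).re * (herm d s ε z f f).re := by
  have i1 := herm_self_im (d := d) (s := s) ε z e
  have i2 := herm_self_im (d := d) (s := s) ε z f
  simp only [herm_add, herm_smul, herm_add_left, herm_smul_left] at h
  rw [herm_conj ε z e f] at h
  generalize herm d s ε z e f = c at *
  generalize herm d s ε z e e = a at *
  generalize herm d s ε z f f = b at *
  simp only [Complex.add_re, Complex.mul_re, Complex.add_im, Complex.mul_im, Complex.neg_re,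
    Complex.neg_im, Complex.conj_re, Complex.conj_im, Complex.ofReal_re, Complex.ofReal_im,
    map_neg, Complex.conj_conj, i1, i2] at h
  have h1 : 0 ≤ b.re * (a.re * b.re - (c.re ^ 2 + c.im ^ 2)) := by
    refine h.trans_eq ?_
    ring
  have h2 := (mul_nonneg_iff_of_pos_left hf).1 h1
  linarith

end Pool.Agent.K6.H10.SY
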