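import Pool.Agent.K6.H10.SY.Tau5

/-!
# The forms `tau` are symplectic forms in the class of the Fubini-Study form
-/

set_option autoImplicit false

open scoped ContDiff Topology ComplexConjugate

noncomputable section

namespace Pool.Agent.K6.H10.SY

open Complex (I)

variable {d : ℕ} {s : Fin 2 → V → ℂ}

theorem ds_scale (hs : Sec d s) (j : Fin 2) (c : ℂ) (z v : V) :
    ds s j (c • z) (c • v) = c ^ d * ds s j z v := by
  have h1 := hs.line j (c • z) (c • v)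
  have h2 : (fun t : ℝ => s j (c • z + t • (c • v))) = fun t : ℝ => c ^ d * s j (z + t • v) := by
    funext t
    rw [← hs.hom, smul_add, smul_comm c t v]
  rw [h2] at h1
  exact h1.unique ((hs.line j z v).const_mul (c ^ d))

theorem hp_scale (c : ℂ) (z w : V) : hp (c • z) (c • w) = ((‖c‖ ^ 2 : ℝ) : ℂ) * hp z w := by
  rw [hp_smul, hp_smul_left, ← mul_assoc, mul_comm c, Complex.conj_mul']
  push_cast
  ring

theorem nsq_scale (c : ℂ) (z : V) : nsq (c • z) = ‖c‖ ^ 2 * nsq z := by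
  simp only [nsq, Pi.smul_apply, smul_eq_mul, norm_mul, mul_pow, Finset.mul_sum]

theorem Phi_scale (hs : Sec d s) (ε : ℝ) (c : ℂ) (z : V) :
    Phi d s ε (c • z) = (‖c‖ ^ 2) ^ d * Phi d s ε z := by
  simp only [Phi, hs.hom, norm_mul, norm_pow, nsq_scale, Fin.sum_univ_two]
  ring

theorem cc_pow (c : ℂ) : conj (c ^ d) * c ^ d = (((‖c‖ ^ 2) ^ d : ℝ) : ℂ) := by
  rw [map_pow, ← mul_pow, Complex.conj_mul']
  push_cast
  ring

theorem hh_scale (hs : Sec d s) (hd : 0 < d) (ε : ℝ) (c : ℂ) (z w : V) :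
    hh d s ε (c • z) (c • w) = (((‖c‖ ^ 2) ^ d : ℝ) : ℂ) * hh d s ε z w := by
  have h1 := pow_sub_one_mul hd (‖c‖ ^ 2)
  have h2 : ((ε * (d * (‖c‖ ^ 2 * nsq z) ^ (d - 1)) : ℝ) : ℂ) * ((‖c‖ ^ 2 : ℝ) : ℂ) =
      (((‖c‖ ^ 2) ^ d : ℝ) : ℂ) * ((ε * (d * nsq z ^ (d - 1)) : ℝ) : ℂ) := by
    rw [← Complex.ofReal_mul, ← Complex.ofReal_mul, ← h1]
    congr 1
    ring
  have h3 := cc_pow (d := d) c
  simp only [hh, hs.hom, ds_scale hs, hp_scale, nsq_scale, Fin.sum_univ_two, map_mul]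
  linear_combination (conj (s 0 z) * ds s 0 z w + conj (s 1 z) * ds s 1 z w) * h3 + hp z w * h2

theorem qq_scale (hs : Sec d s) (hd : 0 < d) (ε : ℝ) (c : ℂ) (z v w : V) :
    qq d s ε (c • z) (c • v) (c • w) = (((‖c‖ ^ 2) ^ d : ℝ) : ℂ) * qq d s ε z v w := by
  have h1 := pow_sub_one_mul hd (‖c‖ ^ 2)
  have h2 : ((ε * (d * (‖c‖ ^ 2 * nsq z) ^ (d - 1)) : ℝ) : ℂ) * ((‖c‖ ^ 2 : ℝ) : ℂ) =
      (((‖c‖ ^ 2) ^ d : ℝ) : ℂ) * ((ε * (d * nsq z ^ (d - 1)) : ℝ) : ℂ) := by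
    rw [← Complex.ofReal_mul, ← Complex.ofReal_mul, ← h1]
    congr 1
    ring
  have h3 := cc_pow (d := d) c
  have h4 := coef_pow (d - 1) (‖c‖ ^ 2)
  have h5 : (((ε * (d * (((d - 1 : ℕ) : ℝ) * (‖c‖ ^ 2 * nsq z) ^ (d - 1 - 1)))) : ℝ) : ℂ) *
      (((‖c‖ ^ 2 : ℝ) : ℂ) * ((‖c‖ ^ 2 : ℝ) : ℂ)) = (((‖c‖ ^ 2) ^ d : ℝ) : ℂ) *
      ((ε * (d * (((d - 1 : ℕ) : ℝ) * nsq z ^ (d - 1 - 1))) : ℝ) : ℂ) := by
    rw [← Complex.ofReal_mul, ← Complex.ofReal_mul, ← Complex.ofReal_mul, ← h1]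
    congr 1
    rw [mul_pow]
    linear_combination (ε * d * nsq z ^ (d - 1 - 1) * ‖c‖ ^ 2) * h4
  simp only [qq, ds_scale hs, hp_scale, nsq_scale, Fin.sum_univ_two, map_mul,
    Complex.conj_ofReal]
  linear_combination (conj (ds s 0 z v) * ds s 0 z w + conj (ds s 1 z v) * ds s 1 z w) * h3 +
    (conj (hp z v) * hp z w) * h5 + hp v w * h2

theorem herm_scale (hs : Sec d s) (hd : 0 < d) (ε : ℝ) (c : ℂ) (z v w : V) :
    herm d s ε (c • z) (c • v) (c • w) =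
      ((((‖c‖ ^ 2) ^ d) ^ 2 : ℝ) : ℂ) * herm d s ε z v w := by
  simp only [herm, qq_scale hs hd, hh_scale hs hd, Phi_scale hs, map_mul, Complex.conj_ofReal]
  push_cast
  ring

/-- the value of `tau` -/
theorem tau_apply (hs : Sec d s) {ε : ℝ} (hε : 0 < ε) {z : V} (hz : z ≠ 0) (v w : V) :
    tau d s ε z v w = (d : ℝ)⁻¹ * (4 / Phi d s ε z ^ 2) * (herm d s ε z v w).im := by
  rw [tau, if_neg hz]
  show (d : ℝ)⁻¹ * ext (dc fun y => Real.log (Phi d s ε y)) z v w = _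
  rw [ext_formula hs hε hz]
  ring

theorem isForm_tau (hs : Sec d s) (hd : 0 < d) {ε : ℝ} (hε : 0 < ε) : IsForm (tau d s ε) where
  zero := by rw [tau, if_pos rfl]
  smooth := slice_contDiffOn (tau_smooth hs) hε
  alt z v := by
    by_cases hz : z = 0
    · rw [tau, if_pos hz]
      rfl
    · rw [tau_apply hs hε hz, herm_self_im, mul_zero]
  inv z hz c hc v w := by
    rw [tau_apply hs hε (smul_ne_zero hc hz), tau_apply hs hε hz, herm_scale hs hd,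
      Complex.im_ofReal_mul, Phi_scale hs]
    have h1 := Phi_pos (d := d) (s := s) hε hz
    have h2 : 0 < ‖c‖ := norm_pos_iff.2 hc
    have h3 : 0 < (‖c‖ ^ 2) ^ d := by positivity
    field_simp
  hor z hz c w := by
    rw [tau_apply hs hε hz, herm_hor hs hd, Complex.zero_im, mul_zero]

theorem kpos (hd : 0 < d) {ε : ℝ} (hε : 0 < ε) {z : V} (hz : z ≠ 0) :
    0 < (d : ℝ)⁻¹ * (4 / Phi d s ε z ^ 2) := by
  have h1 := Phi_pos (d := d) (s := s) hε hz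
  have hd0 : (0 : ℝ) < d := by exact_mod_cast hd
  positivity

theorem tau_pos (hs : Sec d s) (hd : 0 < d) {ε : ℝ} (hε : 0 < ε) {z : V} (hz : z ≠ 0) {v : V}
    (hv : ¬ ∃ c : ℂ, v = c • z) : 0 < tau d s ε z v (I • v) := by
  rw [tau_apply hs hε hz, herm_smul, Complex.mul_im, Complex.I_re, Complex.I_im, zero_mul,
    zero_add, one_mul]
  exact mul_pos (kpos hd hε hz) (herm_pos hd hε hz hv)

theorem herm_tau (hs : Sec d s) {ε : ℝ} (hε : 0 < ε) {z : V} (hz : z ≠ 0) (e f : V) :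
    Herm (tau d s ε z) e f
      ((d : ℝ)⁻¹ * (4 / Phi d s ε z ^ 2) * (herm d s ε z e e).re)
      ((d : ℝ)⁻¹ * (4 / Phi d s ε z ^ 2) * (herm d s ε z f f).re)
      (((d : ℝ)⁻¹ * (4 / Phi d s ε z ^ 2) : ℝ) * herm d s ε z e f) := by
  refine ⟨?_, ?_, ?_, ?_, ?_, ?_⟩ <;> rw [tau_apply hs hε hz] <;>
    simp only [herm_smul, herm_smul_left, Complex.mul_im, Complex.mul_re, Complex.I_re,
      Complex.I_im, Complex.conj_re, Complex.conj_im, Complex.ofReal_re, Complex.ofReal_im] <;>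
    ring

theorem pf_tau (hs : Sec d s) (hd : 0 < d) {ε : ℝ} (hε : 0 < ε) {l : Fin 3} {z : V}
    (hz : z l = 1) : 0 < pf (tau d s ε z) (ee l) (ff l) := by
  refine pf_of_tame (tame_of_pos ((isForm_tau hs hd hε).alt z) _ _ fun x y hxy => ?_)
  exact tau_pos hs hd hε (ne_zero_of hz) (frame_indep hz hxy)

theorem nondeg_tau (hs : Sec d s) (hd : 0 < d) {ε : ℝ} (hε : 0 < ε) : Nondeg (tau d s ε) :=
  nondeg_of_pf (isForm_tau hs hd hε) fun _ _ hz _ => (pf_tau hs hd hε hz).ne'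

theorem posOn_tau (hs : Sec d s) (hd : 0 < d) {ε : ℝ} (hε : 0 < ε) : PosOn s (tau d s ε) :=
  fun _ hz _ hv _ => tau_pos hs hd hε hz hv

end Pool.Agent.K6.H10.SY
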