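import Pool.Agent.K6.H10.SY.Tau6

/-!
# The class of the forms `tau`
-/

set_option autoImplicit false

open scoped ContDiff Topology ComplexConjugate

noncomputable section

namespace Pool.Agent.K6.H10.SY

open Complex (I)

variable {d : ℕ} {s : Fin 2 → V → ℂ}

/-- the sections for the Fubini-Study form -/
def s00 : Fin 2 → V → ℂ := fun _ _ => 0

theorem sec_zero : Sec 1 s00 where
  smooth _ := contDiff_const
  hom _ _ _ := by simp [s00]

theorem Phi_zero (z : V) : Phi 1 s00 1 z = nsq z := by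
  simp [Phi, s00]

theorem log_zero : (fun z : V => Real.log (nsq z)) = fun z => Real.log (Phi 1 s00 1 z) := by
  funext z
  rw [Phi_zero]

theorem alpha_contDiffOn (hs : Sec d s) {ε : ℝ} (hε : 0 < ε) :
    ContDiffOn ℝ ∞ (dc fun y => Real.log (Phi d s ε y)) V' :=
  slice_contDiffOn (F := fun ε => dc fun y => Real.log (Phi d s ε y)) (alpha_smooth hs) hε

theorem dc_scale (hs : Sec d s) (hd : 0 < d) {ε : ℝ} (hε : 0 < ε) {z : V} (hz : z ≠ 0) {c : ℂ}
    (hc : c ≠ 0) (v : V) :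
    dc (fun y => Real.log (Phi d s ε y)) (c • z) (c • v) =
      dc (fun y => Real.log (Phi d s ε y)) z v := by
  have h1 := Phi_pos (d := d) (s := s) hε hz
  have h2 : 0 < ‖c‖ := norm_pos_iff.2 hc
  have h3 : 0 < (‖c‖ ^ 2) ^ d := by positivity
  rw [dc_log hs ε (Phi_pos hε (smul_ne_zero hc hz)).ne', dc_log hs ε h1.ne', hh_scale hs hd,
    Complex.im_ofReal_mul, Phi_scale hs]
  field_simp

theorem dc_radial (hs : Sec d s) (hd : 0 < d) {ε : ℝ} (hε : 0 < ε) {z : V} (hz : z ≠ 0)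
    (c : ℂ) : dc (fun y => Real.log (Phi d s ε y)) z (c • z) = d * (2 * c.im) := by
  have h1 := Phi_pos (d := d) (s := s) hε hz
  rw [dc_log hs ε h1.ne', hh_smul, hh_self hs hd]
  have h2 : (c * (d * (Phi d s ε z : ℂ))).im = c.im * (d * Phi d s ε z) := by
    have : (d : ℂ) * (Phi d s ε z : ℂ) = ((d * Phi d s ε z : ℝ) : ℂ) := by push_cast; ring
    rw [this, Complex.im_mul_ofReal]
  rw [h2]
  field_simp

theorem ext_add {α β : V → Lin} {z : V} (ha : DifferentiableAt ℝ α z)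
    (hb : DifferentiableAt ℝ β z) (a b : ℝ) :
    ext (a • α + b • β) z = a • ext α z + b • ext β z := by
  have h1 : fderiv ℝ (a • α + b • β) z = a • fderiv ℝ α z + b • fderiv ℝ β z := by
    rw [fderiv_add (ha.const_smul a) (hb.const_smul b), fderiv_const_smul ha,
      fderiv_const_smul hb]
  ext v w
  show (fderiv ℝ (a • α + b • β) z v) w - (fderiv ℝ (a • α + b • β) z w) v =
    a * ((fderiv ℝ α z v) w - (fderiv ℝ α z w) v) + b * ((fderiv ℝ β z v) w - (fderiv ℝ β z w) v)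
  rw [h1]
  show (a * (fderiv ℝ α z v) w + b * (fderiv ℝ β z v) w) -
    (a * (fderiv ℝ α z w) v + b * (fderiv ℝ β z w) v) = _
  ring

theorem diffAt {α : V → Lin} (h : ContDiffOn ℝ ∞ α V') {z : V} (hz : z ≠ 0) :
    DifferentiableAt ℝ α z :=
  (h.contDiffAt (isOpen_V'.mem_nhds hz)).differentiableAt (by simp)

theorem inClass_tau (hs : Sec d s) (hd : 0 < d) {ε : ℝ} (hε : 0 < ε) :
    InClass (tau d s ε) := by
  have hd0 : (d : ℝ) ≠ 0 := by exact_mod_cast hd.ne'
  refine ⟨(d : ℝ)⁻¹ • (dc fun y => Real.log (Phi d s ε y)) +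
    (-1 : ℝ) • (dc fun y => Real.log (Phi 1 s00 1 y)), ⟨?_, ?_, ?_⟩, ?_⟩
  · exact ((alpha_contDiffOn hs hε).const_smul (d : ℝ)⁻¹).add
      ((alpha_contDiffOn sec_zero one_pos).const_smul (-1 : ℝ))
  · intro z hz c hc v
    show (d : ℝ)⁻¹ * dc (fun y => Real.log (Phi d s ε y)) (c • z) (c • v) +
      (-1) * dc (fun y => Real.log (Phi 1 s00 1 y)) (c • z) (c • v) =
      (d : ℝ)⁻¹ * dc (fun y => Real.log (Phi d s ε y)) z v +
      (-1) * dc (fun y => Real.log (Phi 1 s00 1 y)) z v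
    rw [dc_scale hs hd hε hz hc, dc_scale sec_zero one_pos one_pos hz hc]
  · intro z hz c
    show (d : ℝ)⁻¹ * dc (fun y => Real.log (Phi d s ε y)) z (c • z) +
      (-1) * dc (fun y => Real.log (Phi 1 s00 1 y)) z (c • z) = 0
    rw [dc_radial hs hd hε hz, dc_radial sec_zero one_pos one_pos hz]
    field_simp
    simp
  · intro z hz
    rw [ext_add (diffAt (alpha_contDiffOn hs hε) hz)
      (diffAt (alpha_contDiffOn sec_zero one_pos) hz), tau, if_neg hz, fs, if_neg hz, log_zero]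
    ext v w
    show (d : ℝ)⁻¹ * _ = ext (dc fun y => Real.log (Phi 1 s00 1 y)) z v w +
      ((d : ℝ)⁻¹ * _ + (-1) * ext (dc fun y => Real.log (Phi 1 s00 1 y)) z v w)
    ring

theorem InClass.comb {Ω₁ Ω₂ : V → Bil} (h₁ : InClass Ω₁) (h₂ : InClass Ω₂) {a b : ℝ}
    (hab : a + b = 1) : InClass (a • Ω₁ + b • Ω₂) := by
  obtain ⟨α, hα, h1⟩ := h₁
  obtain ⟨β, hβ, h2⟩ := h₂
  refine ⟨a • α + b • β, ⟨?_, ?_, ?_⟩, ?_⟩
  · exact (hα.smooth.const_smul a).add (hβ.smooth.const_smul b)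
  · intro z hz c hc v
    show a * α (c • z) (c • v) + b * β (c • z) (c • v) = a * α z v + b * β z v
    rw [hα.inv z hz c hc, hβ.inv z hz c hc]
  · intro z hz c
    show a * α z (c • z) + b * β z (c • z) = 0
    rw [hα.hor z hz, hβ.hor z hz, mul_zero, mul_zero, add_zero]
  · intro z hz
    rw [ext_add (diffAt hα.smooth hz) (diffAt hβ.smooth hz)]
    ext v w
    show a * Ω₁ z v w + b * Ω₂ z v w = fs z v w + (a * ext α z v w + b * ext β z v w)
    rw [h1 z hz, h2 z hz]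
    show a * (fs z v w + ext α z v w) + b * (fs z v w + ext β z v w) = _
    linear_combination (fs z v w) * hab

theorem PosOn.comb {Ω₁ Ω₂ : V → Bil} (h₁ : PosOn s Ω₁) (h₂ : PosOn s Ω₂) {a b : ℝ}
    (ha : 0 ≤ a) (hb : 0 ≤ b) (hab : a + b = 1) : PosOn s (a • Ω₁ + b • Ω₂) := by
  intro z hz v hv hw
  have e1 := h₁ z hz v hv hw
  have e2 := h₂ z hz v hv hw
  show 0 < a * Ω₁ z v (I • v) + b * Ω₂ z v (I • v)
  rcases ha.lt_or_eq with h | h
  · have := mul_pos h e1
    have := mul_nonneg hb e2.le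
    linarith
  · have hb1 : b = 1 := by linarith
    rw [← h, hb1]
    linarith

end Pool.Agent.K6.H10.SY
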