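import Pool.Agent.K6.H10.SY.Kah

/-!
# The forms which are joined to Kaehler forms by a segment, continued
-/

set_option autoImplicit false

open scoped ContDiff Topology ComplexConjugate unitInterval

noncomputable section

namespace Pool.Agent.K6.H10.SY

variable {d : ℕ}

/-- the segment from `Ω` to `τ` consists of nondegenerate forms -/
def Sees (Ω τ : Forms) : Prop :=
  ∀ t : ℝ, 0 ≤ t → t ≤ 1 → Nondeg ((1 - t) • Ω.val + t • τ.val)

theorem pf_line_cont (B T : Bil) (e f : V) : Continuous fun t : ℝ => pf ((1 - t) • B + t • T) e f := by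
  have h : ∀ v w : V, Continuous fun t : ℝ => ((1 - t) • B + t • T) v w := by
    intro v w
    have : (fun t : ℝ => ((1 - t) • B + t • T) v w) = fun t => (1 - t) * B v w + t * T v w := by
      funext t
      rfl
    rw [this]
    fun_prop
  unfold pf
  exact (((h _ _).mul (h _ _)).sub ((h _ _).mul (h _ _))).add ((h _ _).mul (h _ _))

theorem Sees.seg {Ω τ : Forms} (h : Sees Ω τ) (hτ : Kah τ.val) {l : Fin 3} {z : V}
    (hz : z l = 1) : Seg (Ω.val z) (τ.val z) (ee l) (ff l) := by
  intro t ht ht'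
  by_contra hc
  rw [not_lt] at hc
  have h1 : 0 < pf ((1 - (1 : ℝ)) • Ω.val z + (1 : ℝ) • τ.val z) (ee l) (ff l) := by
    rw [comb1]
    exact pf_of_tame (hτ.tame hz)
  have h2 := intermediate_value_Icc (f := fun t : ℝ =>
    pf ((1 - t) • Ω.val z + t • τ.val z) (ee l) (ff l)) ht'
    (pf_line_cont (Ω.val z) (τ.val z) (ee l) (ff l)).continuousOn
  obtain ⟨x, hx, hx0⟩ := h2 ⟨hc, h1.le⟩
  exact pf_ne_zero (Ω.property.comb τ.property (1 - x) x) (h x (ht.trans hx.1) hx.2) hz hx0

theorem sees_of_seg {Ω τ : Forms} (h : ∀ (l : Fin 3) (z : V), z l = 1 → ‖z‖ ≤ 1 →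
    Seg (Ω.val z) (τ.val z) (ee l) (ff l)) : Sees Ω τ := fun t ht ht' =>
  nondeg_of_pf (Ω.property.comb τ.property (1 - t) t) fun l z hz hz1 =>
    (h l z hz hz1 t ht ht').ne'

/-- the Kaehler forms in `C` which are seen from `Ω` -/
def KS (Ω : Forms) (C : Set (V → Bil)) : Set (V → Bil) :=
  {τ | Kah τ ∧ τ ∈ C ∧ ∀ (l : Fin 3) (z : V), z l = 1 → ‖z‖ ≤ 1 →
    Seg (Ω.val z) (τ z) (ee l) (ff l)}

theorem convex_KS (Ω : Forms) {C : Set (V → Bil)} (hC : Convex ℝ C) : Convex ℝ (KS Ω C) := by
  rintro τ₁ ⟨k₁, c₁, s₁⟩ τ₂ ⟨k₂, c₂, s₂⟩ a b ha hb hab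
  exact ⟨k₁.comb k₂ ha hb hab, hC c₁ c₂ ha hb hab, fun l z hz hz1 =>
    seg_convex (k₁.herm z _ _) (k₂.herm z _ _) (k₁.tame hz) (k₂.tame hz) (s₁ l z hz hz1)
      (s₂ l z hz hz1) ha hb hab⟩

/-- the space of the coefficients -/
abbrev M6 : Type := Fin 3 → Fin 6 → C(KK, ℝ)

/-- the coefficients of a form -/
def res (Ω : Forms) : M6 := fun l =>
  ![coefC (ee l) (Complex.I • ee l) Ω, coefC (ff l) (Complex.I • ff l) Ω,
    coefC (ee l) (ff l) Ω, coefC (Complex.I • ee l) (Complex.I • ff l) Ω,
    coefC (ee l) (Complex.I • ff l) Ω, coefC (Complex.I • ee l) (ff l) Ω]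

theorem continuous_res : Continuous res := by
  refine continuous_pi fun l => continuous_pi fun i => ?_
  fin_cases i
  · exact continuous_coefC _ _
  · exact continuous_coefC _ _
  · exact continuous_coefC _ _
  · exact continuous_coefC _ _
  · exact continuous_coefC _ _
  · exact continuous_coefC _ _

/-- the Pfaffian in terms of the coefficients -/
def pfN (x : Fin 6 → ℝ) : ℝ := x 0 * x 1 - x 2 * x 3 + x 4 * x 5

theorem pfN_res (Ω τ : Forms) (l : Fin 3) (z : KK) (t : ℝ) :
    pfN (fun i => (1 - t) * res Ω l i z + t * res τ l i z) =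
      pf ((1 - t) • Ω.val z + t • τ.val z) (ee l) (ff l) := rfl

/-- the coefficients of the forms which see `τ` -/
def OS (τ : Forms) : Set M6 :=
  {η | ∀ (l : Fin 3) (z : KK), (z : V) l = 1 → ∀ t : ℝ, 0 ≤ t → t ≤ 1 →
    0 < pfN (fun i => (1 - t) * η l i z + t * res τ l i z)}

theorem mem_OS {Ω τ : Forms} : res Ω ∈ OS τ ↔ ∀ (l : Fin 3) (z : V), z l = 1 → ‖z‖ ≤ 1 →
    Seg (Ω.val z) (τ.val z) (ee l) (ff l) := by
  constructor
  · intro h l z hz hz1 t ht ht'
    exact h l ⟨z, mem_KK hz hz1⟩ hz t ht ht'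
  · intro h l z hz t ht ht'
    exact h l z hz (mem_sphere_zero_iff_norm.1 z.2).le t ht ht'

theorem isOpen_OS (τ : Forms) : IsOpen (OS τ) := by
  rw [isOpen_iff_eventually]
  intro η₀ h₀
  have key : ∀ l : Fin 3, ∀ᶠ η : M6 in 𝓝 η₀, ∀ y ∈ {z : KK | (z : V) l = 1} ×ˢ Set.Icc (0 : ℝ) 1,
      0 < pfN (fun i => (1 - y.2) * η l i y.1 + y.2 * res τ l i y.1) := by
    intro l
    have hK : IsCompact ({z : KK | (z : V) l = 1} ×ˢ Set.Icc (0 : ℝ) 1) := by
      refine IsCompact.prod (IsClosed.isCompact ?_) isCompact_Icc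
      exact isClosed_eq ((continuous_apply l).comp continuous_subtype_val) continuous_const
    refine hK.eventually_forall_of_forall_eventually
      (P := fun (η : M6) (y : KK × ℝ) =>
        0 < pfN (fun i => (1 - y.2) * η l i y.1 + y.2 * res τ l i y.1)) fun y hy => ?_
    have hc : ∀ i, Continuous fun q : M6 × (KK × ℝ) =>
        (1 - q.2.2) * q.1 l i q.2.1 + q.2.2 * res τ l i q.2.1 := by
      intro i
      have h4 : Continuous fun η : M6 => η l i := continuous_apply_apply l i
      have h3 : Continuous fun q : M6 × (KK × ℝ) => q.1 l i := h4.comp continuous_fst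
      have h5 : Continuous fun q : M6 × (KK × ℝ) => q.2.1 := continuous_fst.comp continuous_snd
      have h6 : Continuous fun q : M6 × (KK × ℝ) => q.2.2 := continuous_snd.comp continuous_snd
      exact ((continuous_const.sub h6).mul (h3.eval h5)).add
        (h6.mul ((res τ l i).continuous.comp h5))
    have hcc : Continuous fun q : M6 × (KK × ℝ) =>
        pfN (fun i => (1 - q.2.2) * q.1 l i q.2.1 + q.2.2 * res τ l i q.2.1) := by
      unfold pfN
      exact (((hc 0).mul (hc 1)).sub ((hc 2).mul (hc 3))).add ((hc 4).mul (hc 5))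
    exact hcc.continuousAt.eventually_const_lt (h₀ l y.1 hy.1 y.2 hy.2.1 hy.2.2)
  filter_upwards [Filter.eventually_all.2 key] with η hη l z hz t ht ht'
  exact hη l (z, t) ⟨hz, ht, ht'⟩

/-- the Kaehler forms in `C` -/
abbrev Idx (C : Set (V → Bil)) : Type := {τ : Forms // Kah τ.val ∧ τ.val ∈ C}

/-- the submodule of forms -/
def FS : Submodule ℝ (V → Bil) where
  carrier := {Ω | IsForm Ω}
  add_mem' {a b} ha hb := by
    have h := IsForm.comb ha hb 1 1
    have h1 : (1 : ℝ) • a + (1 : ℝ) • b = a + b := by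
      funext z
      ext v w
      show 1 * a z v w + 1 * b z v w = a z v w + b z v w
      ring
    rw [h1] at h
    exact h
  zero_mem' :=
    { zero := rfl
      smooth := contDiffOn_const
      alt := fun _ _ => rfl
      inv := fun _ _ _ _ _ _ => rfl
      hor := fun _ _ _ _ => rfl }
  smul_mem' c a ha := by
    have h := IsForm.comb ha ha c 0
    have h1 : c • a + (0 : ℝ) • a = c • a := by
      funext z
      ext v w
      show c * a z v w + 0 * a z v w = c * a z v w
      ring
    rw [h1] at h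
    exact h

/-- a form from a point of the submodule -/
def toForms (a : FS) : Forms := ⟨a.1, a.2⟩

/-- the jets as linear maps -/
def jetL (v w : V) (j : ℕ) : FS →ₗ[ℝ] C(V', V [×j]→L[ℝ] ℝ) where
  toFun a := jet v w j (toForms a)
  map_add' a b := by
    have h := jet_comb v w j 1 1 (toForms a) (toForms b)
    rw [one_smul, one_smul] at h
    rw [← h]
    congr 1
    unfold toForms comb
    congr 1
    funext z
    ext v w
    show a.1 z v w + b.1 z v w = 1 * a.1 z v w + 1 * b.1 z v w
    ring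
  map_smul' c a := by
    have h := jet_comb v w j c 0 (toForms a) (toForms a)
    have h0 : (0 : ℝ) • jet v w j (toForms a) = 0 := by
      ext1 z
      exact zero_smul ℝ _
    rw [h0, add_zero] at h
    rw [RingHom.id_apply, ← h]
    congr 1
    unfold toForms comb
    congr 1
    funext z
    ext v w
    show c * a.1 z v w = c * a.1 z v w + 0 * a.1 z v w
    ring

end Pool.Agent.K6.H10.SY
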